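import Pool.Agent.H93.LP3.Wit9

open Matrix Complex Filter
open scoped ComplexOrder Kronecker

namespace H93.LP3

/-- Reduction of the failure of the lifting property to a uniform gap inequality for pairs of
projection valued measures. -/
theorem not_LP_of_gap (κ : ℕ → Type) [∀ k, Fintype (κ k)] [∀ k, DecidableEq (κ k)]
    [∀ k, Nonempty (κ k)] (e f : ∀ k, Fin 8 → Matrix (κ k) (κ k) ℂ) (he : ∀ k, IsPVM (e k))
    (hf : ∀ k, IsPVM (f k)) (γ : ℝ) (hγ : 0 < γ) (hg1 : ∀ k, GapAt (e k) (f k) γ 32)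
    (hg : ∀ N, ∀ᶠ k in atTop, GapAt (e k) (f k) γ N) : ¬ HasLiftingProperty := by
  set A : ℝ := ∑ i, aw i * (1 + tt i) ^ 16 with hA
  have hA0 : 0 < A := by
    apply Finset.sum_pos
    · intro i _
      have := aw_pos i; have := tt_pos i; positivity
    · exact Finset.univ_nonempty
  set ε : ℝ := γ / (8 * A) with hε
  have hε0 : 0 < ε := by positivity
  obtain ⟨lam, hlam0, hlam⟩ := scalar_ineq ε hε0
  obtain ⟨C, hC, hCb⟩ := gg_bound ε lam
  set lam1 : ℝ := 255 * (3 * C / (ε / (102 * C)) + C) with hlam1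
  have hlam10 : 0 < lam1 := by positivity
  have hwd : (0 : ℝ) ≤ 2 * wd 15 := by have := wd_ge 15; linarith
  refine criterion (ι := fun k => IX (κ k)) (fun k => phi (PP γ (e k)) (PP γ (f k))) γ
    (2 * wd 15) (17 * C + 15 * lam1) (γ / 64) hγ (by positivity) hwd (by positivity)
    (fun k => phi_lower hγ.le (hg1 k)) (fun k => phi_upper hγ.le (he k) (hf k)) ?_ ?_ ?_
  · intro k M hM
    have h1 := amp_psd (N := 1) hγ.le (by simpa using hg1 k) M hM
    exact h1.submatrix (fun x : IX (κ k) => ((0 : Fin 1), x))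
  · intro N
    filter_upwards [hg (N * 32)] with k hk M hM
    exact amp_psd hγ.le hk M hM
  · refine Eventually.of_forall fun k => ⟨Wit (gg (e k) (f k) ε lam) lam1, ?_, ?_, ?_⟩
    · exact Wit_zPos hε0 hC hlam (he k) (hf k) (hCb (κ k) (e k) (f k) (he k) (hf k))
    · intro a
      exact Wit_diag hC.le hlam10.le (hCb (κ k) (e k) (f k) (he k) (hf k)) a
    · refine (total_pairing (he k) (hf k) hγ.le hε0.le lam lam1).trans ?_
      have hcard : (Fintype.card (IX (κ k)) : ℝ) = 32 * Fintype.card (κ k) := by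
        simp only [Fintype.card_prod, Fintype.card_fin]
        push_cast; ring
      have hn : (0 : ℝ) ≤ Fintype.card (κ k) := Nat.cast_nonneg _
      rw [hcard]
      have h1 : 4 * ε * A = γ / 2 := by
        rw [hε]; field_simp; norm_num
      rw [← hA, h1]
      nlinarith

end H93.LP3
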