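import Pool.Agent.H93.LP3.Two
import Pool.Agent.H93.LP3.Assemble

open Matrix Complex Filter
open scoped ComplexOrder Kronecker

namespace H93.LP3

section QF
variable {ν κ : Type} [Fintype ν] [DecidableEq ν] [Fintype κ] [DecidableEq κ]

def Xi (ξ : ν × κ → ℂ) : Matrix ν κ ℂ := Matrix.of fun a b => ξ (a, b)

lemma qform (E : Matrix ν ν ℂ) (e : Matrix κ κ ℂ) (ξ : ν × κ → ℂ) :
    star ξ ⬝ᵥ ((E ⊗ₖ eᵀ) *ᵥ ξ) = ((Xi ξ)ᴴ * E * Xi ξ * e).trace := by
  have h1 : star ξ ⬝ᵥ ((E ⊗ₖ eᵀ) *ᵥ ξ) =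
      ∑ a, ∑ b, ∑ a', ∑ b', star (ξ (a, b)) * E a a' * ξ (a', b') * e b' b := by
    simp only [dotProduct, mulVec]
    rw [Fintype.sum_prod_type]
    refine Finset.sum_congr rfl fun a _ => Finset.sum_congr rfl fun b _ => ?_
    rw [Fintype.sum_prod_type, Finset.mul_sum]
    refine Finset.sum_congr rfl fun a' _ => ?_
    rw [Finset.mul_sum]
    refine Finset.sum_congr rfl fun b' _ => ?_
    rw [kroneckerMap_apply, transpose_apply, Pi.star_apply]
    ring
  have h2 : ((Xi ξ)ᴴ * E * Xi ξ * e).trace =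
      ∑ b, ∑ b', ∑ a', ∑ a, star (ξ (a, b)) * E a a' * ξ (a', b') * e b' b := by
    unfold Matrix.trace
    refine Finset.sum_congr rfl fun b _ => ?_
    rw [diag_apply, mul_apply]
    refine Finset.sum_congr rfl fun b' _ => ?_
    rw [mul_apply, Finset.sum_mul]
    refine Finset.sum_congr rfl fun a' _ => ?_
    rw [mul_apply, Finset.sum_mul, Finset.sum_mul]
    rfl
  rw [h1, h2, Finset.sum_comm]
  refine Finset.sum_congr rfl fun b _ => ?_
  rw [Finset.sum_comm]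
  have h3 : ∀ a', ∑ a, ∑ b', star (ξ (a, b)) * E a a' * ξ (a', b') * e b' b =
      ∑ b', ∑ a, star (ξ (a, b)) * E a a' * ξ (a', b') * e b' b := fun a' => Finset.sum_comm
  simp_rw [h3]
  exact Finset.sum_comm

end QF

section
variable {κ : Type} [Fintype κ] [DecidableEq κ]

/-- a pair of unitaries without almost commuting positive matrices of small rank -/
def NoCommute (U V : Matrix κ κ ℂ) (N : ℕ) : Prop :=
  ∀ A : Matrix κ κ ℂ, A.PosSemidef → A.rank ≤ N → hs (A - U * A * Uᴴ) ≤ 1 / 10 ^ 10 * hs A →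
    hs (A - V * A * Vᴴ) ≤ 1 / 10 ^ 10 * hs A → hs A = 0

lemma gapAt_of_noCommute {pw1 pw2 : ZMod 8 → Matrix κ κ ℂ} (h1 : IsRep pw1) (h2 : IsRep pw2)
    {N : ℕ} (h : NoCommute (pw1 1) (pw2 1) N) :
    GapAt (fun i : Fin 8 => pv pw1 i) (fun i : Fin 8 => pv pw2 i) (1 / 10 ^ 22) N := by
  intro ν _ _ hν E F hE hF hEF
  set γ : ℝ := 1 / 10 ^ 22 with hγ
  set e : Fin 8 → Matrix κ κ ℂ := fun i : Fin 8 => pv pw1 i with he
  set f : Fin 8 → Matrix κ κ ℂ := fun i : Fin 8 => pv pw2 i with hf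
  have hep : IsPVM e := pvm_of_rep h1
  have hfp : IsPVM f := pvm_of_rep h2
  have herm : (((2 - γ : ℝ) : ℂ) • ((∑ i, E i) ⊗ₖ (1 : Matrix κ κ ℂ)) -
      ∑ i, (E i ⊗ₖ (e i)ᵀ + F i ⊗ₖ (f i)ᵀ)).IsHermitian := by
    unfold IsHermitian
    rw [conjTranspose_sub, conjTranspose_smul, conjTranspose_kronecker, conjTranspose_one,
      conjTranspose_sum, conjTranspose_sum]
    congr 1
    · congr 1
      · simp
      · congr 1
        exact Finset.sum_congr rfl fun i _ => (hE i).isHermitian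
    · refine Finset.sum_congr rfl fun i _ => ?_
      rw [conjTranspose_add, conjTranspose_kronecker, conjTranspose_kronecker,
        (hE i).isHermitian.eq, (hF i).isHermitian.eq]
      have k1 : ((e i)ᵀ)ᴴ = (e i)ᵀ := by
        conv_rhs => rw [← hep.herm i]
        rfl
      have k2 : ((f i)ᵀ)ᴴ = (f i)ᵀ := by
        conv_rhs => rw [← hfp.herm i]
        rfl
      rw [k1, k2]
  refine PosSemidef.of_dotProduct_mulVec_nonneg herm fun ξ => ?_
  rw [Complex.le_def]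
  refine ⟨?_, (herm.im_star_dotProduct_mulVec_self ξ).symm⟩
  set X : Fin 8 → Matrix κ κ ℂ := fun i => (Xi ξ)ᴴ * E i * Xi ξ with hX
  set Y : Fin 8 → Matrix κ κ ℂ := fun i => (Xi ξ)ᴴ * F i * Xi ξ with hY
  have hXp : ∀ i, (X i).PosSemidef := fun i => (hE i).conjTranspose_mul_mul_same _
  have hYp : ∀ i, (Y i).PosSemidef := fun i => (hF i).conjTranspose_mul_mul_same _
  have hXs : ∑ i, X i = (Xi ξ)ᴴ * (∑ i, E i) * Xi ξ := by
    rw [Matrix.mul_sum, Matrix.sum_mul]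
  have hYs : ∑ i, Y i = ∑ i, X i := by
    rw [hXs, hEF, Matrix.mul_sum, Matrix.sum_mul]
  obtain ⟨A, hA, hAA⟩ := exists_sqrt (∑ i, X i) (posSemidef_sum _ fun i _ => hXp i)
  have hAr : A.rank ≤ N := by
    have k1 : A.rank = (Aᴴ * A).rank := (rank_conjTranspose_mul_self A).symm
    rw [k1, hA.isHermitian.eq, hAA, hXs, Matrix.mul_assoc]
    exact (rank_mul_le_left _ _).trans ((rank_le_card_width _).trans hν)
  have hval : (star ξ ⬝ᵥ ((((2 - γ : ℝ) : ℂ) • ((∑ i, E i) ⊗ₖ (1 : Matrix κ κ ℂ)) -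
      ∑ i, (E i ⊗ₖ (e i)ᵀ + F i ⊗ₖ (f i)ᵀ)) *ᵥ ξ)).re =
      (2 - γ) * (A * A).trace.re -
        (∑ i, (X i * e i).trace.re + ∑ i, (Y i * f i).trace.re) := by
    have k1 : star ξ ⬝ᵥ (((∑ i, E i) ⊗ₖ (1 : Matrix κ κ ℂ)) *ᵥ ξ) = (A * A).trace := by
      have := qform (∑ i, E i) (1 : Matrix κ κ ℂ) ξ
      rw [transpose_one, Matrix.mul_one] at this
      rw [this, hAA, hXs]
    have k2 : ∀ i, star ξ ⬝ᵥ ((E i ⊗ₖ (e i)ᵀ) *ᵥ ξ) = (X i * e i).trace := fun i => qform _ _ _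
    have k3 : ∀ i, star ξ ⬝ᵥ ((F i ⊗ₖ (f i)ᵀ) *ᵥ ξ) = (Y i * f i).trace := fun i => qform _ _ _
    rw [sub_mulVec, dotProduct_sub, smul_mulVec, dotProduct_smul, k1, sum_mulVec, dotProduct_sum]
    simp_rw [add_mulVec, dotProduct_add, k2, k3]
    rw [Finset.sum_add_distrib, Complex.sub_re, smul_eq_mul, Complex.re_ofReal_mul,
      Complex.add_re, Complex.re_sum, Complex.re_sum]
  rw [hval, Complex.zero_re]
  by_contra hcon
  have hlt := not_le.1 hcon
  have hT0 : 0 ≤ (A * A).trace.re := tr_psd_mul hA hA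
  have hγ0 : (0 : ℝ) < γ := by positivity
  have b1 : ∀ (Z g : Fin 8 → Matrix κ κ ℂ), (∀ i, (Z i).PosSemidef) → IsPVM g →
      ∑ i, Z i = ∑ i, X i → ∑ i, (Z i * g i).trace.re ≤ (A * A).trace.re := by
    intro Z g hZ hg hZX
    rw [hAA, ← hZX, Matrix.trace_sum, Complex.re_sum]
    refine Finset.sum_le_sum fun i _ => ?_
    have hp : (1 - g i).PosSemidef := by
      have : (1 - g i) = (1 - g i)ᴴ * (1 - g i) := by
        rw [conjTranspose_sub, conjTranspose_one, hg.herm]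
        simp [mul_sub, sub_mul, hg.idem]
      rw [this]; exact posSemidef_conjTranspose_mul_self _
    have := tr_psd_mul (hZ i) hp
    rw [Matrix.mul_sub, Matrix.mul_one, Matrix.trace_sub, Complex.sub_re] at this
    linarith
  have bX := b1 X e hXp hep rfl
  have bY := b1 Y f hYp hfp hYs
  have hc : ∀ i : ZMod 8, ‖ch (i * 1)‖ = 1 := fun i => ch_norm _
  have hsq : Real.sqrt γ = 1 / 10 ^ 11 := by
    rw [hγ]
    rw [show (1 : ℝ) / 10 ^ 22 = (1 / 10 ^ 11) ^ 2 by norm_num]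
    exact Real.sqrt_sq (by positivity)
  have hhs : hs A = (A * A).trace.re := by rw [hs_eq_re, hA.isHermitian.eq]
  have o1 := one_sided (U := pw1 1) (c := fun i : ZMod 8 => ch (i * 1)) (rep_unitary h1 1).1 (rep_unitary h1 1).2 hep hc
    (fun i => mul_pv h1 1 i) hXp hA hAA hγ0.le (by linarith)
  have o2 := one_sided (U := pw2 1) (c := fun i : ZMod 8 => ch (i * 1)) (rep_unitary h2 1).1 (rep_unitary h2 1).2 hfp hc
    (fun i => mul_pv h2 1 i) hYp hA (hAA.trans hYs.symm) hγ0.le (by linarith)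
  rw [hsq, ← hhs] at o1 o2
  have hH := hs_nonneg A
  have hz := h A hA hAr (by linarith) (by linarith)
  rw [← hhs, hz] at hlt
  rw [hhs] at hz
  rw [hz] at bX bY
  linarith

end

lemma noCommute_U {p N : ℕ} [NeZero p] (hp : 2 * N < p) : NoCommute (U1 p 1) (P2 p 1) N := by
  intro A hA hr h1 h2
  rw [P2_one] at h2
  exact gap_core hA hr hp h1 h2

instance nz65 (k : ℕ) : NeZero (65 + k) := ⟨by omega⟩

theorem no_lifting : ¬ HasLiftingProperty := by
  have hgap : ∀ k N : ℕ, 2 * N < 65 + k → GapAt (fun i : Fin 8 => pv (U1 (65 + k)) i)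
      (fun i : Fin 8 => pv (P2 (65 + k)) i) (1 / 10 ^ 22) N := fun k N h =>
    gapAt_of_noCommute U1_rep P2_rep (noCommute_U h)
  refine not_LP_of_gap (fun k => BX (65 + k)) (fun k i => pv (U1 (65 + k)) i)
    (fun k i => pv (P2 (65 + k)) i) (fun k => pvm_of_rep U1_rep) (fun k => pvm_of_rep P2_rep)
    (1 / 10 ^ 22) (by positivity) (fun k => hgap k 32 (by omega)) ?_
  intro N
  filter_upwards [eventually_ge_atTop (2 * N)] with k hk
  exact hgap k N (by omega)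

end H93.LP3
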