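import Pool.Agent.H93.LP3.Defs

open Matrix Complex
open scoped Kronecker ComplexOrder

namespace H93.LP3

/-- Linear pencil. -/
def pencil {r n : ℕ} (M : Matrix (Fin r) (Fin r) (Fin 4 → ℂ))
    (X : Fin 3 → Matrix (Fin n) (Fin n) ℂ) : Matrix (Fin r × Fin n) (Fin r × Fin n) ℂ :=
  coef M 0 ⊗ₖ (1 : Matrix (Fin n) (Fin n) ℂ) + ∑ j : Fin 3, coef M j.succ ⊗ₖ X j

/-- value at a point of the ball -/
def ballVal {r : ℕ} (M : Matrix (Fin r) (Fin r) (Fin 4 → ℂ)) (x : Fin 3 → ℝ) :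
    Matrix (Fin r) (Fin r) ℂ :=
  coef M 0 + ∑ j : Fin 3, (x j : ℂ) • coef M j.succ

def BallPos {r : ℕ} (M : Matrix (Fin r) (Fin r) (Fin 4 → ℂ)) : Prop :=
  ∀ x : Fin 3 → ℝ, ∑ j, x j ^ 2 ≤ 1 → (ballVal M x).PosSemidef

/-- value at a point of the sphere in stereographic coordinate -/
def zVal {r : Type} (M : Matrix r r (Fin 4 → ℂ)) (z : ℂ) :
    Matrix r r ℂ :=
  (coef M 0 + coef M 3) + z • (coef M 1 - I • coef M 2) +
    (starRingEnd ℂ z) • (coef M 1 + I • coef M 2) + (z * starRingEnd ℂ z) • (coef M 0 - coef M 3)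

def ZPos {r : Type} (M : Matrix r r (Fin 4 → ℂ)) : Prop :=
  ∀ z : ℂ, (zVal M z).PosSemidef

/-- the largest candidate -/
def KK : MatSeq := fun n => {X | (∀ j, (X j).IsHermitian) ∧
  ∀ (r : ℕ) (M : Matrix (Fin r) (Fin r) (Fin 4 → ℂ)), BallPos M → (pencil M X).PosSemidef}

lemma pencil_conj {r m n : ℕ} (M : Matrix (Fin r) (Fin r) (Fin 4 → ℂ))
    (X : Fin 3 → Matrix (Fin n) (Fin n) ℂ) (V : Matrix (Fin n) (Fin m) ℂ) :
    ((1 : Matrix (Fin r) (Fin r) ℂ) ⊗ₖ V)ᴴ * pencil M X * ((1 : Matrix (Fin r) (Fin r) ℂ) ⊗ₖ V) =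
      coef M 0 ⊗ₖ (Vᴴ * V) + ∑ j : Fin 3, coef M j.succ ⊗ₖ (Vᴴ * X j * V) := by
  unfold pencil
  rw [conjTranspose_kronecker, conjTranspose_one]
  rw [Matrix.mul_add, Matrix.add_mul, Matrix.mul_sum, Matrix.sum_mul]
  simp only [← mul_kronecker_mul, Matrix.one_mul, Matrix.mul_one]

lemma pencil_compress {r m n : ℕ} (M : Matrix (Fin r) (Fin r) (Fin 4 → ℂ))
    (X : Fin 3 → Matrix (Fin n) (Fin n) ℂ) (V : Matrix (Fin n) (Fin m) ℂ) (hV : Vᴴ * V = 1) :
    pencil M (fun j => Vᴴ * X j * V) =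
    ((1 : Matrix (Fin r) (Fin r) ℂ) ⊗ₖ V)ᴴ * pencil M X * ((1 : Matrix (Fin r) (Fin r) ℂ) ⊗ₖ V) := by
  rw [pencil_conj, hV]; rfl

/-- inclusion of the first block (transposed) -/
def inl' (m n : ℕ) : Matrix (Fin m) (Fin (m + n)) ℂ :=
  (Matrix.fromCols (1 : Matrix (Fin m) (Fin m) ℂ) (0 : Matrix (Fin m) (Fin n) ℂ)).submatrix id
    finSumFinEquiv.symm

def inr' (m n : ℕ) : Matrix (Fin n) (Fin (m + n)) ℂ :=
  (Matrix.fromCols (0 : Matrix (Fin n) (Fin m) ℂ) (1 : Matrix (Fin n) (Fin n) ℂ)).submatrix id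
    finSumFinEquiv.symm

lemma block_eq (m n : ℕ) (X : Matrix (Fin m) (Fin m) ℂ) (Y : Matrix (Fin n) (Fin n) ℂ) :
    Matrix.reindex finSumFinEquiv finSumFinEquiv (Matrix.fromBlocks X 0 0 Y) =
      (inl' m n)ᴴ * X * inl' m n + (inr' m n)ᴴ * Y * inr' m n := by
  unfold inl' inr'
  rw [conjTranspose_submatrix, conjTranspose_submatrix]
  ext i j
  rcases h1 : finSumFinEquiv.symm i with a | a <;> rcases h2 : finSumFinEquiv.symm j with b | b <;>
    simp [Matrix.mul_apply, h1, h2, Matrix.one_apply]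

lemma block_one (m n : ℕ) :
    (1 : Matrix (Fin (m + n)) (Fin (m + n)) ℂ) =
      (inl' m n)ᴴ * inl' m n + (inr' m n)ᴴ * inr' m n := by
  have h := block_eq m n 1 1
  rw [Matrix.mul_one, Matrix.mul_one] at h
  rw [← h, Matrix.fromBlocks_one]
  simp

lemma KK_convex : IsMatrixConvex KK where
  hermitian n X hX j := hX.1 j
  directSum m n X hX Y hY := by
    refine ⟨fun j => ?_, fun r M hM => ?_⟩
    · change (Matrix.reindex finSumFinEquiv finSumFinEquiv
        (Matrix.fromBlocks (X j) 0 0 (Y j))).IsHermitian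
      rw [Matrix.reindex_apply]
      apply IsHermitian.submatrix
      exact IsHermitian.fromBlocks (hX.1 j) (by simp) (hY.1 j)
    · have h : pencil M (fun j => Matrix.reindex finSumFinEquiv finSumFinEquiv
          (Matrix.fromBlocks (X j) 0 0 (Y j))) =
          ((1 : Matrix (Fin r) (Fin r) ℂ) ⊗ₖ inl' m n)ᴴ * pencil M X *
            ((1 : Matrix (Fin r) (Fin r) ℂ) ⊗ₖ inl' m n) +
          ((1 : Matrix (Fin r) (Fin r) ℂ) ⊗ₖ inr' m n)ᴴ * pencil M Y *
            ((1 : Matrix (Fin r) (Fin r) ℂ) ⊗ₖ inr' m n) := by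
        rw [pencil_conj, pencil_conj]
        unfold pencil
        rw [block_one]
        simp only [block_eq, kronecker_add, Finset.sum_add_distrib]
        abel
      rw [h]
      exact ((hX.2 r M hM).conjTranspose_mul_mul_same _).add
        ((hY.2 r M hM).conjTranspose_mul_mul_same _)
  compress m n V hV X hX := by
    refine ⟨fun j => isHermitian_conjTranspose_mul_mul V (hX.1 j), fun r M hM => ?_⟩
    rw [pencil_compress M X V hV]
    exact (hX.2 r M hM).conjTranspose_mul_mul_same _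

lemma isClosed_posSemidef {ι : Type*} [Fintype ι] :
    IsClosed {A : Matrix ι ι ℂ | A.PosSemidef} := by
  have : {A : Matrix ι ι ℂ | A.PosSemidef} =
      {A | A.IsHermitian} ∩ ⋂ x : ι → ℂ, {A | 0 ≤ star x ⬝ᵥ (A *ᵥ x)} := by
    ext A
    simp [posSemidef_iff_dotProduct_mulVec]
  rw [this]
  apply IsClosed.inter
  · unfold IsHermitian
    exact isClosed_eq (by fun_prop) (by fun_prop)
  · apply isClosed_iInter
    intro x
    apply isClosed_le (by fun_prop)
    fun_prop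

lemma KK_closed (n : ℕ) : IsClosed (KK n) := by
  have : KK n = (⋂ j, {X : Fin 3 → Matrix (Fin n) (Fin n) ℂ | (X j).IsHermitian}) ∩
      ⋂ (r : ℕ) (M : Matrix (Fin r) (Fin r) (Fin 4 → ℂ)) (_ : BallPos M),
        {X | (pencil M X).PosSemidef} := by
    ext X
    simp [KK]
  rw [this]
  apply IsClosed.inter
  · apply isClosed_iInter
    intro j
    unfold IsHermitian
    exact isClosed_eq (by fun_prop) (by fun_prop)
  · refine isClosed_iInter fun r => isClosed_iInter fun M => isClosed_iInter fun _ => ?_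
    have hc : Continuous (fun X : Fin 3 → Matrix (Fin n) (Fin n) ℂ => pencil M X) := by
      unfold pencil
      refine continuous_const.add (continuous_finsetSum _ fun j _ => ?_)
      refine continuous_matrix fun a b => ?_
      simp only [kroneckerMap_apply]
      fun_prop
    exact isClosed_posSemidef.preimage hc

lemma pencil_level_one {r : ℕ} (M : Matrix (Fin r) (Fin r) (Fin 4 → ℂ)) (x : Fin 3 → ℝ) :
    pencil M (fun j => (Matrix.of fun _ _ => (x j : ℂ) : Matrix (Fin 1) (Fin 1) ℂ)) =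
      (ballVal M x).submatrix Prod.fst Prod.fst := by
  ext ⟨a, a'⟩ ⟨b, b'⟩
  simp only [pencil, ballVal, Matrix.add_apply, submatrix_apply, kroneckerMap_apply,
    Matrix.sum_apply, Matrix.smul_apply, Matrix.of_apply, smul_eq_mul]
  have : a' = b' := Subsingleton.elim _ _
  subst this
  simp [mul_comm]

lemma KK_level : FirstLevelIsBall KK := by
  intro x
  constructor
  · intro h
    set s : ℝ := Real.sqrt (∑ j, x j ^ 2) with hs
    by_cases hs0 : s = 0
    · have : ∑ j, x j ^ 2 = 0 := by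
        have h0 : 0 ≤ ∑ j, x j ^ 2 := Finset.sum_nonneg fun j _ => sq_nonneg _
        rw [← Real.sqrt_eq_zero h0]; exact hs0
      rw [this]; norm_num
    have hspos : 0 < s := lt_of_le_of_ne (Real.sqrt_nonneg _) (Ne.symm hs0)
    have hsq : s ^ 2 = ∑ j, x j ^ 2 := Real.sq_sqrt (Finset.sum_nonneg fun j _ => sq_nonneg _)
    -- the functional 1 - <x/s, ·>
    set M : Matrix (Fin 1) (Fin 1) (Fin 4 → ℂ) :=
      Matrix.of fun _ _ => (Fin.cons (1 : ℂ) fun j => ((-(x j / s) : ℝ) : ℂ)) with hM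
    have hval : ∀ y : Fin 3 → ℝ, ballVal M y =
        Matrix.of fun _ _ => ((1 - ∑ j, y j * (x j / s) : ℝ) : ℂ) := by
      intro y
      ext a b
      simp only [ballVal, coef, hM, Matrix.add_apply, Matrix.map_apply, Matrix.of_apply,
        Fin.cons_zero, Matrix.sum_apply, Matrix.smul_apply, Fin.cons_succ, smul_eq_mul]
      push_cast
      rw [sub_eq_add_neg, ← Finset.sum_neg_distrib]
      congr 1
      exact Finset.sum_congr rfl fun j _ => by ring
    have hpos : BallPos M := by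
      intro y hy
      rw [hval]
      have hnn : 0 ≤ 1 - ∑ j, y j * (x j / s) := by
        have h1 : ∑ j, (x j / s) ^ 2 = 1 := by
          simp_rw [div_pow, ← Finset.sum_div]
          rw [← hsq]; field_simp
        have h2 : ∑ j, y j * (x j / s) ≤ ∑ j, (y j ^ 2 + (x j / s) ^ 2) / 2 :=
          Finset.sum_le_sum fun j _ => by nlinarith [sq_nonneg (y j - x j / s)]
        rw [← Finset.sum_div, Finset.sum_add_distrib, h1] at h2
        linarith
      refine PosSemidef.of_dotProduct_mulVec_nonneg ?_ ?_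
      · ext a b
        simp [conjTranspose_apply]
      · intro v
        simp only [dotProduct, mulVec, Matrix.of_apply, Finset.univ_unique, Finset.sum_singleton,
          Pi.star_apply]
        have : star (v default) * (((1 - ∑ j, y j * (x j / s) : ℝ) : ℂ) * v default) =
            (((1 - ∑ j, y j * (x j / s)) * ‖v default‖ ^ 2 : ℝ) : ℂ) := by
          have h3 : star (v default) * v default = ((‖v default‖ ^ 2 : ℝ) : ℂ) := by
            rw [Complex.star_def, ← Complex.normSq_eq_conj_mul_self, Complex.normSq_eq_norm_sq]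
          rw [mul_left_comm, h3]; push_cast; ring
        rw [this]
        exact_mod_cast mul_nonneg hnn (sq_nonneg _)
    have h1 := h.2 1 M hpos
    rw [pencil_level_one, hval] at h1
    have h2 := h1.diag_nonneg (i := ((0 : Fin 1), (0 : Fin 1)))
    simp only [submatrix_apply, Matrix.of_apply] at h2
    have h3 : 0 ≤ 1 - ∑ j, x j * (x j / s) := by exact_mod_cast h2
    have h4 : ∑ j, x j * (x j / s) = s := by
      have : ∑ j, x j * (x j / s) = (∑ j, x j ^ 2) / s := by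
        rw [Finset.sum_div]; exact Finset.sum_congr rfl fun j _ => by ring
      rw [this, ← hsq]; field_simp
    rw [h4] at h3
    rw [← hsq]
    nlinarith
  · intro h
    refine ⟨fun j => ?_, fun r M hM => ?_⟩
    · ext a b
      simp [conjTranspose_apply]
    · rw [pencil_level_one]
      exact (hM x h).submatrix _

/-- `Wmin` is itself a closed matrix convex set with first level the ball (sanity check). -/
lemma Wmin_subset_KK (n : ℕ) : Wmin n ⊆ KK n := fun _ hX =>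
  hX KK KK_convex KK_closed KK_level

lemma level_mem_Wmin (x : Fin 3 → ℝ) (hx : ∑ j, x j ^ 2 ≤ 1) :
    (fun j => (Matrix.of fun _ _ => (x j : ℂ) : Matrix (Fin 1) (Fin 1) ℂ)) ∈ Wmin 1 :=
  fun _ _ _ hK => (hK x).2 hx

theorem OPos_iff_ballPos {r : ℕ} (M : Matrix (Fin r) (Fin r) (Fin 4 → ℂ)) :
    OPos M ↔ BallPos M := by
  constructor
  · intro h x hx
    have h1 := h 1 _ (level_mem_Wmin x hx)
    change (pencil M _).PosSemidef at h1
    rw [pencil_level_one] at h1
    exact h1.submatrix (fun a : Fin r => (a, (0 : Fin 1)))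
  · intro h n X hX
    exact (Wmin_subset_KK n hX).2 r M h

lemma quad_ballVal {r : ℕ} (M : Matrix (Fin r) (Fin r) (Fin 4 → ℂ)) (x : Fin 3 → ℝ)
    (v : Fin r → ℂ) : star v ⬝ᵥ (ballVal M x *ᵥ v) =
      star v ⬝ᵥ (coef M 0 *ᵥ v) + x 0 * (star v ⬝ᵥ (coef M 1 *ᵥ v)) +
      x 1 * (star v ⬝ᵥ (coef M 2 *ᵥ v)) + x 2 * (star v ⬝ᵥ (coef M 3 *ᵥ v)) := by
  simp only [ballVal, Fin.sum_univ_three, Matrix.add_mulVec, Matrix.smul_mulVec,
    dotProduct_add, dotProduct_smul, smul_eq_mul]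
  simp only [Fin.succ_zero_eq_one, Fin.succ_one_eq_two, ← add_assoc]
  rfl

lemma quad_zVal {r : ℕ} (M : Matrix (Fin r) (Fin r) (Fin 4 → ℂ)) (z : ℂ)
    (v : Fin r → ℂ) : star v ⬝ᵥ (zVal M z *ᵥ v) =
      (star v ⬝ᵥ (coef M 0 *ᵥ v) + star v ⬝ᵥ (coef M 3 *ᵥ v)) +
      z * (star v ⬝ᵥ (coef M 1 *ᵥ v) - I * star v ⬝ᵥ (coef M 2 *ᵥ v)) +
      starRingEnd ℂ z * (star v ⬝ᵥ (coef M 1 *ᵥ v) + I * star v ⬝ᵥ (coef M 2 *ᵥ v)) +
      (z * starRingEnd ℂ z) * (star v ⬝ᵥ (coef M 0 *ᵥ v) - star v ⬝ᵥ (coef M 3 *ᵥ v)) := by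
  simp only [zVal, Matrix.add_mulVec, Matrix.sub_mulVec, Matrix.smul_mulVec,
    dotProduct_add, dotProduct_sub, dotProduct_smul, smul_eq_mul]

lemma BallPos.hermitian {r : ℕ} {M : Matrix (Fin r) (Fin r) (Fin 4 → ℂ)} (h : BallPos M)
    (j : Fin 4) : (coef M j).IsHermitian := by
  have h0 : (coef M 0).IsHermitian := by
    have := (h 0 (by simp)).1
    simpa [ballVal] using this
  have hj : ∀ j : Fin 3, (coef M j.succ).IsHermitian := by
    intro j
    have h1 := (h (Pi.single j 1) (by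
      rw [Finset.sum_eq_single j] <;> simp +contextual)).1
    have h2 : ballVal M (Pi.single j 1) = coef M 0 + coef M j.succ := by
      unfold ballVal
      rw [Finset.sum_eq_single j] <;> simp +contextual
    rw [h2] at h1
    have := h1.sub h0
    simpa using this
  refine Fin.cases h0 hj j

/-- hermitian forms are real -/
lemma quad_real {ι : Type*} [Fintype ι] {A : Matrix ι ι ℂ} (h : A.IsHermitian) (v : ι → ℂ) :
    ((star v ⬝ᵥ (A *ᵥ v)).re : ℂ) = star v ⬝ᵥ (A *ᵥ v) := by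
  have h1 : (star v ⬝ᵥ (A *ᵥ v)).im = 0 := h.im_star_dotProduct_mulVec_self v
  apply Complex.ext <;> simp [h1]

lemma scal_id (c0 c1 c2 c3 : ℂ) (x y n : ℝ) (hn : (1 : ℂ) + n ≠ 0) :
    c0 + c3 + ((x : ℂ) + y * I) * (c1 - I * c2) + ((x : ℂ) - y * I) * (c1 + I * c2) +
      (n : ℂ) * (c0 - c3) =
    ((1 + n : ℝ) : ℂ) * (c0 + (((2 * x / (1 + n) : ℝ) : ℂ) * c1 +
      ((2 * y / (1 + n) : ℝ) : ℂ) * c2 + (((1 - n) / (1 + n) : ℝ) : ℂ) * c3)) := by
  push_cast
  field_simp
  ring_nf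
  simp only [Complex.I_sq]
  ring

lemma ballPos_zPos {r : ℕ} {M : Matrix (Fin r) (Fin r) (Fin 4 → ℂ)} (h : BallPos M) :
    ZPos M := by
  intro z
  set n : ℝ := Complex.normSq z with hn
  have hn0 : 0 ≤ n := Complex.normSq_nonneg z
  have hn1 : (0 : ℝ) < 1 + n := by linarith
  have hn2 : ((1 : ℂ) + n) ≠ 0 := by
    have : ((1 + n : ℝ) : ℂ) ≠ 0 := by exact_mod_cast hn1.ne'
    simpa using this
  set b : Fin 3 → ℝ := ![2 * z.re / (1 + n), 2 * z.im / (1 + n), (1 - n) / (1 + n)] with hb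
  have hbs : ∑ j, b j ^ 2 ≤ 1 := by
    have : ∑ j, b j ^ 2 = 1 := by
      simp only [hb, Fin.sum_univ_three, Matrix.cons_val_zero, Matrix.cons_val_one,
        Matrix.cons_val_two, Matrix.head_cons, Matrix.tail_cons, Matrix.cons_val]
      field_simp
      have : n = z.re ^ 2 + z.im ^ 2 := by rw [hn, Complex.normSq_apply]; ring
      rw [this]; ring
    exact this.le
  have hz : zVal M z = ((1 + n : ℝ) : ℂ) • ballVal M b := by
    have e1 : z = z.re + z.im * I := (Complex.re_add_im z).symm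
    have e2 : starRingEnd ℂ z = z.re - z.im * I := by
      apply Complex.ext <;> simp
    have e3 : z * starRingEnd ℂ z = n := by rw [Complex.mul_conj]
    ext i j
    simp only [zVal, ballVal, Matrix.add_apply, Matrix.sub_apply, Matrix.smul_apply, smul_eq_mul,
      Fin.sum_univ_three]
    rw [e3, e2]
    have e5 : z * (coef M 1 i j - I * coef M 2 i j) =
      (z.re + z.im * I) * (coef M 1 i j - I * coef M 2 i j) := by rw [← e1]
    rw [e5]
    have e6 : n = z.re ^ 2 + z.im ^ 2 := by rw [hn, Complex.normSq_apply]; ring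
    simp only [hb, Matrix.cons_val_zero, Matrix.cons_val_one,
        Matrix.cons_val_two, Matrix.head_cons, Matrix.tail_cons,
        Fin.succ_zero_eq_one, Fin.succ_one_eq_two]
    have e4 : (Fin.succ 2 : Fin 4) = 3 := rfl
    rw [e4]
    exact scal_id _ _ _ _ _ _ _ hn2
  rw [hz]
  exact (h b hbs).smul (by exact_mod_cast hn1.le)

lemma real_ineq {a0 a1 a2 a3 : ℝ}
    (h : ∀ x y : ℝ, 0 ≤ (a0 + a3) + 2 * (x * a1 + y * a2) + (x ^ 2 + y ^ 2) * (a0 - a3))
    {x y w : ℝ} (hx : x ^ 2 + y ^ 2 + w ^ 2 ≤ 1) : 0 ≤ a0 + x * a1 + y * a2 + w * a3 := by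
  have hP : 0 ≤ a0 + a3 := by simpa using h 0 0
  have hQ : 0 ≤ a0 - a3 := by
    by_contra hc
    push Not at hc
    have h1 := h (Real.sqrt ((a0 + a3 + 1) / (-(a0 - a3)))) 0
    have h2 := h (-(Real.sqrt ((a0 + a3 + 1) / (-(a0 - a3))))) 0
    have h3 : (Real.sqrt ((a0 + a3 + 1) / (-(a0 - a3)))) ^ 2 = (a0 + a3 + 1) / (-(a0 - a3)) := by
      rw [Real.sq_sqrt]
      apply div_nonneg <;> linarith
    have hne : a0 - a3 ≠ 0 := hc.ne
    have h4 : (a0 + a3 + 1) / (-(a0 - a3)) * (a0 - a3) = -(a0 + a3 + 1) := by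
      rw [div_neg, neg_mul, div_mul_cancel₀ _ hne]
    nlinarith
  have hs : a1 ^ 2 + a2 ^ 2 ≤ (a0 + a3) * (a0 - a3) := by
    rcases hQ.eq_or_lt with h0 | h0
    · have h1 : ∀ t : ℝ, 0 ≤ (a0 + a3) - 2 * t * (a1 ^ 2 + a2 ^ 2) := by
        intro t
        have := h (-t * a1) (-t * a2)
        rw [← h0] at this
        nlinarith
      have h2 := h1 ((a0 + a3 + 1) / (a1 ^ 2 + a2 ^ 2))
      rw [← h0]
      by_contra hc
      push Not at hc
      have h3 : 0 < a1 ^ 2 + a2 ^ 2 := by linarith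
      have h4 : 2 * ((a0 + a3 + 1) / (a1 ^ 2 + a2 ^ 2)) * (a1 ^ 2 + a2 ^ 2) =
        2 * (a0 + a3 + 1) := by field_simp
      linarith
    · have := h (-(1 / (a0 - a3)) * a1) (-(1 / (a0 - a3)) * a2)
      have h4 : a0 + a3 + 2 * (-(1 / (a0 - a3)) * a1 * a1 + -(1 / (a0 - a3)) * a2 * a2) +
        ((-(1 / (a0 - a3)) * a1) ^ 2 + (-(1 / (a0 - a3)) * a2) ^ 2) * (a0 - a3) =
        (a0 + a3) - (a1 ^ 2 + a2 ^ 2) / (a0 - a3) := by
        field_simp; ring
      rw [h4] at this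
      have h5 : (a1 ^ 2 + a2 ^ 2) / (a0 - a3) ≤ a0 + a3 := by linarith
      rwa [div_le_iff₀ h0] at h5
  have ha0 : 0 ≤ a0 := by linarith
  have hsq : (x * a1 + y * a2 + w * a3) ^ 2 ≤ a0 ^ 2 := by
    have h1 : (x * a1 + y * a2 + w * a3) ^ 2 ≤ (x ^ 2 + y ^ 2 + w ^ 2) * (a1 ^ 2 + a2 ^ 2 + a3 ^ 2) := by
      nlinarith [sq_nonneg (x * a2 - y * a1), sq_nonneg (x * a3 - w * a1),
        sq_nonneg (y * a3 - w * a2)]
    have h2 : a1 ^ 2 + a2 ^ 2 + a3 ^ 2 ≤ a0 ^ 2 := by nlinarith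
    calc _ ≤ _ := h1
      _ ≤ 1 * (a1 ^ 2 + a2 ^ 2 + a3 ^ 2) := by gcongr
      _ ≤ _ := by linarith
  have := abs_le_of_sq_le_sq' hsq ha0
  linarith [this.1]

lemma zPos_ballPos {r : ℕ} {M : Matrix (Fin r) (Fin r) (Fin 4 → ℂ)} (h : ZPos M) :
    BallPos M := by
  have h0 : (coef M 0).IsHermitian := by
    have h1 := ((h 1).add (h (-1))).1
    have h2 : coef M 0 = (1 / 4 : ℝ) • (zVal M 1 + zVal M (-1)) := by
      ext i j
      simp [zVal]; ring
    rw [h2]
    exact h1.smul (by simp)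
  have h3 : (coef M 3).IsHermitian := by
    have h1 := (h 0).1.sub h0
    have h2 : coef M 3 = zVal M 0 - coef M 0 := by
      simp [zVal]
    rw [h2]; exact h1
  have h1' : (coef M 1).IsHermitian := by
    have h1 := (h 1).1.sub (h (-1)).1
    have h2 : coef M 1 = (1 / 4 : ℝ) • (zVal M 1 - zVal M (-1)) := by
      ext i j
      simp [zVal]; ring
    rw [h2]
    exact h1.smul (by simp)
  have h2' : (coef M 2).IsHermitian := by
    have h1 := (h I).1.sub (h (-I)).1
    have h2 : coef M 2 = (1 / 4 : ℝ) • (zVal M I - zVal M (-I)) := by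
      ext i j
      simp [zVal]; ring_nf; simp
    rw [h2]
    exact h1.smul (by simp)
  intro x hx
  refine PosSemidef.of_dotProduct_mulVec_nonneg ?_ fun v => ?_
  · unfold ballVal
    rw [Fin.sum_univ_three]
    refine h0.add (((h1'.smul ?_).add (h2'.smul ?_)).add (h3.smul ?_)) <;> simp [IsSelfAdjoint]
  · rw [quad_ballVal, ← quad_real h0, ← quad_real h1', ← quad_real h2', ← quad_real h3]
    set a0 := (star v ⬝ᵥ (coef M 0 *ᵥ v)).re with ha0
    set a1 := (star v ⬝ᵥ (coef M 1 *ᵥ v)).re with ha1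
    set a2 := (star v ⬝ᵥ (coef M 2 *ᵥ v)).re with ha2
    set a3 := (star v ⬝ᵥ (coef M 3 *ᵥ v)).re with ha3
    have key : ∀ x y : ℝ, 0 ≤ (a0 + a3) + 2 * (x * a1 + y * a2) + (x ^ 2 + y ^ 2) * (a0 - a3) := by
      intro x y
      have h4 := (h (x + y * I)).dotProduct_mulVec_nonneg v
      rw [quad_zVal, ← quad_real h0, ← quad_real h1', ← quad_real h2', ← quad_real h3,
        ← ha0, ← ha1, ← ha2, ← ha3] at h4
      have h5 : ((a0 : ℂ) + a3) + (x + y * I) * (a1 - I * a2) +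
          starRingEnd ℂ (x + y * I) * (a1 + I * a2) +
          ((x + y * I) * starRingEnd ℂ (x + y * I)) * (a0 - a3) =
          (((a0 + a3) + 2 * (x * a1 + y * a2) + (x ^ 2 + y ^ 2) * (a0 - a3) : ℝ) : ℂ) := by
        simp only [map_add, map_mul, Complex.conj_ofReal, Complex.conj_I]
        push_cast
        ring_nf
        simp only [Complex.I_sq]
        ring
      rw [h5] at h4
      exact_mod_cast h4
    have := real_ineq key (x := x 0) (y := x 1) (w := x 2) (by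
      rw [Fin.sum_univ_three] at hx; exact hx)
    exact_mod_cast this

theorem OPos_iff_zPos {r : ℕ} (M : Matrix (Fin r) (Fin r) (Fin 4 → ℂ)) :
    OPos M ↔ ZPos M :=
  (OPos_iff_ballPos M).trans ⟨ballPos_zPos, zPos_ballPos⟩

lemma ZPos.submatrix {r s : Type} {M : Matrix r r (Fin 4 → ℂ)} (h : ZPos M) (e : s → r) :
    ZPos (M.submatrix e e) := fun z => (h z).submatrix e

theorem Wmin_isMatrixConvex : IsMatrixConvex Wmin where
  hermitian n X hX j := (Wmin_subset_KK n hX).1 j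
  directSum m n X hX Y hY := fun K h1 h2 h3 => h1.directSum m n X (hX K h1 h2 h3) Y (hY K h1 h2 h3)
  compress m n V hV X hX := fun K h1 h2 h3 => h1.compress m n V hV X (hX K h1 h2 h3)

theorem Wmin_isClosed (n : ℕ) : IsClosed (Wmin n) := by
  have : Wmin n = ⋂ (K : MatSeq) (_ : IsMatrixConvex K) (_ : ∀ m, IsClosed (K m))
      (_ : FirstLevelIsBall K), K n := by
    ext X; simp [Wmin]
  rw [this]
  exact isClosed_iInter fun K => isClosed_iInter fun _ => isClosed_iInter fun h =>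
    isClosed_iInter fun _ => h n

theorem Wmin_firstLevel : FirstLevelIsBall Wmin := fun x =>
  ⟨fun h => (KK_level x).1 (Wmin_subset_KK 1 h), fun h => level_mem_Wmin x h⟩

end H93.LP3
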