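import Pool.Agent.H93.LP3.Rep

open Matrix Complex
open scoped ComplexOrder

namespace H93.LP3

section Blocks
variable {p : ℕ} [NeZero p]

abbrev BX (p : ℕ) : Type := ZMod 8 × ZMod p

def blk (A : Matrix (BX p) (BX p) ℂ) (a b : ZMod 8) : Matrix (ZMod p) (ZMod p) ℂ :=
  Matrix.of fun j k => A (a, j) (b, k)

def BM (σ : ZMod 8 → ZMod 8) (w : ZMod 8 → Matrix (ZMod p) (ZMod p) ℂ) :
    Matrix (BX p) (BX p) ℂ :=
  Matrix.of fun x y => if y.1 = σ x.1 then w x.1 x.2 y.2 else 0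

lemma blk_ext {A B : Matrix (BX p) (BX p) ℂ} (h : ∀ a b, blk A a b = blk B a b) : A = B := by
  ext ⟨a, j⟩ ⟨b, k⟩
  exact congrFun (congrFun (h a b) j) k

lemma blk_sub (A B : Matrix (BX p) (BX p) ℂ) (a b : ZMod 8) :
    blk (A - B) a b = blk A a b - blk B a b := rfl

lemma blk_BM (σ : ZMod 8 → ZMod 8) (w : ZMod 8 → Matrix (ZMod p) (ZMod p) ℂ) (a b : ZMod 8) :
    blk (BM σ w) a b = if b = σ a then w a else 0 := by
  ext j k
  change (if b = σ a then w a j k else 0) = _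
  split_ifs <;> rfl

lemma blk_one (a b : ZMod 8) : blk (1 : Matrix (BX p) (BX p) ℂ) a b = if b = a then 1 else 0 := by
  ext j k
  change (1 : Matrix (BX p) (BX p) ℂ) (a, j) (b, k) = _
  by_cases h : b = a
  · subst h
    rw [if_pos rfl]
    by_cases h' : j = k
    · subst h'; simp
    · rw [Matrix.one_apply_ne h', Matrix.one_apply_ne]
      intro hh; exact h' (Prod.ext_iff.1 hh).2
  · rw [if_neg h, Matrix.one_apply_ne]
    · rfl
    · intro hh; exact h (Prod.ext_iff.1 hh).1.symm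

lemma blk_BM_mul (σ : ZMod 8 → ZMod 8) (w : ZMod 8 → Matrix (ZMod p) (ZMod p) ℂ)
    (A : Matrix (BX p) (BX p) ℂ) (a b : ZMod 8) :
    blk (BM σ w * A) a b = w a * blk A (σ a) b := by
  ext j k
  change (BM σ w * A) (a, j) (b, k) = _
  rw [mul_apply, mul_apply, Fintype.sum_prod_type, Finset.sum_eq_single (σ a)]
  · refine Finset.sum_congr rfl fun l _ => ?_
    change (if σ a = σ a then w a j l else 0) * A (σ a, l) (b, k) = _
    rw [if_pos rfl]; rfl
  · intro c _ hc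
    refine Finset.sum_eq_zero fun l _ => ?_
    change (if c = σ a then w a j l else 0) * A (c, l) (b, k) = _
    rw [if_neg hc, zero_mul]
  · simp

lemma blk_mul_BM (σ : ZMod 8 → ZMod 8) (w : ZMod 8 → Matrix (ZMod p) (ZMod p) ℂ)
    (A : Matrix (BX p) (BX p) ℂ) (a b : ZMod 8) :
    blk (A * (BM σ w)ᴴ) a b = blk A a (σ b) * (w b)ᴴ := by
  ext j k
  change (A * (BM σ w)ᴴ) (a, j) (b, k) = _
  rw [mul_apply, mul_apply, Fintype.sum_prod_type, Finset.sum_eq_single (σ b)]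
  · refine Finset.sum_congr rfl fun l _ => ?_
    change A (a, j) (σ b, l) * star (if σ b = σ b then w b k l else 0) = _
    rw [if_pos rfl]; rfl
  · intro c _ hc
    refine Finset.sum_eq_zero fun l _ => ?_
    change A (a, j) (c, l) * star (if c = σ b then w b k l else 0) = _
    rw [if_neg hc, star_zero, mul_zero]
  · simp

lemma blk_conj (σ : ZMod 8 → ZMod 8) (w : ZMod 8 → Matrix (ZMod p) (ZMod p) ℂ)
    (A : Matrix (BX p) (BX p) ℂ) (a b : ZMod 8) :
    blk (BM σ w * A * (BM σ w)ᴴ) a b = w a * blk A (σ a) (σ b) * (w b)ᴴ := by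
  rw [blk_mul_BM, blk_BM_mul]

lemma BM_mul (σ σ' : ZMod 8 → ZMod 8) (w w' : ZMod 8 → Matrix (ZMod p) (ZMod p) ℂ) :
    BM σ w * BM σ' w' = BM (fun a => σ' (σ a)) (fun a => w a * w' (σ a)) := by
  apply blk_ext
  intro a b
  rw [blk_BM_mul, blk_BM, blk_BM]
  split_ifs <;> simp

lemma BM_unit {σ : ZMod 8 → ZMod 8} (hσ : Function.Injective σ)
    {w : ZMod 8 → Matrix (ZMod p) (ZMod p) ℂ} (hw : ∀ a, w a * (w a)ᴴ = 1) :
    BM σ w * (BM σ w)ᴴ = 1 := by
  apply blk_ext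
  intro a b
  rw [blk_mul_BM, blk_BM, blk_one]
  by_cases h : b = a
  · subst h; rw [if_pos rfl, if_pos rfl, hw]
  · rw [if_neg h, if_neg (fun h' => h (hσ h')), Matrix.zero_mul]

lemma hs_blk (A : Matrix (BX p) (BX p) ℂ) : hs A = ∑ a, ∑ b, hs (blk A a b) := by
  unfold hs
  rw [Fintype.sum_prod_type]
  refine Finset.sum_congr rfl fun a _ => ?_
  refine Eq.trans ?_ Finset.sum_comm
  refine Finset.sum_congr rfl fun j _ => ?_
  rw [Fintype.sum_prod_type]
  rfl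

lemma hs_blk_le (A : Matrix (BX p) (BX p) ℂ) (a b : ZMod 8) : hs (blk A a b) ≤ hs A := by
  rw [hs_blk A]
  have h1 : hs (blk A a b) ≤ ∑ b, hs (blk A a b) :=
    Finset.single_le_sum (f := fun b => hs (blk A a b)) (fun _ _ => hs_nonneg _)
      (Finset.mem_univ b)
  exact h1.trans (Finset.single_le_sum (f := fun a => ∑ b, hs (blk A a b))
    (fun _ _ => Finset.sum_nonneg fun _ _ => hs_nonneg _) (Finset.mem_univ a))

end Blocks

section HS
variable {κ : Type} [Fintype κ] [DecidableEq κ]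

lemma hs_add_le (A B : Matrix κ κ ℂ) : hs (A + B) ≤ 2 * hs A + 2 * hs B := by
  unfold hs
  rw [Finset.mul_sum, Finset.mul_sum, ← Finset.sum_add_distrib]
  refine Finset.sum_le_sum fun j _ => ?_
  rw [Finset.mul_sum, Finset.mul_sum, ← Finset.sum_add_distrib]
  refine Finset.sum_le_sum fun k _ => ?_
  rw [Matrix.add_apply]
  have h1 := norm_add_le (A j k) (B j k)
  have h2 := norm_nonneg (A j k + B j k)
  have h3 := norm_nonneg (A j k)
  have h4 := norm_nonneg (B j k)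
  have h5 : ‖A j k + B j k‖ ^ 2 ≤ (‖A j k‖ + ‖B j k‖) ^ 2 := pow_le_pow_left₀ h2 h1 2
  nlinarith [sq_nonneg (‖A j k‖ - ‖B j k‖)]

lemma hs_neg (A : Matrix κ κ ℂ) : hs (-A) = hs A := by
  unfold hs; simp

lemma hs_sub_comm (A B : Matrix κ κ ℂ) : hs (A - B) = hs (B - A) := by
  rw [← hs_neg (A - B), neg_sub]

lemma hs_smul (c : ℂ) (A : Matrix κ κ ℂ) : hs (c • A) = ‖c‖ ^ 2 * hs A := by
  unfold hs
  rw [Finset.mul_sum]
  refine Finset.sum_congr rfl fun j _ => ?_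
  rw [Finset.mul_sum]
  refine Finset.sum_congr rfl fun k _ => ?_
  rw [Matrix.smul_apply, smul_eq_mul, norm_mul, mul_pow]

lemma hs_zero_iff {A : Matrix κ κ ℂ} (h : hs A = 0) : A = 0 := by
  unfold hs at h
  ext j k
  have h1 := (Finset.sum_eq_zero_iff_of_nonneg
    (fun j _ => Finset.sum_nonneg fun k _ => sq_nonneg _)).1 h j (Finset.mem_univ _)
  have h2 := (Finset.sum_eq_zero_iff_of_nonneg (fun k _ => sq_nonneg _)).1 h1 k (Finset.mem_univ _)
  simpa using h2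

lemma hs_conj {U : Matrix κ κ ℂ} (hU : Uᴴ * U = 1) (A : Matrix κ κ ℂ) :
    hs (U * A * Uᴴ) = hs A := by
  rw [hs_eq_re, hs_eq_re]
  have : (U * A * Uᴴ)ᴴ * (U * A * Uᴴ) = U * (Aᴴ * A) * Uᴴ := by
    rw [conjTranspose_mul, conjTranspose_mul, conjTranspose_conjTranspose]
    have : U * (Aᴴ * Uᴴ) * (U * A * Uᴴ) = U * Aᴴ * (Uᴴ * U) * A * Uᴴ := by
      simp only [Matrix.mul_assoc]
    rw [this, hU, Matrix.mul_one]; simp only [Matrix.mul_assoc]
  rw [this, Matrix.trace_mul_comm, ← Matrix.mul_assoc, hU, Matrix.one_mul]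

lemma hs_conj_sq {U A : Matrix κ κ ℂ} (hU : Uᴴ * U = 1) {H : ℝ} (h : hs (A - U * A * Uᴴ) ≤ H) :
    hs (A - (U * U) * A * (U * U)ᴴ) ≤ 4 * H := by
  have e : A - (U * U) * A * (U * U)ᴴ = (A - U * A * Uᴴ) + U * (A - U * A * Uᴴ) * Uᴴ := by
    rw [conjTranspose_mul]
    noncomm_ring
  rw [e]
  refine (hs_add_le _ _).trans ?_
  rw [hs_conj hU]
  linarith

lemma tr_rank {B : Matrix κ κ ℂ} (hB : B.PosSemidef) {N : ℕ} (h : B.rank ≤ N) :
    ‖B.trace‖ ^ 2 ≤ N * hs B := by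
  classical
  obtain ⟨V, hV, hV', hd⟩ := spec B hB.isHermitian
  set lam := hB.isHermitian.eigenvalues with hlam
  have h1 : B.trace = ((∑ i, lam i : ℝ) : ℂ) := by
    rw [hd, Matrix.trace_mul_comm, ← Matrix.mul_assoc, hV, Matrix.one_mul, trace_diagonal]
    push_cast; rfl
  have h2 : hs B = ∑ i, lam i ^ 2 := by
    rw [hs_eq_re, hB.isHermitian.eq]
    have : B * B = V * diagonal (fun i => (lam i : ℂ) * (lam i : ℂ)) * Vᴴ := by
      conv_lhs => rw [hd]
      rw [conj_mul hV]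
    rw [this, Matrix.trace_mul_comm, ← Matrix.mul_assoc, hV, Matrix.one_mul, trace_diagonal,
      Complex.re_sum]
    refine Finset.sum_congr rfl fun i _ => ?_
    rw [← Complex.ofReal_mul, Complex.ofReal_re]; ring
  have h3 : (Finset.univ.filter fun i => lam i ≠ 0).card ≤ N := by
    rw [hB.isHermitian.rank_eq_card_non_zero_eigs, Fintype.card_subtype] at h
    exact h
  have h4 : ∑ i, lam i = ∑ i ∈ Finset.univ.filter (fun i => lam i ≠ 0), lam i := by
    rw [Finset.sum_filter_ne_zero]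
  have h5 : (∑ i ∈ Finset.univ.filter (fun i => lam i ≠ 0), lam i) ^ 2 ≤
      (Finset.univ.filter fun i => lam i ≠ 0).card *
        ∑ i ∈ Finset.univ.filter (fun i => lam i ≠ 0), lam i ^ 2 := sq_sum_le_card_mul_sum_sq
  have h6 : ∑ i ∈ Finset.univ.filter (fun i => lam i ≠ 0), lam i ^ 2 ≤ ∑ i, lam i ^ 2 :=
    Finset.sum_le_sum_of_subset_of_nonneg (Finset.subset_univ _) fun _ _ _ => sq_nonneg _
  have h7 : 0 ≤ ∑ i, lam i ^ 2 := Finset.sum_nonneg fun _ _ => sq_nonneg _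
  rw [h1, Complex.norm_real, Real.norm_eq_abs, sq_abs, h2, h4]
  refine h5.trans ?_
  exact mul_le_mul (by exact_mod_cast h3) h6 (Finset.sum_nonneg fun _ _ => sq_nonneg _)
    (Nat.cast_nonneg _)

end HS

end H93.LP3
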