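import Mathlib

open Matrix Complex
open scoped ComplexOrder MatrixOrder Matrix.Norms.L2Operator

namespace H93.LP3

section
variable {ι : Type} [Fintype ι] [DecidableEq ι]

lemma exists_factor {A : Matrix ι ι ℂ} (h : A.PosSemidef) : ∃ B : Matrix ι ι ℂ, A = Bᴴ * B := by
  obtain ⟨B, hB⟩ := CStarAlgebra.nonneg_iff_eq_star_mul_self.mp h.nonneg
  exact ⟨B, hB⟩

lemma smul_one_eq (C : ℝ) : ((C : ℂ) • (1 : Matrix ι ι ℂ)) =
    algebraMap ℝ (Matrix ι ι ℂ) C := by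
  rw [Algebra.algebraMap_eq_smul_one]
  ext i j
  simp [Matrix.one_apply]

lemma norm_le_of_psd {A : Matrix ι ι ℂ} {C : ℝ} (hC : 0 ≤ C) (h1 : A.PosSemidef)
    (h2 : ((C : ℂ) • (1 : Matrix ι ι ℂ) - A).PosSemidef) : ‖A‖ ≤ C := by
  rw [CStarAlgebra.norm_le_iff_le_algebraMap A hC h1.nonneg, ← smul_one_eq]
  exact h2

lemma psd_norm_sub (A : Matrix ι ι ℂ) (h : A.PosSemidef) :
    (((‖A‖ : ℝ) : ℂ) • (1 : Matrix ι ι ℂ) - A).PosSemidef := by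
  have := (CStarAlgebra.norm_le_iff_le_algebraMap A (norm_nonneg _) h.nonneg).1 le_rfl
  rw [← smul_one_eq] at this
  exact this

lemma norm_sq_eq (A : Matrix ι ι ℂ) : ‖A‖ ^ 2 = ‖Aᴴ * A‖ := by
  rw [l2_opNorm_conjTranspose_mul_self, pow_two]

lemma star_mul_self_eq (x : ℂ) : star x * x = ((‖x‖ ^ 2 : ℝ) : ℂ) := by
  rw [Complex.star_def, ← Complex.normSq_eq_conj_mul_self, Complex.normSq_eq_norm_sq]

lemma hs_le (A : Matrix ι ι ℂ) : ∑ a, ∑ b, ‖A a b‖ ^ 2 ≤ Fintype.card ι * ‖A‖ ^ 2 := by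
  have h1 := psd_norm_sub (Aᴴ * A) (posSemidef_conjTranspose_mul_self A)
  rw [← norm_sq_eq] at h1
  rw [Finset.sum_comm]
  have h2 : ∀ b, ∑ a, ‖A a b‖ ^ 2 ≤ ‖A‖ ^ 2 := by
    intro b
    have h3 := h1.diag_nonneg (i := b)
    simp only [Matrix.sub_apply, Matrix.smul_apply, one_apply_eq, smul_eq_mul, mul_one, mul_apply,
      conjTranspose_apply] at h3
    have h4 : ∑ a, star (A a b) * A a b = ((∑ a, ‖A a b‖ ^ 2 : ℝ) : ℂ) := by
      rw [Complex.ofReal_sum]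
      exact Finset.sum_congr rfl fun a _ => star_mul_self_eq _
    rw [h4, ← Complex.ofReal_sub] at h3
    have h5 : 0 ≤ ‖A‖ ^ 2 - ∑ a, ‖A a b‖ ^ 2 := by exact_mod_cast h3
    linarith
  calc _ ≤ ∑ b : ι, ‖A‖ ^ 2 := Finset.sum_le_sum fun b _ => h2 b
    _ = _ := by simp

lemma exists_sqrt_pair {P : Matrix ι ι ℂ} {δ C : ℝ} (hδ : 0 < δ)
    (h1 : (P - (δ : ℂ) • (1 : Matrix ι ι ℂ)).PosSemidef)
    (h2 : ((C : ℂ) • (1 : Matrix ι ι ℂ) - P).PosSemidef) (hC : 0 ≤ C) :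
    ∃ R S : Matrix ι ι ℂ, Rᴴ = R ∧ Sᴴ = S ∧ S * R = 1 ∧ R * S = 1 ∧ R * R = P ∧
      ‖R‖ ^ 2 ≤ C ∧ ‖S‖ ^ 2 ≤ 1 / δ := by
  have hP0 : P.PosSemidef := by
    have h3 : ((δ : ℂ) • (1 : Matrix ι ι ℂ)).PosSemidef :=
      PosSemidef.one.smul (by exact_mod_cast hδ.le)
    have := h1.add h3
    simpa using this
  have hPd : P.PosDef := by
    have h3 : ((δ : ℂ) • (1 : Matrix ι ι ℂ)).PosDef :=
      PosDef.one.smul (by exact_mod_cast hδ)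
    have := h3.add_posSemidef h1
    simpa using this
  set R : Matrix ι ι ℂ := CFC.sqrt P with hR
  have hR1 : R * R = P := CFC.sqrt_mul_sqrt_self P hP0.nonneg
  have hR2 : Rᴴ = R := ((CFC.sqrt_nonneg P).posSemidef).1
  have hdet : IsUnit R.det := by
    have h4 : R.det * R.det = P.det := by rw [← det_mul, hR1]
    have h5 : P.det ≠ 0 := hPd.det_pos.ne'
    rw [isUnit_iff_ne_zero]
    intro h6
    rw [h6] at h4
    apply h5; rw [← h4]; simp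
  refine ⟨R, R⁻¹, hR2, ?_, nonsing_inv_mul R hdet, mul_nonsing_inv R hdet, hR1, ?_, ?_⟩
  · rw [conjTranspose_nonsing_inv, hR2]
  · rw [norm_sq_eq, hR2, hR1]
    exact norm_le_of_psd hC hP0 h2
  · have h5 : (R⁻¹)ᴴ = R⁻¹ := by rw [conjTranspose_nonsing_inv, hR2]
    rw [norm_sq_eq]
    apply norm_le_of_psd (by positivity) (posSemidef_conjTranspose_mul_self _)
    have h6 := (h1.mul_mul_conjTranspose_same R⁻¹)
    have h7 : R⁻¹ * (P - (δ : ℂ) • 1) * (R⁻¹)ᴴ = 1 - (δ : ℂ) • ((R⁻¹)ᴴ * R⁻¹) := by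
      rw [h5, Matrix.mul_sub, Matrix.sub_mul, ← hR1]
      rw [← Matrix.mul_assoc, nonsing_inv_mul R hdet, Matrix.one_mul, mul_nonsing_inv R hdet]
      simp
    rw [h7] at h6
    have h8 : (((1 / δ : ℝ) : ℂ) • (1 : Matrix ι ι ℂ) - (R⁻¹)ᴴ * R⁻¹) =
        ((1 / δ : ℝ) : ℂ) • (1 - (δ : ℂ) • ((R⁻¹)ᴴ * R⁻¹)) := by
      rw [smul_sub, smul_smul]
      have : ((1 / δ : ℝ) : ℂ) * (δ : ℂ) = 1 := by
        rw [← Complex.ofReal_mul]; field_simp; simp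
      rw [this, one_smul]
    rw [h8]
    exact h6.smul (by exact_mod_cast (by positivity : (0:ℝ) ≤ 1 / δ))

end

end H93.LP3
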