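import Mathlib

open Filter Topology
open scoped ENNReal

namespace H93.LP3

variable {A : ℕ → Type} [∀ k, CStarAlgebra (A k)] [∀ k, Nontrivial (A k)]

/-- bounded sequences `(a_k)`, `a_k ∈ A k`, as a C⋆-algebra -/
noncomputable instance instProdCStar : CStarAlgebra (lp A ∞) where

variable (A) in
/-- the ideal of null sequences -/
def c0 : Ideal (lp A ∞) where
  carrier := {a | Tendsto (fun k => ‖a k‖) atTop (𝓝 0)}
  add_mem' {a b} ha hb := by
    refine squeeze_zero (fun _ => norm_nonneg _) (fun k => ?_)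
      (by simpa using Tendsto.add ha hb)
    exact norm_add_le _ _
  zero_mem' := by
    change Tendsto (fun k => ‖(0 : lp A ∞) k‖) atTop (𝓝 0)
    simp
  smul_mem' c x hx := by
    refine squeeze_zero (fun _ => norm_nonneg _) (fun k => ?_)
      (by simpa using Tendsto.const_mul ‖c‖ hx)
    change ‖c k * x k‖ ≤ _
    exact (norm_mul_le _ _).trans (mul_le_mul_of_nonneg_right (lp.norm_apply_le_norm (by simp) c k)
      (norm_nonneg _))

lemma mem_c0 {a : lp A ∞} : a ∈ c0 A ↔ Tendsto (fun k => ‖a k‖) atTop (𝓝 0) := Iff.rfl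

instance : (c0 A).IsTwoSided where
  mul_mem_of_left {a} b ha := by
    rw [mem_c0] at ha ⊢
    refine squeeze_zero (fun _ => norm_nonneg _) (fun k => ?_)
      (by simpa using Tendsto.mul_const ‖b‖ ha)
    change ‖a k * b k‖ ≤ _
    exact (norm_mul_le _ _).trans (mul_le_mul_of_nonneg_left (lp.norm_apply_le_norm (by simp) b k)
      (norm_nonneg _))

instance c0_closed : IsClosed (c0 A : Set (lp A ∞)) := by
  rw [← closure_subset_iff_isClosed]
  intro a ha
  rw [Metric.mem_closure_iff] at ha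
  change Tendsto (fun k => ‖a k‖) atTop (𝓝 0)
  rw [Metric.tendsto_atTop]
  intro ε hε
  obtain ⟨b, hb, hab⟩ := ha (ε / 2) (by positivity)
  obtain ⟨K, hK⟩ := Metric.tendsto_atTop.1 (mem_c0.1 hb) (ε / 2) (by positivity)
  refine ⟨K, fun k hk => ?_⟩
  have h1 := hK k hk
  rw [Real.dist_eq, sub_zero, abs_norm] at h1 ⊢
  have h2 : ‖(a - b) k‖ ≤ ‖a - b‖ := lp.norm_apply_le_norm (by simp) _ k
  rw [dist_eq_norm] at hab
  have h3 : a k = (a - b) k + b k := by simp
  calc ‖a k‖ = ‖(a - b) k + b k‖ := by rw [← h3]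
    _ ≤ ‖(a - b) k‖ + ‖b k‖ := norm_add_le _ _
    _ < ε := by linarith

variable (A) in
/-- The corona algebra. -/
abbrev Corona := lp A ∞ ⧸ c0 A

noncomputable instance instCoronaRing : NormedRing (Corona A) :=
  { (inferInstance : Ring (Corona A)),
    (Submodule.Quotient.normedAddCommGroup (c0 A) : NormedAddCommGroup (Corona A)) with
    norm_mul_le := fun x y => le_of_forall_pos_le_add fun ε hε => by
      have := ((Metric.nhds_basis_ball.prod_nhds Metric.nhds_basis_ball).tendsto_iff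
        Metric.nhds_basis_ball).mp (continuous_mul.tendsto (‖x‖, ‖y‖)) ε hε
      simp only [Set.mem_prod, Metric.mem_ball, and_imp, Prod.forall, Prod.exists] at this
      rcases this with ⟨ε₁, ε₂, ⟨h₁, h₂⟩, h⟩
      obtain ⟨a, rfl, ha⟩ := Submodule.Quotient.norm_mk_lt x h₁
      obtain ⟨b, rfl, hb⟩ := Submodule.Quotient.norm_mk_lt y h₂
      simp only [dist, abs_sub_lt_iff] at h
      specialize h ‖a‖ ‖b‖ ⟨by linarith, by linarith [Submodule.Quotient.norm_mk_le (c0 A) a]⟩
        ⟨by linarith, by linarith [Submodule.Quotient.norm_mk_le (c0 A) b]⟩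
      calc
        _ ≤ ‖a‖ * ‖b‖ := (Submodule.Quotient.norm_mk_le (c0 A) (a * b)).trans (norm_mul_le a b)
        _ ≤ _ := (sub_lt_iff_lt_add'.mp h.1).le }

lemma star_mem_c0 {a : lp A ∞} (ha : a ∈ c0 A) : star a ∈ c0 A := by
  rw [mem_c0] at ha ⊢
  simpa [lp.star_apply] using ha

noncomputable instance instCoronaStar : StarRing (Corona A) where
  star := Quotient.map' (fun a => star a) (fun a b hab => by
    rw [Submodule.quotientRel_def] at hab ⊢
    have := star_mem_c0 hab
    rwa [star_sub] at this)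
  star_involutive := by
    rintro ⟨a⟩
    exact congrArg (Submodule.Quotient.mk) (star_star a)
  star_mul := by
    rintro ⟨a⟩ ⟨b⟩
    exact congrArg (Submodule.Quotient.mk) (star_mul a b)
  star_add := by
    rintro ⟨a⟩ ⟨b⟩
    exact congrArg (Submodule.Quotient.mk) (star_add a b)

lemma star_mk (a : lp A ∞) : star (Ideal.Quotient.mk (c0 A) a) = Ideal.Quotient.mk (c0 A) (star a) :=
  rfl

noncomputable instance instCoronaNormedAlgebra : NormedAlgebra ℂ (Corona A) :=
  { Submodule.Quotient.normedSpace (c0 A) ℂ, Ideal.Quotient.algebra ℂ with }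

/-- truncation -/
noncomputable def trunc (a : lp A ∞) (K : ℕ) : lp A ∞ :=
  ⟨fun k => if K ≤ k then a k else 0, memℓp_infty ⟨‖a‖, by
    rintro _ ⟨k, rfl⟩
    dsimp only
    split_ifs
    · exact lp.norm_apply_le_norm (by simp) a k
    · simp⟩⟩

lemma trunc_apply (a : lp A ∞) (K k : ℕ) : trunc a K k = if K ≤ k then a k else 0 := rfl

lemma mk_trunc (a : lp A ∞) (K : ℕ) :
    Ideal.Quotient.mk (c0 A) (trunc a K) = Ideal.Quotient.mk (c0 A) a := by
  rw [Ideal.Quotient.eq, mem_c0]
  apply tendsto_const_nhds.congr'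
  filter_upwards [eventually_ge_atTop K] with k hk
  change (0 : ℝ) = ‖(trunc a K) k - a k‖
  rw [trunc_apply, if_pos hk]; simp

lemma norm_mk_le_of_eventually {a : lp A ∞} {C : ℝ} (hC : 0 ≤ C)
    (h : ∀ᶠ k in atTop, ‖a k‖ ≤ C) : ‖Ideal.Quotient.mk (c0 A) a‖ ≤ C := by
  obtain ⟨K, hK⟩ := eventually_atTop.1 h
  rw [← mk_trunc a K]
  refine (Submodule.Quotient.norm_mk_le (c0 A) _).trans ?_
  refine lp.norm_le_of_forall_le hC fun k => ?_
  rw [trunc_apply]
  split_ifs with hk
  · exact hK k hk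
  · simpa using hC

lemma eventually_norm_le (a : lp A ∞) {ε : ℝ} (hε : 0 < ε) :
    ∀ᶠ k in atTop, ‖a k‖ ≤ ‖Ideal.Quotient.mk (c0 A) a‖ + ε := by
  obtain ⟨b, hb, hb2⟩ := Submodule.Quotient.norm_mk_lt (Ideal.Quotient.mk (c0 A) a)
    (half_pos hε)
  have h1 : a - b ∈ c0 A := by
    rw [← Ideal.Quotient.eq]; exact hb.symm
  have h2 := (Metric.tendsto_atTop.1 (mem_c0.1 h1) (ε / 2) (by positivity))
  obtain ⟨K, hK⟩ := h2
  filter_upwards [eventually_ge_atTop K] with k hk
  have h3 := hK k hk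
  rw [Real.dist_eq, sub_zero, abs_norm] at h3
  have h4 : ‖b k‖ ≤ ‖b‖ := lp.norm_apply_le_norm (by simp) _ k
  have h5 : a k = (a - b) k + b k := by simp
  calc ‖a k‖ = ‖(a - b) k + b k‖ := by rw [← h5]
    _ ≤ ‖(a - b) k‖ + ‖b k‖ := norm_add_le _ _
    _ ≤ _ := by linarith

instance instCoronaCStarRing : CStarRing (Corona A) where
  norm_mul_self_le := by
    intro x
    obtain ⟨a, rfl⟩ := Ideal.Quotient.mk_surjective x
    refine le_of_forall_pos_le_add fun ε hε => ?_
    have h1 := eventually_norm_le (star a * a) hε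
    have h2 : ‖Ideal.Quotient.mk (c0 A) a‖ ≤
        Real.sqrt (‖Ideal.Quotient.mk (c0 A) (star a * a)‖ + ε) := by
      refine norm_mk_le_of_eventually (Real.sqrt_nonneg _) ?_
      filter_upwards [h1] with k hk
      apply Real.le_sqrt_of_sq_le
      rw [pow_two, ← CStarRing.norm_star_mul_self]
      exact hk
    calc _ ≤ Real.sqrt (‖Ideal.Quotient.mk (c0 A) (star a * a)‖ + ε) *
          Real.sqrt (‖Ideal.Quotient.mk (c0 A) (star a * a)‖ + ε) :=
          mul_le_mul h2 h2 (norm_nonneg _) (Real.sqrt_nonneg _)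
      _ = ‖Ideal.Quotient.mk (c0 A) (star a * a)‖ + ε := Real.mul_self_sqrt (by positivity)
      _ = _ := by rw [map_mul, star_mk]

instance instCoronaComplete : CompleteSpace (Corona A) :=
  Submodule.Quotient.completeSpace (c0 A)

instance instCoronaStarModule : StarModule ℂ (Corona A) where
  star_smul := by
    rintro r ⟨a⟩
    exact congrArg (Submodule.Quotient.mk) (star_smul r a)

noncomputable instance instCorona : CStarAlgebra (Corona A) where

variable (A) in
/-- The quotient map. -/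
noncomputable def quo : lp A ∞ →⋆ₐ[ℂ] Corona A :=
  { Ideal.Quotient.mkₐ ℂ (c0 A) with
    map_star' := fun _ => rfl }

lemma quo_surj : Function.Surjective (quo A) := Ideal.Quotient.mk_surjective

lemma quo_eq_iff {a b : lp A ∞} : quo A a = quo A b ↔
    Tendsto (fun k => ‖a k - b k‖) atTop (𝓝 0) := by
  change Ideal.Quotient.mk (c0 A) a = Ideal.Quotient.mk (c0 A) b ↔ _
  rw [Ideal.Quotient.eq, mem_c0]
  rfl

end H93.LP3
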