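import Pool.Agent.H93.LP3.Level1
import Pool.Agent.H93.LP3.Quot
import Pool.Agent.H93.LP3.MatAux

open Matrix Complex Filter Topology
open scoped ComplexOrder MatrixOrder Matrix.Norms.L2Operator ENNReal

namespace H93.LP3

/-- basis vector of the operator system -/
noncomputable abbrev eb (j : Fin 4) : Fin 4 → ℂ := Pi.single j 1

section
variable {ι : Type} [Fintype ι] [DecidableEq ι]

lemma quad_le (D : Matrix ι ι ℂ) (x : ι → ℂ) :
    ‖star x ⬝ᵥ (D *ᵥ x)‖ ≤ ‖D‖ * ∑ a, ‖x a‖ ^ 2 := by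
  set X : EuclideanSpace ℂ ι := WithLp.toLp 2 x with hX
  have h1 : star x ⬝ᵥ (D *ᵥ x) = inner ℂ X (WithLp.toLp 2 (D *ᵥ x)) := by
    rw [EuclideanSpace.inner_eq_star_dotProduct, dotProduct_comm]
  rw [h1]
  refine (norm_inner_le_norm _ _).trans ?_
  have h2 : ‖(WithLp.toLp 2 (D *ᵥ x) : EuclideanSpace ℂ ι)‖ ≤ ‖D‖ * ‖X‖ := l2_opNorm_mulVec D X
  have h3 : ‖X‖ ^ 2 = ∑ a, ‖x a‖ ^ 2 := EuclideanSpace.norm_sq_eq X
  calc _ ≤ ‖X‖ * (‖D‖ * ‖X‖) := by gcongr
    _ = ‖D‖ * ‖X‖ ^ 2 := by ring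
    _ = _ := by rw [h3]

lemma pair_le (A D : Matrix ι ι ℂ) (hA : A.PosSemidef) :
    ‖∑ a, ∑ b, A a b * D a b‖ ≤ ‖D‖ * ∑ a, (A a a).re := by
  obtain ⟨B, rfl⟩ := exists_factor hA
  have h1 : ∑ a, ∑ b, (Bᴴ * B) a b * D a b = ∑ m, star (B m) ⬝ᵥ (D *ᵥ (B m)) := by
    simp only [mul_apply, conjTranspose_apply, dotProduct, mulVec, Finset.sum_mul, Finset.mul_sum,
      Pi.star_apply]
    calc _ = ∑ a, ∑ m, ∑ b, star (B m a) * B m b * D a b :=
          Finset.sum_congr rfl fun a _ => Finset.sum_comm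
      _ = ∑ m, ∑ a, ∑ b, star (B m a) * B m b * D a b := Finset.sum_comm
      _ = _ := by
          refine Finset.sum_congr rfl fun m _ => Finset.sum_congr rfl fun a _ =>
            Finset.sum_congr rfl fun b _ => ?_
          ring
  have h2 : ∑ a, ((Bᴴ * B) a a).re = ∑ m, ∑ a, ‖B m a‖ ^ 2 := by
    rw [Finset.sum_comm]
    refine Finset.sum_congr rfl fun a _ => ?_
    rw [mul_apply, Complex.re_sum]
    refine Finset.sum_congr rfl fun m _ => ?_
    rw [conjTranspose_apply, star_mul_self_eq, Complex.ofReal_re]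
  rw [h1, h2, Finset.mul_sum]
  exact (norm_sum_le _ _).trans (Finset.sum_le_sum fun m _ => quad_le D (B m))

lemma zPos_coef {F : Matrix ι ι (Fin 4 → ℂ)} (hF : ZPos F) :
    (coef F 0).PosSemidef ∧ ∀ j : Fin 3, (coef F 0 + coef F j.succ).PosSemidef ∧
      (coef F 0 - coef F j.succ).PosSemidef := by
  set e : Fin (Fintype.card ι) ≃ ι := (Fintype.equivFin ι).symm with he
  have hb : BallPos (F.submatrix e e) := zPos_ballPos (hF.submatrix e)
  refine ⟨?_, fun j => ⟨?_, ?_⟩⟩
  · have := hb 0 (by simp)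
    rw [← posSemidef_submatrix_equiv e]
    convert this using 1
    ext a b
    simp [ballVal, coef]
  · have := hb (Pi.single j 1) (by rw [Finset.sum_eq_single j] <;> simp +contextual)
    rw [← posSemidef_submatrix_equiv e]
    convert this using 1
    unfold ballVal
    rw [Finset.sum_eq_single j]
    · ext a b; simp [coef]
    · intro i _ hi
      simp [hi]
    · simp
  · have := hb (-Pi.single j 1) (by rw [Finset.sum_eq_single j] <;> simp +contextual)
    rw [← posSemidef_submatrix_equiv e]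
    convert this using 1
    unfold ballVal
    rw [Finset.sum_eq_single j]
    · ext a b; simp [coef, sub_eq_add_neg]
    · intro i _ hi
      simp [hi]
    · simp

lemma witness_bound {F : Matrix ι ι (Fin 4 → ℂ)} (hF : ZPos F) (D : Matrix ι ι ℂ) (j : Fin 4) :
    ‖∑ a, ∑ b, F a b j * D a b‖ ≤ ‖D‖ * ∑ a, (F a a 0).re := by
  obtain ⟨h0, h1⟩ := zPos_coef hF
  refine Fin.cases ?_ (fun j => ?_) j
  · exact pair_le (coef F 0) D h0
  · obtain ⟨hp, hm⟩ := h1 j
    have e1 : ∑ a, ∑ b, F a b j.succ * D a b =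
        (1 / 2 : ℂ) * (∑ a, ∑ b, (coef F 0 + coef F j.succ) a b * D a b -
          ∑ a, ∑ b, (coef F 0 - coef F j.succ) a b * D a b) := by
      rw [← Finset.sum_sub_distrib]
      simp only [← Finset.sum_sub_distrib, Finset.mul_sum]
      refine Finset.sum_congr rfl fun a _ => Finset.sum_congr rfl fun b _ => ?_
      simp only [coef, Matrix.add_apply, Matrix.sub_apply, Matrix.map_apply]
      ring
    rw [e1, norm_mul]
    have e2 := pair_le _ D hp
    have e3 := pair_le _ D hm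
    have e4 : ∑ a, ((coef F 0 + coef F j.succ) a a).re +
        ∑ a, ((coef F 0 - coef F j.succ) a a).re = 2 * ∑ a, (F a a 0).re := by
      rw [← Finset.sum_add_distrib, Finset.mul_sum]
      refine Finset.sum_congr rfl fun a _ => ?_
      simp [coef]
      ring
    have e7 : ‖D‖ * ∑ a, ((coef F 0 + coef F j.succ) a a).re +
        ‖D‖ * ∑ a, ((coef F 0 - coef F j.succ) a a).re = 2 * (‖D‖ * ∑ a, (F a a 0).re) := by
      rw [← mul_add, e4]; ring
    have e5 := norm_sub_le (∑ a, ∑ b, (coef F 0 + coef F j.succ) a b * D a b)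
      (∑ a, ∑ b, (coef F 0 - coef F j.succ) a b * D a b)
    have e6 : ‖(1 / 2 : ℂ)‖ = 1 / 2 := by norm_num
    rw [e6]
    linarith

end

section
variable {ι : ℕ → Type} [∀ k, Fintype (ι k)] [∀ k, DecidableEq (ι k)] [∀ k, Nonempty (ι k)]

/-- bounded sequence of matrices as an element of the product algebra -/
noncomputable def mkSeq (f : ∀ k, Matrix (ι k) (ι k) ℂ) (C : ℝ) (h : ∀ k, ‖f k‖ ≤ C) :
    lp (fun k => Matrix (ι k) (ι k) ℂ) ∞ :=
  ⟨f, memℓp_infty ⟨C, by rintro _ ⟨k, rfl⟩; exact h k⟩⟩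

lemma mkSeq_apply (f : ∀ k, Matrix (ι k) (ι k) ℂ) (C : ℝ) (h : ∀ k, ‖f k‖ ≤ C) (k : ℕ) :
    mkSeq f C h k = f k := rfl

lemma lin_expand {V : Type*} [AddCommGroup V] [Module ℂ V] (φ : (Fin 4 → ℂ) →ₗ[ℂ] V)
    (s : Fin 4 → ℂ) : φ s = ∑ j, s j • φ (eb j) := by
  conv_lhs => rw [← Finset.univ_sum_single s]
  rw [map_sum]
  refine Finset.sum_congr rfl fun j _ => ?_
  rw [← map_smul]
  congr 1
  ext i
  by_cases h : i = j
  · subst h; simp
  · simp [h]

/-- one-by-one test elements -/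
noncomputable def test1 (j : Fin 4) (σ : ℂ) : Matrix (Fin 1) (Fin 1) (Fin 4 → ℂ) :=
  Matrix.of fun _ _ => eb 0 + σ • eb j

lemma ballPos_test (j : Fin 3) (σ : ℝ) (hσ : |σ| ≤ 1) : BallPos (test1 j.succ (σ : ℂ)) := by
  intro x hx
  have hval : ballVal (test1 j.succ (σ : ℂ)) x = Matrix.of fun _ _ => ((1 + σ * x j : ℝ) : ℂ) := by
    ext a b
    simp only [ballVal, test1, coef, Matrix.add_apply, Matrix.map_apply, Matrix.of_apply,
      Matrix.sum_apply, Matrix.smul_apply, Pi.add_apply, Pi.smul_apply, smul_eq_mul, eb,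
      Pi.single_apply]
    rw [Finset.sum_eq_single j]
    · simp [Fin.succ_ne_zero, (Fin.succ_ne_zero _).symm]
      ring
    · intro i _ hi
      simp [Fin.succ_ne_zero, hi]
    · simp
  rw [hval]
  have hxj : |x j| ≤ 1 := by
    rw [abs_le_one_iff_mul_self_le_one]
    have := Finset.single_le_sum (f := fun i => x i ^ 2) (fun i _ => sq_nonneg _)
      (Finset.mem_univ j)
    nlinarith
  have hnn : 0 ≤ 1 + σ * x j := by
    have h1 : |σ * x j| ≤ 1 := by
      rw [abs_mul]
      exact mul_le_one₀ hσ (abs_nonneg _) hxj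
    linarith [(abs_le.1 h1).1]
  have : (Matrix.of fun _ _ => ((1 + σ * x j : ℝ) : ℂ) : Matrix (Fin 1) (Fin 1) ℂ) =
      Matrix.diagonal fun _ => ((1 + σ * x j : ℝ) : ℂ) := by
    ext a b
    have : a = b := Subsingleton.elim _ _
    subst this; simp
  rw [this]
  apply PosSemidef.diagonal
  intro i
  simp only [Pi.zero_apply]
  exact_mod_cast hnn

lemma sum4 {α β γ κ : Type*} [Fintype α] [Fintype β] [Fintype γ] [Fintype κ]
    (f : α → β → γ → κ → ℂ) :
    ∑ i, ∑ i', ∑ l, ∑ m, f i i' l m = ∑ l, ∑ m, ∑ i, ∑ i', f i i' l m := by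
  calc _ = ∑ i, ∑ l, ∑ m, ∑ i', f i i' l m := by
        refine Finset.sum_congr rfl fun i _ => ?_
        rw [Finset.sum_comm]
        refine Finset.sum_congr rfl fun l _ => ?_
        rw [Finset.sum_comm]
    _ = ∑ l, ∑ i, ∑ m, ∑ i', f i i' l m := Finset.sum_comm
    _ = _ := Finset.sum_congr rfl fun l _ => Finset.sum_comm

lemma pairing_nonneg (ψ : (Fin 4 → ℂ) →ₗ[ℂ] lp (fun k => Matrix (ι k) (ι k) ℂ) ∞)
    (hψ : IsUCP ψ) (k : ℕ) (R : Matrix (ι k) (ι k) ℂ) (hR : Rᴴ = R)
    (F : Matrix (ι k) (ι k) (Fin 4 → ℂ)) (hF : ZPos F) :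
    0 ≤ (∑ a, ∑ b, (R * (ψ (F a b)) k * R) a b).re := by
  set e : Fin (Fintype.card (ι k)) ≃ ι k := (Fintype.equivFin (ι k)).symm with he
  obtain ⟨Y, hY⟩ := hψ.cp _ (F.submatrix e e) ((OPos_iff_zPos _).2 (hF.submatrix e))
  have h1 : ∀ i i', (ψ (F (e i) (e i'))) k = ∑ l, ((Y l i) k)ᴴ * (Y l i') k := by
    intro i i'
    have := congrFun (congrFun hY i) i'
    simp only [Matrix.map_apply, submatrix_apply, mul_apply, conjTranspose_apply] at this
    rw [this, lp.coeFn_sum, Finset.sum_apply]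
    rfl
  have h2 : ∀ i i', (R * (ψ (F (e i) (e i'))) k * R) (e i) (e i') =
      ∑ l, ∑ m, star (((Y l i) k * R) m (e i)) * ((Y l i') k * R) m (e i') := by
    intro i i'
    rw [h1, Matrix.mul_sum, Matrix.sum_mul, Matrix.sum_apply]
    refine Finset.sum_congr rfl fun l _ => ?_
    have : R * (((Y l i) k)ᴴ * (Y l i') k) * R = ((Y l i) k * R)ᴴ * ((Y l i') k * R) := by
      rw [conjTranspose_mul, hR]; simp only [Matrix.mul_assoc]
    rw [this, mul_apply]
    rfl
  have h3 : ∑ a, ∑ b, (R * (ψ (F a b)) k * R) a b =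
      ∑ l, ∑ m, star (∑ i, ((Y l i) k * R) m (e i)) * (∑ i, ((Y l i) k * R) m (e i)) := by
    rw [← Equiv.sum_comp e]
    have h4 : ∀ i, ∑ b, (R * (ψ (F (e i) b)) k * R) (e i) b =
        ∑ i', (R * (ψ (F (e i) (e i'))) k * R) (e i) (e i') :=
      fun i => (Equiv.sum_comp e _).symm
    simp_rw [h4, h2, star_sum, Finset.sum_mul_sum]
    exact sum4 (fun i i' l m => star (((Y l i) k * R) m (e i)) * ((Y l i') k * R) m (e i'))
  rw [h3, Complex.re_sum]
  refine Finset.sum_nonneg fun l _ => ?_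
  rw [Complex.re_sum]
  refine Finset.sum_nonneg fun m _ => ?_
  rw [star_mul_self_eq, Complex.ofReal_re]
  positivity

/-- The matrix-level criterion for failure of the lifting property. -/
theorem criterion
    (φ : ∀ k, (Fin 4 → ℂ) →ₗ[ℂ] Matrix (ι k) (ι k) ℂ) (δ C C' c : ℝ) (hδ : 0 < δ) (hc : 0 < c)
    (hC : 0 ≤ C) (hC' : 0 < C')
    (h1 : ∀ k, (φ k (eb 0) - (δ : ℂ) • 1).PosSemidef)
    (h2 : ∀ k, ((C : ℂ) • 1 - φ k (eb 0)).PosSemidef)
    (h3 : ∀ k, ∀ M : Matrix (Fin 1) (Fin 1) (Fin 4 → ℂ), ZPos M → (φ k (M 0 0)).PosSemidef)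
    (h4 : ∀ N : ℕ, ∀ᶠ k in atTop, ∀ M : Matrix (Fin N) (Fin N) (Fin 4 → ℂ), ZPos M →
      (Matrix.of fun (a b : Fin N × ι k) => φ k (M a.1 b.1) a.2 b.2).PosSemidef)
    (h5 : ∀ᶠ k in atTop, ∃ F : Matrix (ι k) (ι k) (Fin 4 → ℂ), ZPos F ∧
      (∀ a, (F a a 0).re ≤ C') ∧
      (∑ a, ∑ b, φ k (F a b) a b).re ≤ - c * Fintype.card (ι k)) :
    ¬ HasLiftingProperty := by
  intro hLP
  have hP : ∀ k, ∃ R S : Matrix (ι k) (ι k) ℂ, Rᴴ = R ∧ Sᴴ = S ∧ S * R = 1 ∧ R * S = 1 ∧
      R * R = φ k (eb 0) ∧ ‖R‖ ^ 2 ≤ C ∧ ‖S‖ ^ 2 ≤ 1 / δ := fun k =>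
    exists_sqrt_pair hδ (h1 k) (h2 k) hC
  choose R S hR hS hSR hRS hRR hRn hSn using hP
  -- norm bounds
  have hφ0 : ∀ k, (φ k (eb 0)).PosSemidef := by
    intro k
    have h : ((δ : ℂ) • (1 : Matrix (ι k) (ι k) ℂ)).PosSemidef :=
      PosSemidef.one.smul (by exact_mod_cast hδ.le)
    simpa using (h1 k).add h
  have hb0 : ∀ k, ‖φ k (eb 0)‖ ≤ C := fun k => norm_le_of_psd hC (hφ0 k) (h2 k)
  have hb : ∀ k j, ‖φ k (eb j)‖ ≤ 3 * C := by
    intro k j
    refine Fin.cases ?_ (fun j => ?_) j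
    · linarith [hb0 k]
    · have e1 := h3 k _ (ballPos_zPos (ballPos_test j 1 (by simp)))
      have e2 := h3 k _ (ballPos_zPos (ballPos_test j (-1) (by simp)))
      simp only [test1, Matrix.of_apply, map_add, map_smul] at e1 e2
      have e3 : ‖φ k (eb 0) + φ k (eb j.succ)‖ ≤ 2 * C := by
        apply norm_le_of_psd (by linarith)
        · simpa using e1
        · have e4 := ((h2 k).add (h2 k)).add e2
          have e5 : ((C : ℂ) • 1 - φ k (eb 0) + ((C : ℂ) • 1 - φ k (eb 0)) +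
            (φ k (eb 0) + ((-1 : ℝ) : ℂ) • φ k (eb j.succ))) =
            (((2 * C : ℝ) : ℂ) • (1 : Matrix (ι k) (ι k) ℂ) -
              (φ k (eb 0) + φ k (eb j.succ))) := by
            ext a b
            simp
            ring
          rw [e5] at e4
          exact e4
      have e6 : φ k (eb j.succ) = (φ k (eb 0) + φ k (eb j.succ)) - φ k (eb 0) := by abel
      calc ‖φ k (eb j.succ)‖ = ‖(φ k (eb 0) + φ k (eb j.succ)) - φ k (eb 0)‖ := by rw [← e6]
        _ ≤ _ := norm_sub_le _ _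
        _ ≤ 3 * C := by linarith [hb0 k]
  have hRb : ∀ k, ‖R k‖ ≤ Real.sqrt C := fun k => Real.le_sqrt_of_sq_le (hRn k)
  have hSb : ∀ k, ‖S k‖ ≤ Real.sqrt (1 / δ) := fun k => Real.le_sqrt_of_sq_le (hSn k)
  set E : Fin 4 → lp (fun k => Matrix (ι k) (ι k) ℂ) ∞ := fun j =>
    mkSeq (fun k => φ k (eb j)) (3 * C) (fun k => hb k j) with hE
  set S0 : lp (fun k => Matrix (ι k) (ι k) ℂ) ∞ := mkSeq S _ hSb with hS0
  have hS0s : star S0 = S0 := by
    ext1; funext k
    exact hS k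
  -- the linear map into the quotient
  set Q := quo (fun k => Matrix (ι k) (ι k) ℂ) with hQ
  set Φ : (Fin 4 → ℂ) →ₗ[ℂ] lp (fun k => Matrix (ι k) (ι k) ℂ) ∞ :=
    ∑ j, (LinearMap.proj j : (Fin 4 → ℂ) →ₗ[ℂ] ℂ).smulRight (E j) with hΦ
  have hΦk : ∀ s k, (Φ s) k = φ k s := by
    intro s k
    rw [lin_expand (φ k) s, hΦ]
    simp only [LinearMap.sum_apply, LinearMap.smulRight_apply, LinearMap.proj_apply]
    rw [lp.coeFn_sum, Finset.sum_apply]
    rfl
  set φ' : (Fin 4 → ℂ) →ₗ[ℂ] Corona (fun k => Matrix (ι k) (ι k) ℂ) :=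
    { toFun := fun s => Q (S0 * Φ s * S0)
      map_add' := fun s t => by simp only [map_add, mul_add, add_mul]
      map_smul' := fun r s => by
        simp only [map_smul, mul_smul_comm, smul_mul_assoc, RingHom.id_apply] } with hφ'
  have hUCP : IsUCP φ' := by
    constructor
    · change Q (S0 * Φ (Pi.single 0 1) * S0) = 1
      have : S0 * Φ (Pi.single 0 1) * S0 = 1 := by
        ext1; funext k
        change S k * (Φ (eb 0)) k * S k = 1
        rw [hΦk, ← hRR k, ← Matrix.mul_assoc, hSR k, Matrix.one_mul, hRS k]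
      rw [this, map_one]
    · intro N M hM
      have hMz : ZPos M := (OPos_iff_zPos M).1 hM
      have hbs : ∀ k s, ‖φ k s‖ ≤ (∑ j, ‖s j‖) * (3 * C) := by
        intro k s
        rw [lin_expand (φ k) s, Finset.sum_mul]
        refine (norm_sum_le _ _).trans (Finset.sum_le_sum fun j _ => ?_)
        rw [norm_smul]
        exact mul_le_mul_of_nonneg_left (hb k j) (norm_nonneg _)
      set T : ∀ k, Matrix (Fin N × ι k) (Fin N × ι k) ℂ := fun k =>
        Matrix.of fun (a b : Fin N × ι k) => φ k (M a.1 b.1) a.2 b.2 with hT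
      have hev : ∀ᶠ k in atTop, (T k).PosSemidef := by
        filter_upwards [h4 N] with k hk using hk M hMz
      have hfac : ∀ k, ∃ Y : Matrix (Fin N × ι k) (Fin N × ι k) ℂ,
          ((T k).PosSemidef → T k = Yᴴ * Y) ∧ (¬ (T k).PosSemidef → Y = 0) := by
        intro k
        by_cases h : (T k).PosSemidef
        · obtain ⟨B, hB⟩ := exists_factor h
          exact ⟨B, fun _ => hB, fun h' => absurd h h'⟩
        · exact ⟨0, fun h' => absurd h' h, fun _ => rfl⟩
      choose Y hY1 hY2 using hfac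
      set y : Fin N → Fin N → ∀ k, Matrix (ι k) (ι k) ℂ := fun l j k =>
        Matrix.of fun a b => Y k (l, a) (j, b) with hy
      have hsum : ∀ k, (T k).PosSemidef → ∀ i j, ∑ l, (y l i k)ᴴ * y l j k = φ k (M i j) := by
        intro k hk i j
        ext a b
        have := congrFun (congrFun (hY1 k hk) (i, a)) (j, b)
        simp only [hT, Matrix.of_apply, mul_apply, conjTranspose_apply,
          Fintype.sum_prod_type] at this
        rw [this]
        simp [Matrix.sum_apply, mul_apply, conjTranspose_apply, hy]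
      set B : ℝ := ∑ j : Fin N, (∑ i, ‖M j j i‖) * (3 * C) with hB
      have hyb : ∀ l j k, ‖y l j k‖ ≤ Real.sqrt B := by
        intro l j k
        apply Real.le_sqrt_of_sq_le
        by_cases h : (T k).PosSemidef
        · rw [norm_sq_eq]
          have e1 : ‖(y l j k)ᴴ * y l j k‖ ≤ ‖φ k (M j j)‖ := by
            rw [← hsum k h j j]
            apply CStarAlgebra.norm_le_norm_of_nonneg_of_le
            · exact (posSemidef_conjTranspose_mul_self _).nonneg
            · exact Finset.single_le_sum (f := fun l => (y l j k)ᴴ * y l j k)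
                (fun l _ => (posSemidef_conjTranspose_mul_self _).nonneg) (Finset.mem_univ l)
          refine e1.trans ((hbs k _).trans ?_)
          exact Finset.single_le_sum (f := fun j => (∑ i, ‖M j j i‖) * (3 * C))
            (fun j _ => by positivity) (Finset.mem_univ j)
        · have : y l j k = 0 := by
            ext a b
            simp [hy, hY2 k h]
          rw [this]
          simp only [norm_zero]
          have : 0 ≤ B := Finset.sum_nonneg fun j _ => by positivity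
          simpa using this
      set Yc : Fin N → Fin N → lp (fun k => Matrix (ι k) (ι k) ℂ) ∞ := fun l j =>
        mkSeq (y l j) _ (hyb l j) with hYc
      refine ⟨Matrix.of fun l j => Q (Yc l j * S0), ?_⟩
      ext i j
      rw [mul_apply]
      simp only [conjTranspose_apply, Matrix.of_apply, Matrix.map_apply]
      change Q (S0 * Φ (M i j) * S0) = _
      simp only [← map_star, ← map_mul, ← map_sum]
      rw [hQ, quo_eq_iff]
      apply tendsto_const_nhds.congr'
      filter_upwards [hev] with k hk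
      have e1 : (S0 * Φ (M i j) * S0) k = S k * φ k (M i j) * S k := by
        change S k * (Φ (M i j)) k * S k = _
        rw [hΦk]
      have e2 : (∑ l, star (Yc l i * S0) * (Yc l j * S0)) k = S k * φ k (M i j) * S k := by
        rw [lp.coeFn_sum, Finset.sum_apply, ← hsum k hk i j, Matrix.mul_sum, Matrix.sum_mul]
        refine Finset.sum_congr rfl fun l _ => ?_
        change (y l i k * S k)ᴴ * (y l j k * S k) = _
        rw [conjTranspose_mul, hS k]
        simp only [Matrix.mul_assoc]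
      rw [e1, e2, sub_self, norm_zero]
  obtain ⟨ψ, hψ, hψφ⟩ := hLP _ _ Q quo_surj φ' hUCP
  have hdiff : ∀ j, Tendsto (fun k => ‖(ψ (eb j)) k - S k * φ k (eb j) * S k‖) atTop (𝓝 0) := by
    intro j
    have := hψφ (eb j)
    change Q (ψ (eb j)) = Q (S0 * Φ (eb j) * S0) at this
    rw [hQ, quo_eq_iff] at this
    refine this.congr fun k => ?_
    congr 2
    change S k * (Φ (eb j)) k * S k = _
    rw [hΦk]
  have hθ : ∀ j, Tendsto (fun k => ‖R k * (ψ (eb j)) k * R k - φ k (eb j)‖) atTop (𝓝 0) := by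
    intro j
    refine squeeze_zero (fun _ => norm_nonneg _) (fun k => ?_)
      (by simpa using (hdiff j).const_mul C)
    have e : R k * (ψ (eb j)) k * R k - φ k (eb j) =
        R k * ((ψ (eb j)) k - S k * φ k (eb j) * S k) * R k := by
      rw [mul_sub, sub_mul]
      congr 1
      calc φ k (eb j) = (R k * S k) * φ k (eb j) * (S k * R k) := by rw [hRS, hSR]; simp
        _ = _ := by simp only [Matrix.mul_assoc]
    rw [e]
    calc _ ≤ ‖R k‖ * ‖(ψ (eb j)) k - S k * φ k (eb j) * S k‖ * ‖R k‖ :=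
          (norm_mul_le _ _).trans (mul_le_mul_of_nonneg_right (norm_mul_le _ _) (norm_nonneg _))
      _ = ‖R k‖ ^ 2 * ‖(ψ (eb j)) k - S k * φ k (eb j) * S k‖ := by ring
      _ ≤ C * ‖(ψ (eb j)) k - S k * φ k (eb j) * S k‖ := by
          gcongr; exact hRn k
  set η : ℝ := c / (8 * C') with hη
  have hηpos : 0 < η := by positivity
  have hsmall : ∀ᶠ k in atTop, ∀ j, ‖R k * (ψ (eb j)) k * R k - φ k (eb j)‖ < η := by
    rw [eventually_all]
    intro j
    exact (hθ j).eventually (gt_mem_nhds hηpos)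
  obtain ⟨k, ⟨F, hF, hF1, hF2⟩, hk⟩ := (h5.and hsmall).exists
  set n := Fintype.card (ι k) with hn
  have hn0 : (0 : ℝ) < n := by exact_mod_cast Fintype.card_pos
  have hpos : 0 ≤ (∑ a, ∑ b, (R k * (ψ (F a b)) k * R k) a b).re :=
    pairing_nonneg ψ hψ k (R k) (hR k) F hF
  have hexp : ∑ a, ∑ b, (R k * (ψ (F a b)) k * R k) a b - ∑ a, ∑ b, φ k (F a b) a b =
      ∑ j, ∑ a, ∑ b, F a b j * (R k * (ψ (eb j)) k * R k - φ k (eb j)) a b := by
    have e1 : ∀ a b, (R k * (ψ (F a b)) k * R k) a b - φ k (F a b) a b =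
        ∑ j, F a b j * (R k * (ψ (eb j)) k * R k - φ k (eb j)) a b := by
      intro a b
      rw [lin_expand (φ k) (F a b), lin_expand ψ (F a b), lp.coeFn_sum, Finset.sum_apply]
      simp only [Matrix.mul_sum, Matrix.sum_mul, Matrix.sum_apply, Matrix.smul_apply, smul_eq_mul,
        Matrix.sub_apply, mul_sub, Finset.sum_sub_distrib]
      congr 1
      refine Finset.sum_congr rfl fun j _ => ?_
      change (R k * (F a b j • (ψ (eb j)) k) * R k) a b = _
      rw [Matrix.mul_smul, Matrix.smul_mul, Matrix.smul_apply, smul_eq_mul]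
    rw [← Finset.sum_sub_distrib]
    simp only [← Finset.sum_sub_distrib, e1]
    rw [Finset.sum_congr rfl fun a _ => Finset.sum_comm, Finset.sum_comm]
  have hbd : ‖∑ j, ∑ a, ∑ b, F a b j * (R k * (ψ (eb j)) k * R k - φ k (eb j)) a b‖ ≤
      4 * (η * (C' * n)) := by
    have e1 : ∀ j : Fin 4, ‖∑ a, ∑ b, F a b j * (R k * (ψ (eb j)) k * R k - φ k (eb j)) a b‖ ≤
        η * (C' * n) := by
      intro j
      refine (witness_bound hF _ j).trans ?_
      have e2 : ∑ a, (F a a 0).re ≤ C' * n := by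
        calc _ ≤ ∑ a : ι k, C' := Finset.sum_le_sum fun a _ => hF1 a
          _ = _ := by simp [hn, mul_comm]
      have e3 : 0 ≤ ∑ a, (F a a 0).re := by
        refine Finset.sum_nonneg fun a _ => ?_
        have := (zPos_coef hF).1.diag_nonneg (i := a)
        exact (Complex.nonneg_iff.1 this).1
      exact mul_le_mul (hk j).le e2 e3 hηpos.le
    refine (norm_sum_le _ _).trans ((Finset.sum_le_sum fun j _ => e1 j).trans ?_)
    simp
  have hre : (∑ a, ∑ b, (R k * (ψ (F a b)) k * R k) a b).re ≤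
      - c * n + 4 * (η * (C' * n)) := by
    have e1 := congrArg Complex.re hexp
    rw [Complex.sub_re] at e1
    have e2 := (Complex.abs_re_le_norm _).trans hbd
    have e3 := (abs_le.1 e2).2
    linarith
  have hfin : 4 * (η * (C' * n)) = c / 2 * n := by
    rw [hη]; field_simp; ring
  rw [hfin] at hre
  nlinarith

end

end H93.LP3
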