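import Mathlib

open Matrix Complex
open scoped Kronecker ComplexOrder

namespace H93.LP3

/-- A sequence `K = (K n)` of sets of triples of complex `n × n` matrices. -/
abbrev MatSeq := (n : ℕ) → Set (Fin 3 → Matrix (Fin n) (Fin n) ℂ)

/-- Matrix convex sets of triples of self-adjoint matrices: closed under direct sums and under
compressions by isometries. -/
structure IsMatrixConvex (K : MatSeq) : Prop where
  hermitian : ∀ n, ∀ X ∈ K n, ∀ j, (X j).IsHermitian
  directSum : ∀ m n, ∀ X ∈ K m, ∀ Y ∈ K n,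
    (fun j => Matrix.reindex finSumFinEquiv finSumFinEquiv
      (Matrix.fromBlocks (X j) 0 0 (Y j))) ∈ K (m + n)
  compress : ∀ m n, ∀ V : Matrix (Fin n) (Fin m) ℂ, Vᴴ * V = 1 → ∀ X ∈ K n,
    (fun j => Vᴴ * X j * V) ∈ K m

/-- The first level of `K` (triples of real numbers) is the closed Euclidean unit ball of `ℝ³`. -/
def FirstLevelIsBall (K : MatSeq) : Prop :=
  ∀ x : Fin 3 → ℝ, (fun j => (Matrix.of fun _ _ => (x j : ℂ) : Matrix (Fin 1) (Fin 1) ℂ)) ∈ K 1 ↔
    ∑ j, x j ^ 2 ≤ 1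

/-- `𝒲^min` of the closed unit ball of `ℝ³`: the smallest closed matrix convex set whose first
level is the ball, i.e. the intersection of all of them. -/
def Wmin : MatSeq := fun n => {X | ∀ K : MatSeq, IsMatrixConvex K → (∀ m, IsClosed (K m)) →
  FirstLevelIsBall K → X ∈ K n}

/-- Coefficient matrices of a matrix with entries in `span {1, z₁, z₂, z₃}`. -/
def coef {m : Type} (M : Matrix m m (Fin 4 → ℂ)) (j : Fin 4) : Matrix m m ℂ :=
  M.map (fun s => s j)

/-- The operator system `𝒪(𝒲^min)`: its underlying vector space is `Fin 4 → ℂ` with basis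
`1, z₁, z₂, z₃`; this is the cone of positive elements of `M_m(𝒪(𝒲^min))`. -/
def OPos {m : ℕ} (M : Matrix (Fin m) (Fin m) (Fin 4 → ℂ)) : Prop :=
  ∀ n, ∀ X ∈ Wmin n,
    (coef M 0 ⊗ₖ (1 : Matrix (Fin n) (Fin n) ℂ) + ∑ j : Fin 3, coef M j.succ ⊗ₖ X j).PosSemidef

/-- Unital completely positive maps from `𝒪(𝒲^min)` to a `C⋆`-algebra `A`. An element of the
`C⋆`-algebra `M_m(A)` is positive iff it is of the form `Yᴴ * Y`. -/
structure IsUCP {A : Type*} [Ring A] [StarRing A] [Algebra ℂ A]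
    (φ : (Fin 4 → ℂ) →ₗ[ℂ] A) : Prop where
  unital : φ (Pi.single 0 1) = 1
  cp : ∀ m, ∀ M : Matrix (Fin m) (Fin m) (Fin 4 → ℂ), OPos M →
    ∃ Y : Matrix (Fin m) (Fin m) A, M.map φ = Yᴴ * Y

/-- The lifting property of `𝒪(𝒲^min)`: every UCP map into a quotient `B` of a unital
`C⋆`-algebra `A` (i.e. `B` is the image of a surjective `⋆`-homomorphism `q : A → B`) has a UCP
lift to `A`. -/
def HasLiftingProperty : Prop :=
  ∀ (A B : Type) [CStarAlgebra A] [CStarAlgebra B] (q : A →⋆ₐ[ℂ] B), Function.Surjective q →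
    ∀ φ : (Fin 4 → ℂ) →ₗ[ℂ] B, IsUCP φ →
      ∃ ψ : (Fin 4 → ℂ) →ₗ[ℂ] A, IsUCP ψ ∧ ∀ s, q (ψ s) = φ s

end H93.LP3
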