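import Pool.Agent.H93.LP3.Criterion

open Matrix Complex Filter Topology
open scoped ComplexOrder Kronecker

namespace H93.LP3

/-! ### Constants of the encoding -/

/-- squared radii -/
noncomputable def tt (i : Fin 8) : ℝ := (i : ℕ) + 1

noncomputable def rho (i : Fin 8) : ℝ := Real.sqrt (tt i)

/-- absolute weights -/
noncomputable def aw (i : Fin 8) : ℝ := (Nat.choose 7 i : ℝ) / tt i ^ 5

/-- signs -/
noncomputable def sg (i : Fin 8) : ℝ := (-1) ^ (i : ℕ)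

lemma tt_pos (i : Fin 8) : 0 < tt i := by unfold tt; positivity

lemma rho_sq (i : Fin 8) : rho i ^ 2 = tt i := Real.sq_sqrt (tt_pos i).le

lemma rho_pos (i : Fin 8) : 0 < rho i := Real.sqrt_pos.2 (tt_pos i)

lemma aw_pos (i : Fin 8) : 0 < aw i := by
  unfold aw
  have : 0 < Nat.choose 7 i := Nat.choose_pos (by have := i.2; omega)
  have h2 := tt_pos i
  positivity

lemma sg_sq (i : Fin 8) : sg i * sg i = 1 := by
  unfold sg; rw [← pow_add, ← two_mul, pow_mul]; simp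

lemma weight_rel (j : ℕ) (hj : j ≤ 6) : ∑ i : Fin 8, aw i * sg i * rho i ^ (2 * j + 10) = 0 := by
  have h : ∀ i : Fin 8, aw i * sg i * rho i ^ (2 * j + 10) =
      (Nat.choose 7 i : ℝ) * (-1) ^ (i : ℕ) * ((i : ℕ) + 1) ^ j := by
    intro i
    have e : rho i ^ (2 * j + 10) = tt i ^ j * tt i ^ 5 := by
      rw [← rho_sq]; ring
    rw [e, aw, sg]
    have := (tt_pos i).ne'
    field_simp
    rfl
  simp_rw [h]
  simp only [Fin.sum_univ_eight]
  interval_cases j <;> norm_num [Nat.choose]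

/-- coefficient of `ζ^v ζ̄^u` -/
noncomputable def hat (u v : Fin 2) (s : Fin 4 → ℂ) : ℂ :=
  if u = 0 then (if v = 0 then s 0 + s 3 else s 1 - I * s 2)
  else (if v = 0 then s 1 + I * s 2 else s 0 - s 3)

noncomputable def hatL (u v : Fin 2) : (Fin 4 → ℂ) →ₗ[ℂ] ℂ where
  toFun := hat u v
  map_add' s t := by
    fin_cases u <;> fin_cases v <;> simp [hat] <;> ring
  map_smul' r s := by
    fin_cases u <;> fin_cases v <;> simp [hat] <;> ring

lemma zVal_apply {r : Type} (M : Matrix r r (Fin 4 → ℂ)) (z : ℂ) (n n' : r) :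
    zVal M z n n' = ∑ u : Fin 2, ∑ v : Fin 2, hat u v (M n n') * z ^ (v : ℕ) *
      (starRingEnd ℂ z) ^ (u : ℕ) := by
  simp [zVal, Fin.sum_univ_two, hat, coef]
  ring

/-- the scalar kernel of the encoding: entry `((a,α),(b,β))` on the circle number `i` -/
noncomputable def kf (i : Fin 8) (s : Fin 4 → ℂ) (a : Fin 16) (α : Fin 2) (b : Fin 16)
    (β : Fin 2) : ℂ :=
  ((aw i * sg i ^ ((α : ℕ) + β) : ℝ) : ℂ) * ∑ u : Fin 2, ∑ v : Fin 2, hat u v s *
    (if (v : ℕ) + a + 10 * α = u + b + 10 * β then ((rho i ^ ((u : ℕ) + v + a + b) : ℝ) : ℂ) else 0)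

noncomputable def om : ℂ := exp (2 * Real.pi * I / (32 : ℕ))

lemma om_prim : IsPrimitiveRoot om 32 := Complex.isPrimitiveRoot_exp 32 (by norm_num)

lemma om_conj : om * starRingEnd ℂ om = 1 := by
  rw [Complex.mul_conj, Complex.normSq_eq_norm_sq, om_prim.norm'_eq_one (by norm_num)]
  simp

lemma orth (A B : ℕ) (hA : A < 32) (hB : B < 32) :
    ∑ l ∈ Finset.range 32, (om ^ l) ^ A * (starRingEnd ℂ (om ^ l)) ^ B =
      if A = B then 32 else 0 := by
  have h1 : ∀ l, (om ^ l) ^ A * (starRingEnd ℂ (om ^ l)) ^ B =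
      (om ^ A * (starRingEnd ℂ om) ^ B) ^ l := by
    intro l
    rw [map_pow, mul_pow, ← pow_mul, ← pow_mul, ← pow_mul, ← pow_mul, mul_comm l, mul_comm l]
  simp_rw [h1]
  split_ifs with h
  · subst h
    rw [← mul_pow, om_conj]; simp
  · have hne : om ^ A * (starRingEnd ℂ om) ^ B ≠ 1 := by
      intro h2
      apply h
      have h3 : om ^ A = om ^ B := by
        calc om ^ A = om ^ A * ((om * starRingEnd ℂ om) ^ B) := by rw [om_conj]; simp
          _ = (om ^ A * (starRingEnd ℂ om) ^ B) * om ^ B := by rw [mul_pow]; ring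
          _ = om ^ B := by rw [h2, one_mul]
      exact om_prim.pow_inj hA hB h3
    have h4 : (om ^ A * (starRingEnd ℂ om) ^ B) ^ 32 = 1 := by
      have h5 : om ^ 32 = 1 := om_prim.pow_eq_one
      rw [mul_pow, ← pow_mul, ← pow_mul, mul_comm A, mul_comm B, pow_mul, pow_mul, h5, ← map_pow,
        h5]
      simp
    have h6 := geom_sum_eq hne 32
    rw [h6, h4]; simp

lemma orth_fin (a b : Fin 16) (α β u v : Fin 2) :
    ∑ l ∈ Finset.range 32, (om ^ l) ^ ((v : ℕ) + a + 10 * α) *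
      (starRingEnd ℂ (om ^ l)) ^ ((u : ℕ) + b + 10 * β) =
      if (v : ℕ) + a + 10 * α = u + b + 10 * β then 32 else 0 := by
  apply orth <;> omega

/-- The matrices `E_i`. -/
noncomputable def EE {r : Type} (M : Matrix r r (Fin 4 → ℂ)) (i : Fin 8) :
    Matrix (r × Fin 16 × Fin 2) (r × Fin 16 × Fin 2) ℂ :=
  Matrix.of fun p q => kf i (M p.1 q.1) p.2.1 p.2.2 q.2.1 q.2.2

noncomputable def yv (i : Fin 8) (l : ℕ) : Fin 16 × Fin 2 → ℂ := fun p =>
  ((rho i : ℂ) * om ^ l) ^ (p.1 : ℕ) * (sg i : ℂ) ^ (p.2 : ℕ) * (om ^ l) ^ (10 * (p.2 : ℕ))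

lemma EE_eq {r : Type} (M : Matrix r r (Fin 4 → ℂ)) (i : Fin 8) :
    EE M i = ∑ l ∈ Finset.range 32, ((aw i / 32 : ℝ) : ℂ) •
      (zVal M ((rho i : ℂ) * om ^ l) ⊗ₖ vecMulVec (yv i l) (star (yv i l))) := by
  ext ⟨n, a, α⟩ ⟨n', b, β⟩
  simp only [EE, Matrix.of_apply, Matrix.sum_apply, Matrix.smul_apply, smul_eq_mul,
    kroneckerMap_apply, vecMulVec_apply, zVal_apply, Pi.star_apply]
  rw [← Finset.mul_sum, kf]
  have h1 : ∀ l : ℕ, (∑ u : Fin 2, ∑ v : Fin 2, hat u v (M n n') *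
      ((rho i : ℂ) * om ^ l) ^ (v : ℕ) * (starRingEnd ℂ ((rho i : ℂ) * om ^ l)) ^ (u : ℕ)) *
      (yv i l (a, α) * star (yv i l (b, β))) =
      ∑ u : Fin 2, ∑ v : Fin 2, hat u v (M n n') * ((rho i ^ ((u : ℕ) + v + a + b) : ℝ) : ℂ) *
        (sg i : ℂ) ^ ((α : ℕ) + β) * ((om ^ l) ^ ((v : ℕ) + a + 10 * α) *
          (starRingEnd ℂ (om ^ l)) ^ ((u : ℕ) + b + 10 * β)) := by
    intro l
    rw [Finset.sum_mul]
    refine Finset.sum_congr rfl fun u _ => ?_
    rw [Finset.sum_mul]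
    refine Finset.sum_congr rfl fun v _ => ?_
    simp only [yv, Complex.star_def, map_mul, map_pow, Complex.conj_ofReal, mul_pow, pow_add,
      pow_mul, Complex.ofReal_mul, Complex.ofReal_pow]
    ring
  simp_rw [h1]
  have h2 : ∀ f : ℕ → Fin 2 → Fin 2 → ℂ, ∑ l ∈ Finset.range 32, ∑ u, ∑ v, f l u v =
      ∑ u, ∑ v, ∑ l ∈ Finset.range 32, f l u v := by
    intro f
    rw [Finset.sum_comm]
    refine Finset.sum_congr rfl fun u _ => ?_
    rw [Finset.sum_comm]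
  rw [h2, Finset.mul_sum, Finset.mul_sum]
  refine Finset.sum_congr rfl fun u _ => ?_
  rw [Finset.mul_sum, Finset.mul_sum]
  refine Finset.sum_congr rfl fun v _ => ?_
  rw [← Finset.mul_sum, orth_fin]
  split_ifs
  · push_cast; ring
  · simp

lemma EE_psd {r : Type} [Fintype r] [DecidableEq r] {M : Matrix r r (Fin 4 → ℂ)} (hM : ZPos M)
    (i : Fin 8) : (EE M i).PosSemidef := by
  rw [EE_eq]
  apply posSemidef_sum
  intro l _
  refine PosSemidef.smul ?_ ?_
  · exact (hM _).kronecker (posSemidef_vecMulVec_self_star _)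
  · have := aw_pos i
    exact_mod_cast (by positivity : (0 : ℝ) ≤ aw i / 32)

/-- the sign diagonal -/
noncomputable def sd (r : Type) [DecidableEq r] :
    Matrix (r × Fin 16 × Fin 2) (r × Fin 16 × Fin 2) ℂ :=
  Matrix.diagonal fun p => (-1) ^ (p.2.2 : ℕ)

/-- The matrices `F_i`. -/
noncomputable def FF {r : Type} [Fintype r] [DecidableEq r] (M : Matrix r r (Fin 4 → ℂ))
    (i : Fin 8) : Matrix (r × Fin 16 × Fin 2) (r × Fin 16 × Fin 2) ℂ :=
  sd r * EE M i * sd r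

lemma FF_apply {r : Type} [Fintype r] [DecidableEq r] (M : Matrix r r (Fin 4 → ℂ))
    (i : Fin 8) (p q : r × Fin 16 × Fin 2) :
    FF M i p q = (-1) ^ (p.2.2 : ℕ) * EE M i p q * (-1) ^ (q.2.2 : ℕ) := by
  unfold FF sd
  rw [Matrix.mul_diagonal, Matrix.diagonal_mul]

lemma FF_psd {r : Type} [Fintype r] [DecidableEq r] {M : Matrix r r (Fin 4 → ℂ)} (hM : ZPos M)
    (i : Fin 8) : (FF M i).PosSemidef := by
  have h : (sd r)ᴴ = sd r := by
    unfold sd
    rw [Matrix.diagonal_conjTranspose]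
    congr 1
    ext p
    simp
  have := (EE_psd hM i).conjTranspose_mul_mul_same (sd r)
  rwa [h] at this

lemma kf_sum_off (s : Fin 4 → ℂ) (a b : Fin 16) (α β : Fin 2) (h : α ≠ β) :
    ∑ i, kf i s a α b β = 0 := by
  simp only [kf, Finset.mul_sum]
  rw [Finset.sum_comm]
  refine Finset.sum_eq_zero fun u _ => ?_
  rw [Finset.sum_comm]
  refine Finset.sum_eq_zero fun v _ => ?_
  split_ifs with hc
  · have h1 : (α : ℕ) + β = 1 := by
      have : (α : ℕ) ≠ β := fun h' => h (Fin.ext h')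
      omega
    obtain ⟨j, hj, hj2⟩ : ∃ j ≤ 6, (u : ℕ) + v + a + b = 2 * j + 10 := by
      have h2 : (α : ℕ) = 1 ∧ (β : ℕ) = 0 ∨ (α : ℕ) = 0 ∧ (β : ℕ) = 1 := by omega
      rcases h2 with ⟨h3, h4⟩ | ⟨h3, h4⟩
      · exact ⟨v + a, by omega, by omega⟩
      · exact ⟨u + b, by omega, by omega⟩
    have h3 : ∀ i : Fin 8, ((aw i * sg i ^ ((α : ℕ) + β) : ℝ) : ℂ) * (hat u v s *
        ((rho i ^ ((u : ℕ) + v + a + b) : ℝ) : ℂ)) =
        hat u v s * ((aw i * sg i * rho i ^ (2 * j + 10) : ℝ) : ℂ) := by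
      intro i
      rw [h1, hj2]
      push_cast
      ring
    simp_rw [h3]
    rw [← Finset.mul_sum, ← Complex.ofReal_sum, weight_rel j hj]
    simp
  · simp

lemma sum_EE_eq_sum_FF {r : Type} [Fintype r] [DecidableEq r] (M : Matrix r r (Fin 4 → ℂ)) :
    ∑ i, EE M i = ∑ i, FF M i := by
  ext ⟨n, a, α⟩ ⟨n', b, β⟩
  rw [Matrix.sum_apply, Matrix.sum_apply]
  simp_rw [FF_apply]
  rw [← Finset.sum_mul, ← Finset.mul_sum]
  by_cases h : α = β
  · subst h
    have : ((-1 : ℂ)) ^ (α : ℕ) * (-1) ^ (α : ℕ) = 1 := by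
      rw [← pow_add, ← two_mul, pow_mul]; simp
    linear_combination (-(∑ i, EE M i (n, a, α) (n', b, α))) * this
  · have : ∑ i, EE M i (n, a, α) (n', b, β) = 0 := kf_sum_off _ _ _ _ _ h
    rw [this]; simp

end H93.LP3
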