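import Pool.Agent.H93.LP3.Enc

open Matrix Complex Filter Topology
open scoped ComplexOrder Kronecker

namespace H93.LP3

lemma kf_add (i : Fin 8) (s t : Fin 4 → ℂ) (a : Fin 16) (α : Fin 2) (b : Fin 16) (β : Fin 2) :
    kf i (s + t) a α b β = kf i s a α b β + kf i t a α b β := by
  have h : ∀ u v, hat u v (s + t) = hat u v s + hat u v t := fun u v => (hatL u v).map_add s t
  simp only [kf, h, add_mul, Finset.sum_add_distrib, mul_add]

lemma kf_smul (i : Fin 8) (r : ℂ) (s : Fin 4 → ℂ) (a : Fin 16) (α : Fin 2) (b : Fin 16)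
    (β : Fin 2) : kf i (r • s) a α b β = r * kf i s a α b β := by
  have h : ∀ u v, hat u v (r • s) = r * hat u v s := fun u v => (hatL u v).map_smul r s
  simp only [kf, h, Finset.mul_sum]
  refine Finset.sum_congr rfl fun u _ => Finset.sum_congr rfl fun v _ => ?_
  ring

abbrev IX (κ : Type) := Fin 16 × Fin 2 × κ

section
variable {κ : Type} [Fintype κ] [DecidableEq κ]

/-- The encoded map. -/
noncomputable def phi (P Q : Fin 8 → Matrix κ κ ℂ) :
    (Fin 4 → ℂ) →ₗ[ℂ] Matrix (IX κ) (IX κ) ℂ where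
  toFun s := Matrix.of fun p q => ∑ i, kf i s p.1 p.2.1 q.1 q.2.1 *
    (P i p.2.2 q.2.2 + (-1) ^ (p.2.1 : ℕ) * (-1) ^ (q.2.1 : ℕ) * Q i p.2.2 q.2.2)
  map_add' s t := by
    ext p q
    simp only [Matrix.of_apply, Matrix.add_apply, kf_add, add_mul, Finset.sum_add_distrib]
  map_smul' r s := by
    ext p q
    simp only [Matrix.of_apply, Matrix.smul_apply, kf_smul, smul_eq_mul, Finset.mul_sum,
      RingHom.id_apply, mul_assoc]

/-- matrix amplification of `phi` -/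
noncomputable def amp {N : ℕ} (P Q : Fin 8 → Matrix κ κ ℂ) (M : Matrix (Fin N) (Fin N) (Fin 4 → ℂ)) :
    Matrix (Fin N × IX κ) (Fin N × IX κ) ℂ :=
  Matrix.of fun a b => phi P Q (M a.1 b.1) a.2 b.2

/-- reordering of indices -/
def ro {N : ℕ} (p : Fin N × IX κ) : (Fin N × Fin 16 × Fin 2) × κ :=
  ((p.1, p.2.1, p.2.2.1), p.2.2.2)

lemma amp_eq {N : ℕ} (P Q : Fin 8 → Matrix κ κ ℂ) (M : Matrix (Fin N) (Fin N) (Fin 4 → ℂ)) :
    amp P Q M = (∑ i, (EE M i ⊗ₖ P i + FF M i ⊗ₖ Q i)).submatrix ro ro := by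
  ext p q
  simp only [amp, phi, LinearMap.coe_mk, AddHom.coe_mk, Matrix.of_apply, submatrix_apply,
    Matrix.sum_apply, Matrix.add_apply, kroneckerMap_apply, FF_apply, EE, ro]
  refine Finset.sum_congr rfl fun i _ => ?_
  ring

/-- projection valued measures with 8 outcomes -/
structure IsPVM (e : Fin 8 → Matrix κ κ ℂ) : Prop where
  herm : ∀ i, (e i)ᴴ = e i
  idem : ∀ i, e i * e i = e i
  sum_one : ∑ i, e i = 1

/-- The gap inequality for coefficient matrices of size at most `N`. -/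
def GapAt (e f : Fin 8 → Matrix κ κ ℂ) (γ : ℝ) (N : ℕ) : Prop :=
  ∀ (ν : Type) [Fintype ν] [DecidableEq ν], Fintype.card ν ≤ N → ∀ E F : Fin 8 → Matrix ν ν ℂ,
    (∀ i, (E i).PosSemidef) → (∀ i, (F i).PosSemidef) → ∑ i, E i = ∑ i, F i →
    (((2 - γ : ℝ) : ℂ) • ((∑ i, E i) ⊗ₖ (1 : Matrix κ κ ℂ)) -
      ∑ i, (E i ⊗ₖ (e i)ᵀ + F i ⊗ₖ (f i)ᵀ)).PosSemidef

noncomputable def PP (γ : ℝ) (e : Fin 8 → Matrix κ κ ℂ) (i : Fin 8) : Matrix κ κ ℂ :=
  ((1 - γ / 4 : ℝ) : ℂ) • (1 : Matrix κ κ ℂ) - (e i)ᵀ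

lemma amp_sub_psd {N : ℕ} {e f : Fin 8 → Matrix κ κ ℂ} {γ : ℝ} (hg : GapAt e f γ (N * 32))
    (M : Matrix (Fin N) (Fin N) (Fin 4 → ℂ)) (hM : ZPos M) :
    (amp (PP γ e) (PP γ f) M -
      (((γ / 2 : ℝ) : ℂ) • ((∑ i, EE M i) ⊗ₖ (1 : Matrix κ κ ℂ))).submatrix ro ro).PosSemidef := by
  have h1 := hg (Fin N × Fin 16 × Fin 2) (by simp) (EE M) (FF M) (EE_psd hM) (FF_psd hM)
    (sum_EE_eq_sum_FF M)
  have h2 := h1.submatrix (ro (κ := κ))
  have h3 : amp (PP γ e) (PP γ f) M -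
      (((γ / 2 : ℝ) : ℂ) • ((∑ i, EE M i) ⊗ₖ (1 : Matrix κ κ ℂ))).submatrix ro ro =
      (((2 - γ : ℝ) : ℂ) • ((∑ i, EE M i) ⊗ₖ (1 : Matrix κ κ ℂ)) -
        ∑ i, (EE M i ⊗ₖ (e i)ᵀ + FF M i ⊗ₖ (f i)ᵀ)).submatrix ro ro := by
    rw [amp_eq]
    have e1 : ∑ i, (EE M i ⊗ₖ PP γ e i + FF M i ⊗ₖ PP γ f i) =
        ((1 - γ / 4 : ℝ) : ℂ) • ((∑ i, EE M i) ⊗ₖ (1 : Matrix κ κ ℂ)) +
        ((1 - γ / 4 : ℝ) : ℂ) • ((∑ i, FF M i) ⊗ₖ (1 : Matrix κ κ ℂ)) -
        ∑ i, (EE M i ⊗ₖ (e i)ᵀ + FF M i ⊗ₖ (f i)ᵀ) := by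
      ext ⟨p, x⟩ ⟨q, y⟩
      simp only [PP, Matrix.sum_apply, Matrix.add_apply, Matrix.sub_apply, kroneckerMap_apply,
        Matrix.smul_apply, smul_eq_mul, mul_sub, Finset.sum_add_distrib, Finset.sum_sub_distrib,
        Finset.sum_mul, Finset.mul_sum]
      have e2 : ∀ c : ℝ, ∀ z : Fin 8 → ℂ, ∀ w : ℂ, ∑ i, z i * ((c : ℂ) * w) =
        ∑ i, (c : ℂ) * (z i * w) := fun c z w => Finset.sum_congr rfl fun i _ => by ring
      rw [e2, e2]
      ring
    have e4 : ∀ A B : Matrix ((Fin N × Fin 16 × Fin 2) × κ) ((Fin N × Fin 16 × Fin 2) × κ) ℂ,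
      A.submatrix ro ro - B.submatrix ro ro = (A - B).submatrix (ro (κ := κ)) (ro (κ := κ)) :=
        fun _ _ => rfl
    rw [e1, ← sum_EE_eq_sum_FF, e4]
    congr 1
    have e3 : ((2 - γ : ℝ) : ℂ) = ((1 - γ / 4 : ℝ) : ℂ) + ((1 - γ / 4 : ℝ) : ℂ) - ((γ / 2 : ℝ) : ℂ) := by
      push_cast; ring
    rw [e3, sub_smul, add_smul]
    abel
  rw [h3]
  exact h2

lemma amp_psd {N : ℕ} {e f : Fin 8 → Matrix κ κ ℂ} {γ : ℝ} (hγ : 0 ≤ γ)
    (hg : GapAt e f γ (N * 32))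
    (M : Matrix (Fin N) (Fin N) (Fin 4 → ℂ)) (hM : ZPos M) :
    (amp (PP γ e) (PP γ f) M).PosSemidef := by
  have h1 := amp_sub_psd hg M hM
  have h2 : (((γ / 2 : ℝ) : ℂ) • ((∑ i, EE M i) ⊗ₖ (1 : Matrix κ κ ℂ))).PosSemidef := by
    refine PosSemidef.smul ?_ (by exact_mod_cast (by positivity : (0 : ℝ) ≤ γ / 2))
    exact (posSemidef_sum _ fun i _ => EE_psd hM i).kronecker PosSemidef.one
  have h3 := h1.add (h2.submatrix (ro (κ := κ)))
  simpa using h3

/-- the identity test element -/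
noncomputable def idM : Matrix (Fin 1) (Fin 1) (Fin 4 → ℂ) := Matrix.of fun _ _ => eb 0

lemma idM_zPos : ZPos idM := by
  apply ballPos_zPos
  intro x _
  have : ballVal idM x = 1 := by
    ext a b
    have : a = b := Subsingleton.elim _ _
    subst this
    simp [ballVal, idM, coef, Matrix.sum_apply, Fin.succ_ne_zero]
  rw [this]
  exact PosSemidef.one

noncomputable def wd (a : ℕ) : ℝ := ∑ i : Fin 8, aw i * ((1 + tt i) * tt i ^ a)

lemma sum_EE_idM : ∑ i, EE idM i =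
    Matrix.diagonal fun p : Fin 1 × Fin 16 × Fin 2 => (wd p.2.1 : ℂ) := by
  ext ⟨n, a, α⟩ ⟨n', b, β⟩
  rw [Matrix.sum_apply]
  have hn : n = n' := Subsingleton.elim _ _
  subst hn
  simp only [EE, Matrix.of_apply, idM]
  by_cases h : α = β
  · subst h
    have h1 : ∀ i, kf i (eb 0) a α b α = if a = b then ((aw i * ((1 + tt i) * tt i ^ (a : ℕ)) : ℝ) : ℂ)
        else 0 := by
      intro i
      have e1 : sg i ^ ((α : ℕ) + α) = 1 := by
        rw [pow_add, ← mul_pow, sg_sq, one_pow]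
      simp only [kf, e1, Fin.sum_univ_two, hat, eb, Pi.single_apply]
      by_cases hab : a = b
      · subst hab
        simp
        left
        rw [← rho_sq]
        push_cast
        ring
      · have hab' : (a : ℕ) ≠ b := fun h' => hab (Fin.ext h')
        simp [hab, hab']
    simp_rw [h1]
    by_cases hab : a = b
    · subst hab
      simp [wd]
    · rw [Matrix.diagonal_apply_ne]
      · simp [hab]
      · intro h'
        apply hab
        simpa using h'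
  · rw [kf_sum_off _ _ _ _ _ h, Matrix.diagonal_apply_ne]
    intro h'
    apply h
    have := congrArg (fun p => p.2.2) h'
    exact this

lemma wd_ge (a : ℕ) : 2 ≤ wd a := by
  unfold wd
  have h := Finset.single_le_sum (f := fun i : Fin 8 => aw i * ((1 + tt i) * tt i ^ a))
    (fun i _ => by have := aw_pos i; have := tt_pos i; positivity) (Finset.mem_univ 0)
  refine le_trans ?_ h
  simp [aw, tt]
  norm_num

lemma wd_le (a : Fin 16) : wd a ≤ wd 15 := by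
  unfold wd
  refine Finset.sum_le_sum fun i _ => ?_
  have h1 := aw_pos i
  have h2 := tt_pos i
  have h3 : 1 ≤ tt i := by unfold tt; simp
  have h4 : tt i ^ (a : ℕ) ≤ tt i ^ 15 := pow_le_pow_right₀ h3 (by omega)
  gcongr

lemma phi_one_eq {P Q : Fin 8 → Matrix κ κ ℂ} :
    phi P Q (eb 0) = (amp P Q idM).submatrix (fun x => ((0 : Fin 1), x)) (fun x => (0, x)) := rfl

lemma phi_lower {e f : Fin 8 → Matrix κ κ ℂ} {γ : ℝ} (hγ : 0 ≤ γ) (hg : GapAt e f γ 32) :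
    (phi (PP γ e) (PP γ f) (eb 0) - (γ : ℂ) • 1).PosSemidef := by
  have h1 := amp_sub_psd (N := 1) (by simpa using hg) idM idM_zPos
  rw [sum_EE_idM] at h1
  have h2 := h1.submatrix (fun x : IX κ => ((0 : Fin 1), x))
  have h3 : (Matrix.diagonal fun p : IX κ => (((γ / 2 : ℝ) : ℂ) * (wd p.1 - 2))).PosSemidef := by
    apply PosSemidef.diagonal
    intro p
    have h4 := wd_ge p.1
    simp only [Pi.zero_apply]
    have : (0 : ℝ) ≤ γ / 2 * (wd p.1 - 2) := mul_nonneg (by positivity) (by linarith)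
    have h5 : (((γ / 2 : ℝ) : ℂ) * (wd p.1 - 2)) = ((γ / 2 * (wd p.1 - 2) : ℝ) : ℂ) := by
      push_cast; ring
    rw [h5]
    exact_mod_cast this
  have h4 := h2.add h3
  convert h4 using 1
  ext p q
  simp only [phi_one_eq, Matrix.sub_apply, Matrix.add_apply, submatrix_apply, Matrix.smul_apply,
    smul_eq_mul, kroneckerMap_apply, ro]
  by_cases hpq : p = q
  · subst hpq
    simp only [Matrix.diagonal_apply_eq, Matrix.one_apply_eq]
    push_cast; ring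
  · rw [Matrix.one_apply_ne hpq, Matrix.diagonal_apply_ne _ hpq]
    have : Matrix.diagonal (fun p : Fin 1 × Fin 16 × Fin 2 => (wd p.2.1 : ℂ))
        (0, p.1, p.2.1) (0, q.1, q.2.1) * (1 : Matrix κ κ ℂ) p.2.2 q.2.2 = 0 := by
      by_cases h6 : p.2.2 = q.2.2
      · rw [Matrix.diagonal_apply_ne, zero_mul]
        intro h7
        apply hpq
        simp only [Prod.mk.injEq, true_and] at h7
        exact Prod.ext h7.1 (Prod.ext h7.2 h6)
      · rw [Matrix.one_apply_ne h6, mul_zero]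
    rw [this]; simp

lemma IsPVM.psd {e : Fin 8 → Matrix κ κ ℂ} (he : IsPVM e) (i : Fin 8) : (e i).PosSemidef := by
  have := posSemidef_conjTranspose_mul_self (e i)
  rwa [he.herm, he.idem] at this

lemma phi_upper {e f : Fin 8 → Matrix κ κ ℂ} {γ : ℝ} (hγ : 0 ≤ γ) (he : IsPVM e) (hf : IsPVM f) :
    (((2 * wd 15 : ℝ) : ℂ) • 1 - phi (PP γ e) (PP γ f) (eb 0)).PosSemidef := by
  have hPP : ∀ e : Fin 8 → Matrix κ κ ℂ, IsPVM e → ∀ i, (1 - PP γ e i).PosSemidef := by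
    intro e he i
    have : 1 - PP γ e i = ((γ / 4 : ℝ) : ℂ) • (1 : Matrix κ κ ℂ) + (e i)ᵀ := by
      unfold PP
      ext a b
      simp only [Matrix.sub_apply, Matrix.add_apply, Matrix.smul_apply, smul_eq_mul]
      push_cast; ring
    rw [this]
    exact (PosSemidef.one.smul (by exact_mod_cast (by positivity : (0 : ℝ) ≤ γ / 4))).add
      (he.psd i).transpose
  have h1 : (∑ i, (EE idM i ⊗ₖ (1 - PP γ e i) + FF idM i ⊗ₖ (1 - PP γ f i))).PosSemidef := by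
    refine posSemidef_sum _ fun i _ => ?_
    exact ((EE_psd idM_zPos i).kronecker (hPP e he i)).add
      ((FF_psd idM_zPos i).kronecker (hPP f hf i))
  have h2 : ∑ i, (EE idM i ⊗ₖ (1 - PP γ e i) + FF idM i ⊗ₖ (1 - PP γ f i)) =
      (2 : ℂ) • ((∑ i, EE idM i) ⊗ₖ (1 : Matrix κ κ ℂ)) -
        ∑ i, (EE idM i ⊗ₖ PP γ e i + FF idM i ⊗ₖ PP γ f i) := by
    have e1 : ((2 : ℂ) • ((∑ i, EE idM i) ⊗ₖ (1 : Matrix κ κ ℂ))) =
        (∑ i, EE idM i) ⊗ₖ (1 : Matrix κ κ ℂ) + (∑ i, FF idM i) ⊗ₖ (1 : Matrix κ κ ℂ) := by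
      rw [← sum_EE_eq_sum_FF, two_smul]
    rw [e1]
    ext ⟨p, x⟩ ⟨q, y⟩
    simp only [Matrix.sum_apply, Matrix.add_apply, Matrix.sub_apply, kroneckerMap_apply, mul_sub,
      Finset.sum_add_distrib, Finset.sum_sub_distrib, Finset.sum_mul]
    ring
  rw [h2] at h1
  have h3 := h1.submatrix (fun x : IX κ => (ro (N := 1) ((0 : Fin 1), x)))
  rw [sum_EE_idM] at h3
  have h4 : (Matrix.diagonal fun p : IX κ => (((2 * (wd 15 - wd p.1) : ℝ) : ℂ))).PosSemidef := by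
    apply PosSemidef.diagonal
    intro p
    have h4 := wd_le p.1
    simp only [Pi.zero_apply]
    exact_mod_cast (by linarith : (0 : ℝ) ≤ 2 * (wd 15 - wd p.1))
  have h5 := h3.add h4
  convert h5 using 1
  have e6 : phi (PP γ e) (PP γ f) (eb 0) = (∑ i, (EE idM i ⊗ₖ PP γ e i +
    FF idM i ⊗ₖ PP γ f i)).submatrix (fun x : IX κ => (ro (N := 1) ((0 : Fin 1), x)))
      (fun x : IX κ => (ro (N := 1) ((0 : Fin 1), x))) := by
    rw [phi_one_eq, amp_eq]; rfl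
  rw [e6]
  ext p q
  simp only [Matrix.sub_apply, Matrix.add_apply, submatrix_apply, Matrix.smul_apply,
    smul_eq_mul, kroneckerMap_apply, ro]
  by_cases hpq : p = q
  · subst hpq
    simp only [Matrix.diagonal_apply_eq, Matrix.one_apply_eq]
    push_cast; ring
  · rw [Matrix.one_apply_ne hpq, Matrix.diagonal_apply_ne (fun p : IX κ => _) hpq]
    have : Matrix.diagonal (fun p : Fin 1 × Fin 16 × Fin 2 => (wd p.2.1 : ℂ))
        (0, p.1, p.2.1) (0, q.1, q.2.1) * (1 : Matrix κ κ ℂ) p.2.2 q.2.2 = 0 := by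
      by_cases h6 : p.2.2 = q.2.2
      · rw [Matrix.diagonal_apply_ne, zero_mul]
        intro h7
        apply hpq
        simp only [Prod.mk.injEq, true_and] at h7
        exact Prod.ext h7.1 (Prod.ext h7.2 h6)
      · rw [Matrix.one_apply_ne h6, mul_zero]
    rw [this]; simp

end

end H93.LP3
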