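import Mathlib

namespace H93.LP3

section
variable {V : Type*} [Fintype V] [DecidableEq V]

lemma shift_le (μ : V → ℝ) (hμ : ∀ v, 0 ≤ μ v) (T : V → V) (hT : Function.Injective T) {e : ℝ}
    (he : ∑ v, |μ v - μ (T v)| ≤ e) (S R : Finset V) (hSR : ∀ v ∈ S, T v ∈ R) :
    ∑ v ∈ S, μ v ≤ ∑ v ∈ R, μ v + e := by
  have h1 : ∑ v ∈ S, μ v ≤ ∑ v ∈ S, μ (T v) + ∑ v ∈ S, |μ v - μ (T v)| := by
    rw [← Finset.sum_add_distrib]
    refine Finset.sum_le_sum fun v _ => ?_
    have := le_abs_self (μ v - μ (T v))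
    linarith
  have h2 : ∑ v ∈ S, |μ v - μ (T v)| ≤ ∑ v, |μ v - μ (T v)| :=
    Finset.sum_le_sum_of_subset_of_nonneg (Finset.subset_univ _) fun _ _ _ => abs_nonneg _
  have h3 : ∑ v ∈ S, μ (T v) ≤ ∑ v ∈ R, μ v := by
    rw [← Finset.sum_image (f := μ) (g := T) (s := S) (fun a _ b _ h => hT h)]
    apply Finset.sum_le_sum_of_subset_of_nonneg
    · intro v hv
      obtain ⟨w, hw, rfl⟩ := Finset.mem_image.1 hv
      exact hSR w hw
    · intro v _ _; exact hμ v
  linarith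

lemma shift_le2 (μ : V → ℝ) (hμ : ∀ v, 0 ≤ μ v) (T T' : V → V) (hT : Function.Injective T)
    (hT' : Function.Injective T') {e e' : ℝ}
    (he : ∑ v, |μ v - μ (T v)| ≤ e) (he' : ∑ v, |μ v - μ (T' v)| ≤ e') (S R : Finset V)
    (hSR : ∀ v ∈ S, T v ∈ R) (hSR' : ∀ v ∈ S, T' v ∈ R)
    (hdis : ∀ v ∈ S, ∀ w ∈ S, T v ≠ T' w) :
    2 * ∑ v ∈ S, μ v ≤ ∑ v ∈ R, μ v + e + e' := by
  have h1 := shift_le μ hμ T hT he S (S.image T) (fun v hv => Finset.mem_image_of_mem _ hv)
  have h2 := shift_le μ hμ T' hT' he' S (S.image T') (fun v hv => Finset.mem_image_of_mem _ hv)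
  have h3 : ∑ v ∈ S.image T, μ v + ∑ v ∈ S.image T', μ v ≤ ∑ v ∈ R, μ v := by
    rw [← Finset.sum_union]
    · apply Finset.sum_le_sum_of_subset_of_nonneg
      · intro v hv
        rcases Finset.mem_union.1 hv with h | h
        · obtain ⟨w, hw, rfl⟩ := Finset.mem_image.1 h; exact hSR w hw
        · obtain ⟨w, hw, rfl⟩ := Finset.mem_image.1 h; exact hSR' w hw
      · intro v _ _; exact hμ v
    · rw [Finset.disjoint_left]
      intro v hv hv'
      obtain ⟨w, hw, rfl⟩ := Finset.mem_image.1 hv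
      obtain ⟨w', hw', h⟩ := Finset.mem_image.1 hv'
      exact hdis w hw w' hw' h.symm
  linarith

end

section
variable {p : ℕ} [NeZero p]

/-- absolute value on `ZMod p` -/
def nn (a : ZMod p) : ℕ := a.valMinAbs.natAbs

lemma nn_neg (a : ZMod p) : nn (-a) = nn a := ZMod.natAbs_valMinAbs_neg a

lemma nn_eq_zero {a : ZMod p} (h : nn a = 0) : a = 0 := by
  unfold nn at h
  rw [Int.natAbs_eq_zero] at h
  exact (ZMod.valMinAbs_eq_zero a).1 h

/-- the shear -/
def shear : (ZMod p × ZMod p) ≃ (ZMod p × ZMod p) where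
  toFun v := (v.1, v.2 + 2 * v.1)
  invFun v := (v.1, v.2 - 2 * v.1)
  left_inv v := by simp
  right_inv v := by simp

def rot : (ZMod p × ZMod p) ≃ (ZMod p × ZMod p) where
  toFun v := (v.2, -v.1)
  invFun v := (-v.2, v.1)
  left_inv v := by simp
  right_inv v := by simp

lemma vma_add {a b : ZMod p} (h : (b.valMinAbs + 2 * a.valMinAbs).natAbs * 2 < p) :
    (b + 2 * a).valMinAbs = b.valMinAbs + 2 * a.valMinAbs := by
  rw [ZMod.valMinAbs_spec]
  refine ⟨?_, ?_, ?_⟩
  · push_cast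
    rfl
  · omega
  · omega

lemma vma_sub {a b : ZMod p} (h : (b.valMinAbs - 2 * a.valMinAbs).natAbs * 2 < p) :
    (b - 2 * a).valMinAbs = b.valMinAbs - 2 * a.valMinAbs := by
  rw [ZMod.valMinAbs_spec]
  refine ⟨?_, ?_, ?_⟩
  · push_cast
    rfl
  · omega
  · omega

theorem comb (μ : ZMod p × ZMod p → ℝ) (hμ : ∀ v, 0 ≤ μ v) {M ε : ℝ} (hM : ∑ v, μ v = M)
    (hε0 : 0 ≤ ε) (hε1 : ε ≤ 1) (hF : ∑ v, |μ v - μ (rot v)| ≤ 2 * ε * M)
    (hD : ∑ v, |μ v - μ (shear.symm v)| ≤ 2 * ε * M)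
    (hbad : ∑ v ∈ Finset.univ.filter (fun v : ZMod p × ZMod p => p ≤ 8 * nn v.2), μ v ≤
      2 * ε ^ 2 * M) : M ≤ μ (0, 0) + 70 * ε * M := by
  classical
  have hM0 : 0 ≤ M := by rw [← hM]; exact Finset.sum_nonneg fun v _ => hμ v
  have hF' : ∑ v, |μ v - μ (rot.symm v)| ≤ 2 * ε * M := by
    rw [← Equiv.sum_comp rot]
    simp only [Equiv.symm_apply_apply]
    simpa only [abs_sub_comm] using hF
  have hD' : ∑ v, |μ v - μ (shear v)| ≤ 2 * ε * M := by
    rw [← Equiv.sum_comp shear.symm]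
    simp only [Equiv.apply_symm_apply]
    simpa only [abs_sub_comm] using hD
  set Bb := Finset.univ.filter (fun v : ZMod p × ZMod p => p ≤ 8 * nn v.2) with hBb
  set Ba := Finset.univ.filter (fun v : ZMod p × ZMod p => p ≤ 8 * nn v.1) with hBa
  set E1 := Finset.univ.filter (fun v : ZMod p × ZMod p => nn v.1 < nn v.2) with hE1
  set E2 := Finset.univ.filter (fun v : ZMod p × ZMod p => nn v.2 < nn v.1) with hE2
  set G2 := Finset.univ.filter (fun v : ZMod p × ZMod p => nn v.2 < nn v.1 ∧ 8 * nn v.1 < p) with hG2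
  set Dp := Finset.univ.filter (fun v : ZMod p × ZMod p => v.2.valMinAbs = v.1.valMinAbs ∧
    nn v.1 ≠ 0 ∧ 8 * nn v.1 < p) with hDp
  set Dm := Finset.univ.filter (fun v : ZMod p × ZMod p => v.2.valMinAbs = - v.1.valMinAbs ∧
    nn v.1 ≠ 0 ∧ 8 * nn v.1 < p) with hDm
  have b1 : ∑ v ∈ Ba, μ v ≤ ∑ v ∈ Bb, μ v + 2 * ε * M := by
    apply shift_le μ hμ rot rot.injective hF
    intro v hv
    simp only [hBa, hBb, Finset.mem_filter, Finset.mem_univ, true_and] at hv ⊢
    change p ≤ 8 * nn (-v.1)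
    rw [nn_neg]; exact hv
  have b2 : ∑ v ∈ E1, μ v ≤ ∑ v ∈ E2, μ v + 2 * ε * M := by
    apply shift_le μ hμ rot rot.injective hF
    intro v hv
    simp only [hE1, hE2, Finset.mem_filter, Finset.mem_univ, true_and] at hv ⊢
    change nn (-v.1) < nn v.2
    rw [nn_neg]; exact hv
  have b3 : 2 * ∑ v ∈ G2, μ v ≤ ∑ v ∈ E1, μ v + 2 * ε * M + 2 * ε * M := by
    apply shift_le2 μ hμ shear shear.symm shear.injective shear.symm.injective hD' hD
    · intro v hv
      simp only [hG2, hE1, Finset.mem_filter, Finset.mem_univ, true_and] at hv ⊢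
      change nn v.1 < nn (v.2 + 2 * v.1)
      unfold nn at hv ⊢
      rw [vma_add (by omega)]
      omega
    · intro v hv
      simp only [hG2, hE1, Finset.mem_filter, Finset.mem_univ, true_and] at hv ⊢
      change nn v.1 < nn (v.2 - 2 * v.1)
      unfold nn at hv ⊢
      rw [vma_sub (by omega)]
      omega
    · intro v hv w hw h
      simp only [hG2, Finset.mem_filter, Finset.mem_univ, true_and] at hv hw
      have h1 : v.1 = w.1 := by
        have : (shear v).1 = (shear.symm w).1 := by rw [h]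
        exact this
      have h2 : v.2 + 2 * v.1 = w.2 - 2 * w.1 := by
        have : (shear v).2 = (shear.symm w).2 := by rw [h]
        exact this
      have h3 : (v.2 + 2 * v.1).valMinAbs = (w.2 - 2 * w.1).valMinAbs := by rw [h2]
      have h4 : v.1.valMinAbs = w.1.valMinAbs := by rw [h1]
      unfold nn at hv hw
      rw [vma_add (by omega), vma_sub (by omega)] at h3
      omega
  have b4 : ∑ v ∈ Dp, μ v ≤ ∑ v ∈ E1, μ v + 2 * ε * M := by
    apply shift_le μ hμ shear shear.injective hD'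
    intro v hv
    simp only [hDp, hE1, Finset.mem_filter, Finset.mem_univ, true_and] at hv ⊢
    change nn v.1 < nn (v.2 + 2 * v.1)
    unfold nn at hv ⊢
    rw [vma_add (by omega)]
    omega
  have b5 : ∑ v ∈ Dm, μ v ≤ ∑ v ∈ E1, μ v + 2 * ε * M := by
    apply shift_le μ hμ shear.symm shear.symm.injective hD
    intro v hv
    simp only [hDm, hE1, Finset.mem_filter, Finset.mem_univ, true_and] at hv ⊢
    change nn v.1 < nn (v.2 - 2 * v.1)
    unfold nn at hv ⊢
    rw [vma_sub (by omega)]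
    omega
  have hsub : ∀ S T : Finset (ZMod p × ZMod p), ∑ v ∈ S ∪ T, μ v ≤ ∑ v ∈ S, μ v + ∑ v ∈ T, μ v := by
    intro S T
    rw [← Finset.sum_union_inter]
    have : 0 ≤ ∑ v ∈ S ∩ T, μ v := Finset.sum_nonneg fun v _ => hμ v
    linarith
  have b6 : ∑ v ∈ E2, μ v ≤ ∑ v ∈ G2, μ v + ∑ v ∈ Ba, μ v := by
    refine le_trans ?_ (hsub G2 Ba)
    apply Finset.sum_le_sum_of_subset_of_nonneg
    · intro v hv
      simp only [hE2, hG2, hBa, Finset.mem_union, Finset.mem_filter, Finset.mem_univ, true_and]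
        at hv ⊢
      by_cases h : 8 * nn v.1 < p
      · exact Or.inl ⟨hv, h⟩
      · exact Or.inr (not_lt.1 h)
    · intro v _ _; exact hμ v
  have b7 : M ≤ ∑ v ∈ ({(0, 0)} : Finset (ZMod p × ZMod p)), μ v + (∑ v ∈ E1, μ v +
      (∑ v ∈ E2, μ v + (∑ v ∈ Dp, μ v + (∑ v ∈ Dm, μ v + ∑ v ∈ Ba, μ v)))) := by
    have h1 : M ≤ ∑ v ∈ {(0, 0)} ∪ (E1 ∪ (E2 ∪ (Dp ∪ (Dm ∪ Ba)))), μ v := by
      rw [← hM]
      apply Finset.sum_le_sum_of_subset_of_nonneg
      · intro v _
        simp only [hE1, hE2, hDp, hDm, hBa, Finset.mem_union, Finset.mem_filter, Finset.mem_univ,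
          true_and, Finset.mem_singleton]
        by_cases h1 : nn v.1 < nn v.2
        · exact Or.inr (Or.inl h1)
        by_cases h2 : nn v.2 < nn v.1
        · exact Or.inr (Or.inr (Or.inl h2))
        by_cases h3 : p ≤ 8 * nn v.1
        · exact Or.inr (Or.inr (Or.inr (Or.inr (Or.inr h3))))
        by_cases h4 : nn v.1 = 0
        · left
          have h5 : nn v.2 = 0 := by omega
          exact Prod.ext (nn_eq_zero h4) (nn_eq_zero h5)
        have h5 : v.2.valMinAbs = v.1.valMinAbs ∨ v.2.valMinAbs = -v.1.valMinAbs := by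
          unfold nn at *
          omega
        rcases h5 with h5 | h5
        · exact Or.inr (Or.inr (Or.inr (Or.inl ⟨h5, h4, by omega⟩)))
        · exact Or.inr (Or.inr (Or.inr (Or.inr (Or.inl ⟨h5, h4, by omega⟩))))
      · intro v _ _; exact hμ v
    refine h1.trans ((hsub _ _).trans (add_le_add_right ((hsub _ _).trans (add_le_add_right
      ((hsub _ _).trans (add_le_add_right ((hsub _ _).trans (add_le_add_right (hsub _ _) _)) _)) _)) _))
  rw [Finset.sum_singleton] at b7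
  have hεM : ε ^ 2 * M ≤ ε * M := by
    apply mul_le_mul_of_nonneg_right _ hM0
    nlinarith
  nlinarith

end

end H93.LP3
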