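import Pool.Agent.H93.LP3.Exp1

open Matrix Complex

namespace H93.LP3

section
variable {p : ℕ} [NeZero p]

noncomputable def ch (a : ZMod p) : ℂ := ZMod.stdAddChar a

lemma ch_add (a b : ZMod p) : ch (a + b) = ch a * ch b := by
  unfold ch; exact AddChar.map_add_eq_mul _ _ _

lemma ch_zero : ch (0 : ZMod p) = 1 := by unfold ch; simp

lemma ch_norm (a : ZMod p) : ‖ch a‖ = 1 := by
  unfold ch; rw [ZMod.stdAddChar_apply]; exact Circle.norm_coe _

lemma ch_neg_mul (a : ZMod p) : ch (-a) * ch a = 1 := by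
  rw [← ch_add]; simp [ch_zero]

lemma ch_conj (a : ZMod p) : star (ch a) = ch (-a) := by
  have h1 : star (ch a) * ch a = 1 := by
    rw [Complex.star_def, ← Complex.normSq_eq_conj_mul_self, Complex.normSq_eq_norm_sq, ch_norm]
    simp
  have h2 := ch_neg_mul a
  have h3 : ch a ≠ 0 := by
    intro h; have := ch_norm a; rw [h] at this; simp at this
  exact mul_right_cancel₀ h3 (h1.trans h2.symm)

lemma ch_sum (b : ZMod p) : ∑ x : ZMod p, ch (x * b) = if b = 0 then (p : ℂ) else 0 := by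
  unfold ch
  rw [AddChar.sum_mulShift b (ZMod.isPrimitive_stdAddChar p)]
  simp [ZMod.card]

lemma ch_bad {b : ZMod p} (h : p ≤ 8 * nn b) : 1 / 2 ≤ ‖1 - ch (-b)‖ ^ 2 := by
  have hp : (0 : ℝ) < p := by exact_mod_cast NeZero.pos p
  set v : ℤ := b.valMinAbs with hv
  have hb : b = (v : ZMod p) := (ZMod.coe_valMinAbs b).symm
  have h1 : ch (-b) = exp (((-(2 * Real.pi * v / p) : ℝ) : ℂ) * I) := by
    unfold ch
    rw [hb, ← Int.cast_neg, ZMod.stdAddChar_coe]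
    congr 1
    push_cast
    ring
  set θ : ℝ := 2 * Real.pi * v / p with hθ
  have h2 : ‖1 - ch (-b)‖ ^ 2 = 2 - 2 * Real.cos θ := by
    rw [h1, ← Complex.normSq_eq_norm_sq, Complex.normSq_apply]
    simp only [Complex.sub_re, Complex.sub_im, Complex.one_re, Complex.one_im,
      Complex.exp_ofReal_mul_I_re, Complex.exp_ofReal_mul_I_im, Real.cos_neg, Real.sin_neg]
    have := Real.sin_sq_add_cos_sq θ
    nlinarith
  have h3 : Real.cos θ = Real.cos |θ| := (Real.cos_abs θ).symm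
  have hvn : (nn b : ℝ) = |(v : ℝ)| := by
    unfold nn
    rw [← hv, ← Int.cast_abs, Int.abs_eq_natAbs]; simp
  have hθa : |θ| = 2 * Real.pi * nn b / p := by
    rw [hθ, abs_div, abs_mul, abs_of_pos (by positivity : (0 : ℝ) < 2 * Real.pi), hvn,
      abs_of_pos hp]
  have h4 : Real.pi / 4 ≤ |θ| := by
    rw [hθa, le_div_iff₀ hp]
    have : (p : ℝ) ≤ 8 * nn b := by exact_mod_cast h
    have hpi := Real.pi_pos
    nlinarith
  have h5 : |θ| ≤ Real.pi := by
    rw [hθa, div_le_iff₀ hp]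
    have h6 : nn b ≤ p / 2 := ZMod.natAbs_valMinAbs_le b
    have h7 : 2 * nn b ≤ p := by omega
    have h8 : 2 * (nn b : ℝ) ≤ p := by exact_mod_cast h7
    have hpi := Real.pi_pos
    nlinarith
  have h6 : Real.cos |θ| ≤ Real.cos (Real.pi / 4) :=
    Real.cos_le_cos_of_nonneg_of_le_pi (by positivity) h5 h4
  rw [Real.cos_pi_div_four] at h6
  have h7 : Real.sqrt 2 ≤ 3 / 2 := by
    rw [Real.sqrt_le_left (by norm_num)]; norm_num
  rw [h2, h3]
  linarith

noncomputable def Dm : Matrix (ZMod p) (ZMod p) ℂ := Matrix.diagonal fun j => ch (j ^ 2)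
noncomputable def Xm : Matrix (ZMod p) (ZMod p) ℂ := Matrix.of fun j k => if j = k + 1 then 1 else 0
noncomputable def Fm : Matrix (ZMod p) (ZMod p) ℂ :=
  Matrix.of fun j k => ((Real.sqrt p)⁻¹ : ℂ) * ch (j * k)

lemma Dm_unit : (Dm : Matrix (ZMod p) (ZMod p) ℂ)ᴴ * Dm = 1 := by
  unfold Dm
  rw [diagonal_conjTranspose, diagonal_mul_diagonal, ← diagonal_one]
  congr 1
  ext j
  simp only [Pi.star_apply, Pi.one_apply]
  rw [ch_conj, ch_neg_mul]

lemma Xm_unit : (Xm : Matrix (ZMod p) (ZMod p) ℂ)ᴴ * Xm = 1 := by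
  ext j k
  rw [mul_apply]
  simp only [Xm, conjTranspose_apply, Matrix.of_apply]
  rw [Finset.sum_eq_single (k + 1)]
  · by_cases h : j = k
    · subst h; simp
    · have : ¬ (k + 1 = j + 1) := fun h' => h (add_right_cancel h').symm
      rw [if_neg this, Matrix.one_apply_ne h]; simp
  · intro b _ hb
    rw [if_neg (c := b = k + 1) hb]; simp
  · simp

lemma sqrt_mul_inv : ((Real.sqrt p)⁻¹ : ℂ) * ((Real.sqrt p)⁻¹ : ℂ) * p = 1 := by
  have hp : (0 : ℝ) < p := by exact_mod_cast NeZero.pos p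
  have h1 : Real.sqrt p * Real.sqrt p = p := Real.mul_self_sqrt hp.le
  have h3 : (((Real.sqrt p)⁻¹ * (Real.sqrt p)⁻¹ * p : ℝ) : ℂ) = 1 := by
    have : (Real.sqrt p)⁻¹ * (Real.sqrt p)⁻¹ * p = 1 := by
      rw [← mul_inv, h1, inv_mul_cancel₀ hp.ne']
    rw [this]; simp
  push_cast at h3
  exact h3

lemma Fm_unit : (Fm : Matrix (ZMod p) (ZMod p) ℂ)ᴴ * Fm = 1 := by
  ext j k
  rw [mul_apply]
  simp only [Fm, conjTranspose_apply, Matrix.of_apply]
  have h1 : ∀ x : ZMod p, star (((Real.sqrt p)⁻¹ : ℂ) * ch (x * j)) *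
      (((Real.sqrt p)⁻¹ : ℂ) * ch (x * k)) =
      ((Real.sqrt p)⁻¹ : ℂ) * ((Real.sqrt p)⁻¹ : ℂ) * ch (x * (k - j)) := by
    intro x
    have e1 : star ((Real.sqrt p)⁻¹ : ℂ) = ((Real.sqrt p)⁻¹ : ℂ) := by
      rw [← Complex.ofReal_inv, Complex.star_def, Complex.conj_ofReal]
    rw [star_mul', e1, ch_conj]
    have e2 : x * (k - j) = -(x * j) + x * k := by ring
    rw [e2, ch_add]; ring
  simp_rw [h1]
  rw [← Finset.mul_sum, ch_sum]
  by_cases h : j = k
  · subst h; simp only [sub_self, if_true, Matrix.one_apply_eq]; exact sqrt_mul_inv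
  · rw [if_neg (sub_ne_zero.2 (Ne.symm h)), Matrix.one_apply_ne h, mul_zero]

/-- Weyl coefficients -/
noncomputable def cf (B : Matrix (ZMod p) (ZMod p) ℂ) (v : ZMod p × ZMod p) : ℂ :=
  ∑ j, B (j + v.1) j * ch (-(v.2 * j))

lemma cf_sub (B B' : Matrix (ZMod p) (ZMod p) ℂ) (v : ZMod p × ZMod p) :
    cf (B - B') v = cf B v - cf B' v := by
  simp only [cf, Matrix.sub_apply, sub_mul, Finset.sum_sub_distrib]

/-- Hilbert–Schmidt norm squared -/
noncomputable def hs {α β : Type*} [Fintype α] [Fintype β] (B : Matrix α β ℂ) : ℝ :=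
  ∑ j, ∑ k, ‖B j k‖ ^ 2

lemma swap3 {A B C : Type*} [Fintype A] [Fintype B] [Fintype C] (f : A → B → C → ℂ) :
    ∑ b, ∑ j, ∑ k, f b j k = ∑ j, ∑ k, ∑ b, f b j k := by
  rw [Finset.sum_comm]
  exact Finset.sum_congr rfl fun _ _ => Finset.sum_comm

lemma parseval1 (f : ZMod p → ℂ) :
    ∑ b : ZMod p, ‖∑ j, f j * ch (-(b * j))‖ ^ 2 = p * ∑ j, ‖f j‖ ^ 2 := by
  have h1 : ∀ b : ZMod p, ((‖∑ j, f j * ch (-(b * j))‖ ^ 2 : ℝ) : ℂ) =
      ∑ j, ∑ k, star (f j) * f k * ch (b * (j - k)) := by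
    intro b
    rw [← Complex.normSq_eq_norm_sq, Complex.normSq_eq_conj_mul_self, map_sum, Finset.sum_mul_sum]
    refine Finset.sum_congr rfl fun j _ => Finset.sum_congr rfl fun k _ => ?_
    rw [map_mul]
    change star (f j) * star (ch (-(b * j))) * _ = _
    rw [ch_conj, neg_neg]
    have e : b * (j - k) = b * j + -(b * k) := by ring
    rw [e, ch_add]; ring
  have h2 : ((∑ b : ZMod p, ‖∑ j, f j * ch (-(b * j))‖ ^ 2 : ℝ) : ℂ) =
      ((p * ∑ j, ‖f j‖ ^ 2 : ℝ) : ℂ) := by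
    rw [Complex.ofReal_sum]
    simp_rw [h1]
    rw [swap3]
    rw [Complex.ofReal_mul, Complex.ofReal_sum, Finset.mul_sum]
    refine Finset.sum_congr rfl fun j _ => ?_
    rw [Finset.sum_eq_single j]
    · rw [← Finset.mul_sum, ch_sum, sub_self, if_pos rfl, Complex.star_def,
        ← Complex.normSq_eq_conj_mul_self, Complex.normSq_eq_norm_sq]
      push_cast; ring
    · intro k _ hk
      rw [← Finset.mul_sum, ch_sum, if_neg (sub_ne_zero.2 (Ne.symm hk)), mul_zero]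
    · simp
  exact_mod_cast h2

lemma parseval (B : Matrix (ZMod p) (ZMod p) ℂ) : ∑ v, ‖cf B v‖ ^ 2 = p * hs B := by
  rw [Fintype.sum_prod_type]
  have h1 : ∀ a : ZMod p, ∑ b : ZMod p, ‖cf B (a, b)‖ ^ 2 = p * ∑ j, ‖B (j + a) j‖ ^ 2 :=
    fun a => parseval1 (fun j => B (j + a) j)
  simp_rw [h1]
  rw [← Finset.mul_sum, Finset.sum_comm, hs, Finset.sum_comm (f := fun j k => ‖B j k‖ ^ 2)]
  congr 1
  refine Finset.sum_congr rfl fun j _ => ?_
  exact Equiv.sum_comp (Equiv.addLeft j) (fun a => ‖B a j‖ ^ 2)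

lemma cf_X (B : Matrix (ZMod p) (ZMod p) ℂ) (v : ZMod p × ZMod p) :
    cf (Xm * B * Xmᴴ) v = ch (-v.2) * cf B v := by
  have h1 : ∀ j k : ZMod p, ((Xm : Matrix (ZMod p) (ZMod p) ℂ) * B * (Xm : Matrix (ZMod p) (ZMod p) ℂ)ᴴ) j k = B (j - 1) (k - 1) := by
    intro j k
    rw [mul_apply, Finset.sum_eq_single (k - 1)]
    · rw [mul_apply, Finset.sum_eq_single (j - 1)]
      · simp [Xm]
      · intro l _ hl
        have : ¬ (j = l + 1) := fun h => hl (by rw [h]; ring)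
        simp [Xm, this]
      · simp
    · intro l _ hl
      have : ¬ (k = l + 1) := fun h => hl (by rw [h]; ring)
      simp [Xm, this]
    · simp
  unfold cf
  rw [← Equiv.sum_comp (Equiv.addRight (1 : ZMod p)), Finset.mul_sum]
  refine Finset.sum_congr rfl fun j _ => ?_
  rw [h1, Equiv.coe_addRight]
  have e1 : j + 1 + v.1 - 1 = j + v.1 := by ring
  have e2 : j + 1 - 1 = j := by ring
  have e3 : -(v.2 * (j + 1)) = -v.2 + -(v.2 * j) := by ring
  rw [e1, e2, e3, ch_add]; ring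

lemma cf_D (B : Matrix (ZMod p) (ZMod p) ℂ) (v : ZMod p × ZMod p) :
    cf (Dm * B * Dmᴴ) v = ch (v.1 ^ 2) * cf B (shear.symm v) := by
  have h1 : ∀ j k : ZMod p, ((Dm : Matrix (ZMod p) (ZMod p) ℂ) * B * (Dm : Matrix (ZMod p) (ZMod p) ℂ)ᴴ) j k = ch (j ^ 2) * B j k * ch (-(k ^ 2)) := by
    intro j k
    unfold Dm
    rw [diagonal_conjTranspose, Matrix.mul_diagonal, Matrix.diagonal_mul, Pi.star_apply, ch_conj]
  change ∑ j, _ = ch (v.1 ^ 2) * ∑ j, B (j + v.1) j * ch (-((v.2 - 2 * v.1) * j))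
  rw [Finset.mul_sum]
  refine Finset.sum_congr rfl fun j _ => ?_
  rw [h1]
  have e1 : ch ((j + v.1) ^ 2) * B (j + v.1) j * ch (-(j ^ 2)) * ch (-(v.2 * j)) =
      B (j + v.1) j * (ch ((j + v.1) ^ 2) * ch (-(j ^ 2)) * ch (-(v.2 * j))) := by ring
  have e2 : ch (v.1 ^ 2) * (B (j + v.1) j * ch (-((v.2 - 2 * v.1) * j))) =
      B (j + v.1) j * (ch (v.1 ^ 2) * ch (-((v.2 - 2 * v.1) * j))) := by ring
  rw [e1, e2, ← ch_add, ← ch_add, ← ch_add]
  congr 2
  ring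

lemma cf_F (B : Matrix (ZMod p) (ZMod p) ℂ) (v : ZMod p × ZMod p) :
    cf (Fm * B * Fmᴴ) v = ch (v.1 * v.2) * cf B (rot v) := by
  have h1 : ∀ k l : ZMod p, ((Fm : Matrix (ZMod p) (ZMod p) ℂ) * B * (Fm : Matrix (ZMod p) (ZMod p) ℂ)ᴴ) k l = ((Real.sqrt p)⁻¹ : ℂ) * ((Real.sqrt p)⁻¹ : ℂ) *
      ∑ j', ∑ j, ch (k * j) * B j j' * ch (-(l * j')) := by
    intro k l
    rw [mul_apply, Finset.mul_sum]
    refine Finset.sum_congr rfl fun j' _ => ?_
    rw [mul_apply, Finset.sum_mul, Finset.mul_sum]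
    refine Finset.sum_congr rfl fun j _ => ?_
    simp only [Fm, Matrix.of_apply, conjTranspose_apply]
    have e1 : star ((Real.sqrt p)⁻¹ : ℂ) = ((Real.sqrt p)⁻¹ : ℂ) := by
      rw [← Complex.ofReal_inv, Complex.star_def, Complex.conj_ofReal]
    rw [star_mul', e1, ch_conj]
    ring
  have h2 : cf (Fm * B * Fmᴴ) v = ((Real.sqrt p)⁻¹ : ℂ) * ((Real.sqrt p)⁻¹ : ℂ) *
      ∑ j', ∑ j, ∑ l, ch (v.1 * j) * B j j' * ch (l * (j - j' - v.2)) := by
    unfold cf
    rw [← swap3, Finset.mul_sum]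
    refine Finset.sum_congr rfl fun l _ => ?_
    rw [h1, mul_assoc, Finset.sum_mul]
    congr 1
    refine Finset.sum_congr rfl fun j' _ => ?_
    rw [Finset.sum_mul]
    refine Finset.sum_congr rfl fun j _ => ?_
    have e1 : ch ((l + v.1) * j) * B j j' * ch (-(l * j')) * ch (-(v.2 * l)) =
        B j j' * (ch ((l + v.1) * j) * ch (-(l * j')) * ch (-(v.2 * l))) := by ring
    have e2 : ch (v.1 * j) * B j j' * ch (l * (j - j' - v.2)) =
        B j j' * (ch (v.1 * j) * ch (l * (j - j' - v.2))) := by ring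
    rw [e1, e2, ← ch_add, ← ch_add, ← ch_add]
    congr 2
    ring
  rw [h2]
  change _ = ch (v.1 * v.2) * ∑ j, B (j + v.2) j * ch (-(-v.1 * j))
  rw [Finset.mul_sum, Finset.mul_sum]
  refine Finset.sum_congr rfl fun j' _ => ?_
  rw [Finset.sum_eq_single (j' + v.2)]
  · rw [← Finset.mul_sum, ch_sum]
    have e1 : j' + v.2 - j' - v.2 = 0 := by ring
    rw [e1, if_pos rfl]
    have e2 : ((Real.sqrt p)⁻¹ : ℂ) * ((Real.sqrt p)⁻¹ : ℂ) *
        (ch (v.1 * (j' + v.2)) * B (j' + v.2) j' * p) =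
        (((Real.sqrt p)⁻¹ : ℂ) * ((Real.sqrt p)⁻¹ : ℂ) * p) *
          (B (j' + v.2) j' * ch (v.1 * (j' + v.2))) := by ring
    have e3 : ch (v.1 * v.2) * (B (j' + v.2) j' * ch (-(-v.1 * j'))) =
        B (j' + v.2) j' * (ch (v.1 * v.2) * ch (-(-v.1 * j'))) := by ring
    rw [e2, e3, sqrt_mul_inv, one_mul, ← ch_add]
    congr 2
    ring
  · intro j _ hj
    rw [← Finset.mul_sum, ch_sum, if_neg, mul_zero]
    intro h
    apply hj
    linear_combination h
  · simp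

end

end H93.LP3
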