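import Pool.Agent.H93.LP3.Exp2

open Matrix Complex

namespace H93.LP3

lemma sum_abs_sq_sub {V : Type*} [Fintype V] (f g : V → ℂ) {M ε : ℝ} (hε : 0 ≤ ε) (hM : 0 ≤ M)
    (hf : ∑ v, ‖f v‖ ^ 2 = M) (hg : ∑ v, ‖g v‖ ^ 2 = M)
    (hfg : ∑ v, ‖f v - g v‖ ^ 2 ≤ ε ^ 2 * M) :
    ∑ v, |‖f v‖ ^ 2 - ‖g v‖ ^ 2| ≤ 2 * ε * M := by
  have h1 : ∀ v, |‖f v‖ ^ 2 - ‖g v‖ ^ 2| ≤ ‖f v - g v‖ * (‖f v‖ + ‖g v‖) := by
    intro v
    have e : ‖f v‖ ^ 2 - ‖g v‖ ^ 2 = (‖f v‖ - ‖g v‖) * (‖f v‖ + ‖g v‖) := by ring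
    rw [e, abs_mul, abs_of_nonneg (by positivity : (0 : ℝ) ≤ ‖f v‖ + ‖g v‖)]
    exact mul_le_mul_of_nonneg_right (abs_norm_sub_norm_le _ _) (by positivity)
  have h2 : (∑ v, ‖f v - g v‖ * (‖f v‖ + ‖g v‖)) ^ 2 ≤
      (∑ v, ‖f v - g v‖ ^ 2) * (∑ v, (‖f v‖ + ‖g v‖) ^ 2) :=
    Finset.sum_mul_sq_le_sq_mul_sq _ _ _
  have h3 : ∑ v, (‖f v‖ + ‖g v‖) ^ 2 ≤ 4 * M := by
    have : ∑ v, (‖f v‖ + ‖g v‖) ^ 2 ≤ ∑ v, (2 * ‖f v‖ ^ 2 + 2 * ‖g v‖ ^ 2) :=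
      Finset.sum_le_sum fun v _ => by nlinarith [sq_nonneg (‖f v‖ - ‖g v‖)]
    rw [Finset.sum_add_distrib, ← Finset.mul_sum, ← Finset.mul_sum, hf, hg] at this
    linarith
  have h4 : (∑ v, ‖f v - g v‖ * (‖f v‖ + ‖g v‖)) ^ 2 ≤ (2 * ε * M) ^ 2 := by
    calc _ ≤ _ := h2
      _ ≤ (ε ^ 2 * M) * (4 * M) :=
        mul_le_mul hfg h3 (Finset.sum_nonneg fun _ _ => sq_nonneg _) (by positivity)
      _ = _ := by ring
  refine (Finset.sum_le_sum fun v _ => h1 v).trans ?_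
  exact (le_abs_self _).trans (abs_le_of_sq_le_sq h4 (by positivity))

section
variable {p : ℕ} [NeZero p]

lemma hs_nonneg {α β : Type*} [Fintype α] [Fintype β] (B : Matrix α β ℂ) : 0 ≤ hs B :=
  Finset.sum_nonneg fun _ _ => Finset.sum_nonneg fun _ _ => sq_nonneg _

theorem core (B : Matrix (ZMod p) (ZMod p) ℂ) {ε : ℝ} (hε0 : 0 ≤ ε) (hε1 : ε ≤ 1)
    (hD : hs (B - (Dm : Matrix (ZMod p) (ZMod p) ℂ) * B * (Dm : Matrix (ZMod p) (ZMod p) ℂ)ᴴ)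
      ≤ ε ^ 2 * hs B)
    (hF : hs (B - (Fm : Matrix (ZMod p) (ZMod p) ℂ) * B * (Fm : Matrix (ZMod p) (ZMod p) ℂ)ᴴ)
      ≤ ε ^ 2 * hs B)
    (hX : hs (B - (Xm : Matrix (ZMod p) (ZMod p) ℂ) * B * (Xm : Matrix (ZMod p) (ZMod p) ℂ)ᴴ)
      ≤ ε ^ 2 * hs B) :
    p * hs B ≤ ‖B.trace‖ ^ 2 + 70 * ε * (p * hs B) := by
  have hp : (0 : ℝ) < p := by exact_mod_cast NeZero.pos p
  set M : ℝ := p * hs B with hM
  have hM0 : 0 ≤ M := mul_nonneg hp.le (hs_nonneg B)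
  have h0 : ∑ v, ‖cf B v‖ ^ 2 = M := parseval B
  have k0 : ‖cf B (0, 0)‖ ^ 2 = ‖B.trace‖ ^ 2 := by
    have : cf B (0, 0) = B.trace := by
      unfold cf Matrix.trace
      refine Finset.sum_congr rfl fun j _ => ?_
      simp [ch_zero]
    rw [this]
  have kF : ∑ v, |‖cf B v‖ ^ 2 - ‖cf B (rot v)‖ ^ 2| ≤ 2 * ε * M := by
    have e1 : ∀ v, ‖ch (v.1 * v.2) * cf B (rot v)‖ = ‖cf B (rot v)‖ := fun v => by
      rw [norm_mul, ch_norm, one_mul]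
    have := sum_abs_sq_sub (fun v => cf B v) (fun v => ch (v.1 * v.2) * cf B (rot v)) hε0 hM0 h0
      (by simp_rw [e1]; rw [← h0]; exact Equiv.sum_comp rot (fun v => ‖cf B v‖ ^ 2))
      (by
        have e2 : ∀ v, cf B v - ch (v.1 * v.2) * cf B (rot v) =
            cf (B - (Fm : Matrix (ZMod p) (ZMod p) ℂ) * B *
              (Fm : Matrix (ZMod p) (ZMod p) ℂ)ᴴ) v := fun v => by rw [cf_sub, cf_F]
        simp_rw [e2]
        rw [parseval, hM]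
        nlinarith)
    simp_rw [e1] at this
    exact this
  have kD : ∑ v, |‖cf B v‖ ^ 2 - ‖cf B (shear.symm v)‖ ^ 2| ≤ 2 * ε * M := by
    have e1 : ∀ v, ‖ch (v.1 ^ 2) * cf B (shear.symm v)‖ = ‖cf B (shear.symm v)‖ := fun v => by
      rw [norm_mul, ch_norm, one_mul]
    have := sum_abs_sq_sub (fun v => cf B v) (fun v => ch (v.1 ^ 2) * cf B (shear.symm v)) hε0 hM0
      h0
      (by simp_rw [e1]; rw [← h0]; exact Equiv.sum_comp shear.symm (fun v => ‖cf B v‖ ^ 2))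
      (by
        have e2 : ∀ v, cf B v - ch (v.1 ^ 2) * cf B (shear.symm v) =
            cf (B - (Dm : Matrix (ZMod p) (ZMod p) ℂ) * B *
              (Dm : Matrix (ZMod p) (ZMod p) ℂ)ᴴ) v := fun v => by rw [cf_sub, cf_D]
        simp_rw [e2]
        rw [parseval, hM]
        nlinarith)
    simp_rw [e1] at this
    exact this
  have kX : ∑ v ∈ Finset.univ.filter (fun v : ZMod p × ZMod p => p ≤ 8 * nn v.2), ‖cf B v‖ ^ 2 ≤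
      2 * ε ^ 2 * M := by
    have e1 : ∑ v, ‖cf B v - ch (-v.2) * cf B v‖ ^ 2 ≤ ε ^ 2 * M := by
      have e2 : ∀ v, cf B v - ch (-v.2) * cf B v =
          cf (B - (Xm : Matrix (ZMod p) (ZMod p) ℂ) * B *
            (Xm : Matrix (ZMod p) (ZMod p) ℂ)ᴴ) v := fun v => by rw [cf_sub, cf_X]
      simp_rw [e2]
      rw [parseval, hM]
      nlinarith
    have e3 : ∑ v ∈ Finset.univ.filter (fun v : ZMod p × ZMod p => p ≤ 8 * nn v.2),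
        ‖cf B v‖ ^ 2 ≤ ∑ v ∈ Finset.univ.filter (fun v : ZMod p × ZMod p => p ≤ 8 * nn v.2),
        2 * ‖cf B v - ch (-v.2) * cf B v‖ ^ 2 := by
      refine Finset.sum_le_sum fun v hv => ?_
      have h1 := ch_bad (Finset.mem_filter.1 hv).2
      have h2 : cf B v - ch (-v.2) * cf B v = (1 - ch (-v.2)) * cf B v := by ring
      rw [h2, norm_mul, mul_pow]
      nlinarith [sq_nonneg ‖cf B v‖]
    have e4 : ∑ v ∈ Finset.univ.filter (fun v : ZMod p × ZMod p => p ≤ 8 * nn v.2),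
        2 * ‖cf B v - ch (-v.2) * cf B v‖ ^ 2 ≤ ∑ v, 2 * ‖cf B v - ch (-v.2) * cf B v‖ ^ 2 :=
      Finset.sum_le_sum_of_subset_of_nonneg (Finset.subset_univ _) fun _ _ _ => by positivity
    have e5 : ∑ v, 2 * ‖cf B v - ch (-v.2) * cf B v‖ ^ 2 =
        2 * ∑ v, ‖cf B v - ch (-v.2) * cf B v‖ ^ 2 := by rw [Finset.mul_sum]
    rw [e5] at e4
    have e6 := e3.trans e4
    linarith
  have := comb (fun v => ‖cf B v‖ ^ 2) (fun v => sq_nonneg _) h0 hε0 hε1 kF kD kX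
  rw [k0] at this
  exact this

end

end H93.LP3
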