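import Pool.Agent.H93.LP3.Enc2
import Pool.Agent.H93.LP3.Exp3

open Matrix Complex
open scoped ComplexOrder

namespace H93.LP3

section PS
variable {κ : Type} [Fintype κ] [DecidableEq κ]

lemma hs_eq {α β : Type*} [Fintype α] [Fintype β] (B : Matrix α β ℂ) :
    ((hs B : ℝ) : ℂ) = (Bᴴ * B).trace := by
  unfold hs Matrix.trace
  simp only [diag_apply, mul_apply, conjTranspose_apply]
  rw [Finset.sum_comm]
  push_cast
  refine Finset.sum_congr rfl fun j _ => Finset.sum_congr rfl fun k _ => ?_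
  rw [Complex.star_def, ← Complex.normSq_eq_conj_mul_self, Complex.normSq_eq_norm_sq]
  push_cast; rfl

lemma hs_eq_re {α β : Type*} [Fintype α] [Fintype β] (B : Matrix α β ℂ) :
    hs B = (Bᴴ * B).trace.re := by rw [← hs_eq, Complex.ofReal_re]

lemma spec (T : Matrix κ κ ℂ) (hT : T.IsHermitian) : ∃ V : Matrix κ κ ℂ,
    Vᴴ * V = 1 ∧ V * Vᴴ = 1 ∧ T = V * diagonal (fun i => (hT.eigenvalues i : ℂ)) * Vᴴ := by
  refine ⟨(hT.eigenvectorUnitary : Matrix κ κ ℂ), ?_, ?_, ?_⟩
  · rw [← star_eq_conjTranspose]; exact Unitary.coe_star_mul_self _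
  · rw [← star_eq_conjTranspose]; exact Unitary.coe_mul_star_self _
  · have h := hT.spectral_theorem
    rw [Unitary.conjStarAlgAut_apply] at h
    exact h

lemma conj_mul {V : Matrix κ κ ℂ} (hV : Vᴴ * V = 1) (d d' : κ → ℂ) :
    (V * diagonal d * Vᴴ) * (V * diagonal d' * Vᴴ) = V * diagonal (fun i => d i * d' i) * Vᴴ := by
  have : (V * diagonal d * Vᴴ) * (V * diagonal d' * Vᴴ) =
      V * diagonal d * (Vᴴ * V) * diagonal d' * Vᴴ := by simp only [Matrix.mul_assoc]
  rw [this, hV, Matrix.mul_one, Matrix.mul_assoc V, diagonal_mul_diagonal]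

lemma conj_psd (V : Matrix κ κ ℂ) {d : κ → ℂ} (hd : ∀ i, 0 ≤ d i) :
    (V * diagonal d * Vᴴ).PosSemidef :=
  (posSemidef_diagonal_iff.2 hd).mul_mul_conjTranspose_same V

lemma exists_sign (T : Matrix κ κ ℂ) (hT : T.IsHermitian) : ∃ s : Matrix κ κ ℂ, sᴴ = s ∧
    s * s = 1 ∧ s * T = T * s ∧ (s * T + T).PosSemidef ∧ (s * T - T).PosSemidef := by
  obtain ⟨V, hV, hV', h⟩ := spec T hT
  set d : κ → ℂ := fun i => (hT.eigenvalues i : ℂ) with hd
  set g : κ → ℂ := fun i => if 0 ≤ hT.eigenvalues i then 1 else -1 with hg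
  have hgg : ∀ i, g i * g i = 1 := by intro i; simp only [hg]; split_ifs <;> ring
  refine ⟨V * diagonal g * Vᴴ, ?_, ?_, ?_, ?_, ?_⟩
  · rw [conjTranspose_mul, conjTranspose_mul, conjTranspose_conjTranspose,
      diagonal_conjTranspose, ← Matrix.mul_assoc]
    have : star g = g := by
      funext i; simp only [hg, Pi.star_apply]; split_ifs <;> simp
    rw [this]
  · rw [conj_mul hV]
    simp_rw [hgg]
    rw [diagonal_one, Matrix.mul_one, hV']
  · rw [h, conj_mul hV, conj_mul hV]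
    simp_rw [mul_comm]
  · have e : V * diagonal g * Vᴴ * T + T = V * diagonal (fun i => g i * d i + d i) * Vᴴ := by
      conv_lhs => rw [h]
      rw [conj_mul hV, ← diagonal_add, Matrix.mul_add, Matrix.add_mul]
    rw [e]
    apply conj_psd
    intro i
    simp only [hg, hd]
    split_ifs with h0
    · have : (1 : ℂ) * (hT.eigenvalues i : ℂ) + (hT.eigenvalues i : ℂ) =
        ((2 * hT.eigenvalues i : ℝ) : ℂ) := by push_cast; ring
      rw [this]; exact_mod_cast (by positivity : 0 ≤ 2 * hT.eigenvalues i)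
    · have : (-1 : ℂ) * (hT.eigenvalues i : ℂ) + (hT.eigenvalues i : ℂ) = 0 := by ring
      rw [this]
  · have e : V * diagonal g * Vᴴ * T - T = V * diagonal (fun i => g i * d i - d i) * Vᴴ := by
      conv_lhs => rw [h]
      rw [conj_mul hV, ← diagonal_sub, Matrix.mul_sub, Matrix.sub_mul]
    rw [e]
    apply conj_psd
    intro i
    simp only [hg, hd]
    split_ifs with h0
    · have : (1 : ℂ) * (hT.eigenvalues i : ℂ) - (hT.eigenvalues i : ℂ) = 0 := by ring
      rw [this]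
    · have : (-1 : ℂ) * (hT.eigenvalues i : ℂ) - (hT.eigenvalues i : ℂ) =
        ((-2 * hT.eigenvalues i : ℝ) : ℂ) := by push_cast; ring
      rw [this]
      have h1 : hT.eigenvalues i < 0 := not_le.1 h0
      have h2 : 0 ≤ -2 * hT.eigenvalues i := by linarith
      exact_mod_cast h2

lemma exists_sqrt (R : Matrix κ κ ℂ) (hR : R.PosSemidef) : ∃ A : Matrix κ κ ℂ,
    A.PosSemidef ∧ A * A = R := by
  obtain ⟨V, hV, hV', h⟩ := spec R hR.isHermitian
  refine ⟨V * diagonal (fun i => ((Real.sqrt (hR.isHermitian.eigenvalues i) : ℝ) : ℂ)) * Vᴴ,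
    ?_, ?_⟩
  · apply conj_psd
    intro i
    exact_mod_cast Real.sqrt_nonneg _
  · rw [conj_mul hV]
    conv_rhs => rw [h]
    congr 3
    funext i
    rw [← Complex.ofReal_mul, Real.mul_self_sqrt (hR.eigenvalues_nonneg i)]

lemma tr_psd_mul {A B : Matrix κ κ ℂ} (hA : A.PosSemidef) (hB : B.PosSemidef) :
    0 ≤ (A * B).trace.re := by
  obtain ⟨X, rfl⟩ := exists_factor hA
  have h1 : (Xᴴ * X * B).trace = (X * B * Xᴴ).trace := by
    rw [Matrix.mul_assoc, Matrix.trace_mul_comm]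
  rw [h1]
  exact (Complex.le_def.1 (hB.mul_mul_conjTranspose_same X).trace_nonneg).1

lemma powers_stormer {A A' : Matrix κ κ ℂ} (hA : A.PosSemidef) (hA' : A'.PosSemidef) :
    ∃ s : Matrix κ κ ℂ, sᴴ = s ∧ s * s = 1 ∧
      hs (A - A') ≤ (s * (A * A - A' * A')).trace.re := by
  have hT : (A - A').IsHermitian := hA.isHermitian.sub hA'.isHermitian
  obtain ⟨s, hs1, hs2, hs3, hs4, hs5⟩ := exists_sign _ hT
  refine ⟨s, hs1, hs2, ?_⟩
  set T := A - A' with hTdef
  have h1 := tr_psd_mul hs5 hA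
  have h2 := tr_psd_mul hs4 hA'
  have h3 : (2 : ℂ) * (s * (A * A - A' * A')).trace = 2 * (s * T * (A + A')).trace := by
    have e1 : (s * (T * (A + A'))).trace + (s * ((A + A') * T)).trace =
        2 * (s * T * (A + A')).trace := by
      have : (s * ((A + A') * T)).trace = (s * T * (A + A')).trace := by
        rw [← Matrix.mul_assoc, Matrix.trace_mul_comm, ← Matrix.mul_assoc, hs3]
      rw [this, ← Matrix.mul_assoc]; ring
    rw [← e1, ← Matrix.trace_add, ← Matrix.mul_add]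
    have e2 : T * (A + A') + (A + A') * T = (A * A - A' * A') + (A * A - A' * A') := by
      rw [hTdef]; noncomm_ring
    rw [e2, Matrix.mul_add, Matrix.trace_add]; ring
  have h4 : (s * (A * A - A' * A')).trace = (s * T * (A + A')).trace :=
    mul_left_cancel₀ two_ne_zero h3
  have h5 : hs T = (T * A).trace.re - (T * A').trace.re := by
    rw [hs_eq_re, hT.eq, ← Complex.sub_re, ← Matrix.trace_sub, ← Matrix.mul_sub]
  have h6 : (s * T * (A + A')).trace.re = ((s * T - T) * A).trace.re +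
      ((s * T + T) * A').trace.re + ((T * A).trace.re - (T * A').trace.re) := by
    rw [Matrix.sub_mul, Matrix.add_mul, Matrix.mul_add, Matrix.trace_add, Matrix.trace_add,
      Matrix.trace_sub, Complex.add_re, Complex.add_re, Complex.sub_re]
    ring
  rw [h4, h6, h5]
  linarith

lemma tr_cs (Y Z : Matrix κ κ ℂ) : ‖(Yᴴ * Z).trace‖ ≤ Real.sqrt (hs Y) * Real.sqrt (hs Z) := by
  have h1 : (Yᴴ * Z).trace = ∑ v : κ × κ, star (Y v.2 v.1) * Z v.2 v.1 := by
    rw [Fintype.sum_prod_type]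
    rfl
  have h2 : ∀ W : Matrix κ κ ℂ, hs W = ∑ v : κ × κ, ‖W v.2 v.1‖ ^ 2 := by
    intro W
    rw [Fintype.sum_prod_type, hs, Finset.sum_comm]
  rw [h1, h2, h2]
  refine (norm_sum_le _ _).trans ?_
  simp_rw [norm_mul, norm_star]
  exact Real.sum_mul_le_sqrt_mul_sqrt _ _ _

lemma single_bound {X e s : Matrix κ κ ℂ} (hX : X.PosSemidef) (he : eᴴ = e) (hee : e * e = e)
    (hs1 : sᴴ = s) (hs2 : s * s = 1) :
    (s * (X - e * X * e)).trace.re ≤
      2 * (Real.sqrt X.trace.re * Real.sqrt (X.trace.re - (X * e).trace.re)) := by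
  obtain ⟨B, rfl⟩ := exists_factor hX
  set q : Matrix κ κ ℂ := 1 - e with hq
  have hq1 : qᴴ = q := by rw [hq, conjTranspose_sub, conjTranspose_one, he]
  have hq2 : q * q = q := by rw [hq]; simp [mul_sub, sub_mul, hee]
  have e1 : Bᴴ * B - e * (Bᴴ * B) * e = Bᴴ * B * q + q * (Bᴴ * B) * e := by
    rw [hq]; noncomm_ring
  have e2 : (s * (Bᴴ * B * q)).trace = ((B * s)ᴴ * (B * q)).trace := by
    rw [conjTranspose_mul, hs1]; simp only [Matrix.mul_assoc]
  have e3 : (s * (q * (Bᴴ * B) * e)).trace = ((B * q * s)ᴴ * (B * e)).trace := by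
    rw [conjTranspose_mul, conjTranspose_mul, hs1, hq1]; simp only [Matrix.mul_assoc]
  have k1 : hs (B * s) = (Bᴴ * B).trace.re := by
    rw [hs_eq_re, conjTranspose_mul, hs1, Matrix.mul_assoc, Matrix.trace_mul_comm,
      Matrix.mul_assoc, Matrix.mul_assoc, hs2, Matrix.mul_one]
  have kq : ((Bᴴ * B) * q).trace.re = (Bᴴ * B).trace.re - ((Bᴴ * B) * e).trace.re := by
    rw [hq, Matrix.mul_sub, Matrix.mul_one, Matrix.trace_sub, Complex.sub_re]
  have k2 : hs (B * q) = (Bᴴ * B).trace.re - ((Bᴴ * B) * e).trace.re := by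
    rw [← kq, hs_eq_re, conjTranspose_mul, hq1, Matrix.mul_assoc, Matrix.trace_mul_comm,
      Matrix.mul_assoc, Matrix.mul_assoc, hq2, Matrix.mul_assoc]
  have k3 : hs (B * q * s) = (Bᴴ * B).trace.re - ((Bᴴ * B) * e).trace.re := by
    rw [← k2, hs_eq_re, hs_eq_re, conjTranspose_mul, hs1, Matrix.mul_assoc, Matrix.trace_mul_comm,
      Matrix.mul_assoc, Matrix.mul_assoc, hs2, Matrix.mul_one]
  have k4 : hs (B * e) ≤ (Bᴴ * B).trace.re := by
    have h1 : hs (B * e) = ((Bᴴ * B) * e).trace.re := by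
      rw [hs_eq_re, conjTranspose_mul, he, Matrix.mul_assoc, Matrix.trace_mul_comm,
        Matrix.mul_assoc, Matrix.mul_assoc, hee, Matrix.mul_assoc]
    have h2 : 0 ≤ hs (B * q) := hs_nonneg _
    rw [h1]; rw [k2] at h2; linarith
  rw [e1, Matrix.mul_add, Matrix.trace_add, Complex.add_re, e2, e3]
  have a1 := (Complex.re_le_norm _).trans (tr_cs (B * s) (B * q))
  have a2 := (Complex.re_le_norm _).trans (tr_cs (B * q * s) (B * e))
  rw [k1, k2] at a1
  rw [k3] at a2
  have a3 := Real.sqrt_le_sqrt k4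
  have a4 := mul_le_mul_of_nonneg_left a3
    (Real.sqrt_nonneg ((Bᴴ * B).trace.re - ((Bᴴ * B) * e).trace.re))
  linarith

lemma one_sided {U : Matrix κ κ ℂ} (hU : Uᴴ * U = 1) (hU' : U * Uᴴ = 1)
    {e : Fin 8 → Matrix κ κ ℂ} (he : IsPVM e) {c : Fin 8 → ℂ} (hc : ∀ i, ‖c i‖ = 1)
    (hUe : ∀ i, U * e i = c i • e i) {X : Fin 8 → Matrix κ κ ℂ} (hX : ∀ i, (X i).PosSemidef)
    {A : Matrix κ κ ℂ} (hA : A.PosSemidef) (hAX : A * A = ∑ i, X i) {γ : ℝ} (hγ : 0 ≤ γ)
    (h : (1 - γ) * (A * A).trace.re ≤ ∑ i, (X i * e i).trace.re) :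
    hs (A - U * A * Uᴴ) ≤ 4 * Real.sqrt γ * (A * A).trace.re := by
  have hA' : (U * A * Uᴴ).PosSemidef := hA.mul_mul_conjTranspose_same U
  obtain ⟨s, hs1, hs2, hps⟩ := powers_stormer hA hA'
  refine hps.trans ?_
  have e1 : U * A * Uᴴ * (U * A * Uᴴ) = U * (∑ i, X i) * Uᴴ := by
    rw [← hAX]
    have : U * A * Uᴴ * (U * A * Uᴴ) = U * A * (Uᴴ * U) * A * Uᴴ := by
      simp only [Matrix.mul_assoc]
    rw [this, hU, Matrix.mul_one]; simp only [Matrix.mul_assoc]
  have e2 : ∀ i, U * (e i * X i * e i) * Uᴴ = e i * X i * e i := by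
    intro i
    have h1 : e i * Uᴴ = star (c i) • e i := by
      have := congrArg conjTranspose (hUe i)
      rw [conjTranspose_mul, conjTranspose_smul, he.herm] at this
      exact this
    have h2 : U * (e i * X i * e i) * Uᴴ = (U * e i) * X i * (e i * Uᴴ) := by
      simp only [Matrix.mul_assoc]
    rw [h2, h1, hUe, Matrix.smul_mul, Matrix.smul_mul, Matrix.mul_smul, smul_smul]
    have : c i * star (c i) = 1 := by
      rw [mul_comm, Complex.star_def, ← Complex.normSq_eq_conj_mul_self,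
        Complex.normSq_eq_norm_sq, hc]; simp
    rw [this, one_smul]
  have e3 : A * A - U * A * Uᴴ * (U * A * Uᴴ) =
      ∑ i, ((X i - e i * X i * e i) - U * (X i - e i * X i * e i) * Uᴴ) := by
    rw [e1, hAX, Finset.mul_sum, Finset.sum_mul, ← Finset.sum_sub_distrib]
    refine Finset.sum_congr rfl fun i _ => ?_
    rw [Matrix.mul_sub, Matrix.sub_mul, e2]
    abel
  have e4 : (s * (A * A - U * A * Uᴴ * (U * A * Uᴴ))).trace.re =
      ∑ i, ((s * (X i - e i * X i * e i)).trace.re +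
        ((-(Uᴴ * s * U)) * (X i - e i * X i * e i)).trace.re) := by
    rw [e3, Finset.mul_sum, Matrix.trace_sum, Complex.re_sum]
    refine Finset.sum_congr rfl fun i _ => ?_
    rw [Matrix.mul_sub, Matrix.trace_sub, Complex.sub_re, Matrix.neg_mul, Matrix.trace_neg,
      Complex.neg_re, ← sub_eq_add_neg]
    congr 2
    rw [← Matrix.mul_assoc, Matrix.trace_mul_comm]
    simp only [Matrix.mul_assoc]
  have t1 : (-(Uᴴ * s * U))ᴴ = -(Uᴴ * s * U) := by
    rw [conjTranspose_neg, conjTranspose_mul, conjTranspose_mul, conjTranspose_conjTranspose,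
      hs1, Matrix.mul_assoc]
  have t2 : (-(Uᴴ * s * U)) * (-(Uᴴ * s * U)) = 1 := by
    have : (-(Uᴴ * s * U)) * (-(Uᴴ * s * U)) = Uᴴ * s * (U * Uᴴ) * s * U := by
      rw [Matrix.neg_mul, Matrix.mul_neg, neg_neg]; simp only [Matrix.mul_assoc]
    rw [this, hU', Matrix.mul_one, Matrix.mul_assoc Uᴴ, hs2, Matrix.mul_one, hU]
  rw [e4]
  have b1 : ∀ i, (s * (X i - e i * X i * e i)).trace.re +
        ((-(Uᴴ * s * U)) * (X i - e i * X i * e i)).trace.re ≤
      4 * (Real.sqrt (X i).trace.re * Real.sqrt ((X i).trace.re - (X i * e i).trace.re)) := by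
    intro i
    have a1 := single_bound (hX i) (he.herm i) (he.idem i) hs1 hs2
    have a2 := single_bound (hX i) (he.herm i) (he.idem i) t1 t2
    linarith
  refine (Finset.sum_le_sum fun i _ => b1 i).trans ?_
  rw [← Finset.mul_sum]
  have b2 : ∑ i, Real.sqrt (X i).trace.re * Real.sqrt ((X i).trace.re - (X i * e i).trace.re) ≤
      Real.sqrt (∑ i, (X i).trace.re) *
        Real.sqrt (∑ i, ((X i).trace.re - (X i * e i).trace.re)) := by
    have q1 : ∀ i, 0 ≤ (X i).trace.re := fun i => (Complex.le_def.1 (hX i).trace_nonneg).1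
    have q2 : ∀ i, 0 ≤ (X i).trace.re - (X i * e i).trace.re := by
      intro i
      have hp : (1 - e i).PosSemidef := by
        have : (1 - e i) = (1 - e i)ᴴ * (1 - e i) := by
          rw [conjTranspose_sub, conjTranspose_one, he.herm]
          simp [mul_sub, sub_mul, he.idem]
        rw [this]; exact posSemidef_conjTranspose_mul_self _
      have := tr_psd_mul (hX i) hp
      rw [Matrix.mul_sub, Matrix.mul_one, Matrix.trace_sub, Complex.sub_re] at this
      exact this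
    have := Real.sum_mul_le_sqrt_mul_sqrt Finset.univ (fun i => Real.sqrt (X i).trace.re)
      (fun i => Real.sqrt ((X i).trace.re - (X i * e i).trace.re))
    simp only [Real.sq_sqrt (q1 _), Real.sq_sqrt (q2 _)] at this
    exact this
  have b3 : ∑ i, (X i).trace.re = (A * A).trace.re := by
    rw [hAX, Matrix.trace_sum, Complex.re_sum]
  have b4 : ∑ i, ((X i).trace.re - (X i * e i).trace.re) ≤ γ * (A * A).trace.re := by
    rw [Finset.sum_sub_distrib, b3]; linarith
  have b5 : 0 ≤ (A * A).trace.re := tr_psd_mul hA hA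
  rw [b3] at b2
  have b6 := Real.sqrt_le_sqrt b4
  rw [Real.sqrt_mul hγ] at b6
  have b7 := mul_le_mul_of_nonneg_left b6 (Real.sqrt_nonneg (A * A).trace.re)
  have b8 : Real.sqrt (A * A).trace.re * (Real.sqrt γ * Real.sqrt (A * A).trace.re) =
      Real.sqrt γ * (A * A).trace.re := by
    rw [mul_comm (Real.sqrt γ), ← mul_assoc, Real.mul_self_sqrt b5, mul_comm]
  linarith

end PS

end H93.LP3
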