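import Pool.Agent.H93.LP3.Enc

open Polynomial

namespace H93.LP3

lemma tt_inj : Function.Injective tt := by
  intro i j h
  unfold tt at h
  have : ((i : ℕ) : ℝ) = (j : ℕ) := by linarith
  exact Fin.ext (by exact_mod_cast this)

lemma tt_injOn : Set.InjOn tt (Finset.univ : Finset (Fin 8)) := tt_inj.injOn

/-- Lagrange basis polynomials of the nodes `1,…,8`. -/
noncomputable def el (i : Fin 8) : ℝ[X] := Lagrange.basis Finset.univ tt i

noncomputable def qp : ℝ[X] := Lagrange.nodal Finset.univ tt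

lemma el_self (i : Fin 8) : (el i).eval (tt i) = 1 :=
  Lagrange.eval_basis_self tt_injOn (Finset.mem_univ i)

lemma el_ne {i j : Fin 8} (h : i ≠ j) : (el i).eval (tt j) = 0 :=
  Lagrange.eval_basis_of_ne h (Finset.mem_univ j)

lemma qp_node (i : Fin 8) : qp.eval (tt i) = 0 := Lagrange.eval_nodal_at_node (Finset.mem_univ i)

lemma qp_natDegree : qp.natDegree = 8 := by
  unfold qp; rw [Lagrange.natDegree_nodal]; simp

lemma qp_monic : qp.Monic := Lagrange.nodal_monic

lemma el_natDegree (i : Fin 8) : (el i).natDegree = 7 := by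
  unfold el; rw [Lagrange.natDegree_basis tt_injOn (Finset.mem_univ i)]; simp

lemma el_coeff7 (i : Fin 8) : (el i).coeff 7 = - (sg i * Nat.choose 7 i) / 5040 := by
  have h : (el i).coeff 7 = (el i).leadingCoeff := by rw [leadingCoeff, el_natDegree]
  rw [h]
  unfold el
  rw [Lagrange.leadingCoeff_basis tt_injOn (Finset.mem_univ i)]
  have h2 : ∏ j ∈ Finset.univ.erase i, (tt i - tt j) =
      ∏ j, (if j = i then 1 else (tt i - tt j)) := by
    rw [← Finset.prod_erase (s := Finset.univ) (a := i)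
      (f := fun j => if j = i then 1 else tt i - tt j) (by simp)]
    refine Finset.prod_congr rfl fun j hj => ?_
    rw [if_neg (Finset.ne_of_mem_erase hj)]
  rw [h2, Fin.prod_univ_eight]
  fin_cases i <;> simp [sg, tt, Nat.choose] <;> norm_num

lemma poly_bound (p : ℝ[X]) (n : ℕ) (hn : p.natDegree ≤ n) :
    ∃ S : ℝ, 0 ≤ S ∧ ∀ t : ℝ, 0 ≤ t → |p.eval t| ≤ S * (1 + t) ^ n := by
  refine ⟨∑ k ∈ Finset.range (n + 1), |p.coeff k|, Finset.sum_nonneg fun _ _ => abs_nonneg _,
    fun t ht => ?_⟩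
  rw [eval_eq_sum_range' (Nat.lt_succ_of_le hn), Finset.sum_mul]
  refine (Finset.abs_sum_le_sum_abs _ _).trans (Finset.sum_le_sum fun k hk => ?_)
  rw [abs_mul, abs_of_nonneg (pow_nonneg ht k)]
  refine mul_le_mul_of_nonneg_left ?_ (abs_nonneg _)
  have hk' : k ≤ n := Nat.lt_succ_iff.1 (Finset.mem_range.1 hk)
  calc t ^ k ≤ (1 + t) ^ k := pow_le_pow_left₀ ht (by linarith) k
    _ ≤ (1 + t) ^ n := pow_le_pow_right₀ (by linarith) hk'

/-- The error polynomial. -/
noncomputable def ep (i : Fin 8) : ℝ[X] := el i * (C (1 / tt i ^ 5) * X ^ 5 - el i)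

lemma ep_eval (i : Fin 8) (t : ℝ) :
    (ep i).eval t = (el i).eval t * ((t / tt i) ^ 5 - (el i).eval t) := by
  simp only [ep, eval_mul, eval_sub, eval_C, eval_pow, eval_X]
  rw [div_pow]; ring

lemma ep_node (i j : Fin 8) : (ep i).eval (tt j) = 0 := by
  rw [ep_eval]
  by_cases h : i = j
  · subst h
    rw [el_self, div_self (tt_pos i).ne']; ring
  · rw [el_ne h]; ring

lemma ep_dvd (i : Fin 8) : qp ∣ ep i := by
  unfold qp
  rw [Lagrange.nodal_eq]
  apply Finset.prod_dvd_of_coprime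
  · intro a _ b _ hab
    exact pairwise_coprime_X_sub_C tt_inj hab
  · intro a _
    rw [dvd_iff_isRoot]
    exact ep_node i a

lemma ep_natDegree (i : Fin 8) : (ep i).natDegree ≤ 14 := by
  unfold ep
  refine natDegree_mul_le.trans ?_
  have h1 : (C (1 / tt i ^ 5) * X ^ 5 - el i).natDegree ≤ 7 := by
    refine (natDegree_sub_le _ _).trans ?_
    rw [el_natDegree]
    refine max_le ((natDegree_C_mul_X_pow_le _ _).trans (by norm_num)) le_rfl
  rw [el_natDegree]; omega

lemma scalar_ineq (ε : ℝ) (hε : 0 < ε) : ∃ lam : ℝ, 0 ≤ lam ∧ ∀ t : ℝ, 0 ≤ t →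
    ∑ i, 1 / (2 * aw i) * |(el i).eval t * ((t / tt i) ^ 5 - (el i).eval t)| ≤
      lam * (qp.eval t) ^ 2 + ε / 2 * (1 + t) ^ 16 := by
  choose r hr using ep_dvd
  have hdeg : ∀ i, (r i).natDegree ≤ 8 := by
    intro i
    by_cases h0 : r i = 0
    · rw [h0]; simp
    · have h1 := ep_natDegree i
      rw [hr i, natDegree_mul qp_monic.ne_zero h0, qp_natDegree] at h1
      omega
  choose S hS0 hS using fun i => poly_bound (r i) 8 (hdeg i)
  set T : ℝ := ∑ i, 1 / (2 * aw i) * S i with hT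
  have hT0 : 0 ≤ T := Finset.sum_nonneg fun i _ => by
    have := aw_pos i; have := hS0 i; positivity
  refine ⟨T ^ 2 / (2 * ε), by positivity, fun t ht => ?_⟩
  have h1 : ∑ i, 1 / (2 * aw i) * |(el i).eval t * ((t / tt i) ^ 5 - (el i).eval t)| ≤
      |qp.eval t| * (T * (1 + t) ^ 8) := by
    rw [hT, Finset.sum_mul, Finset.mul_sum]
    refine Finset.sum_le_sum fun i _ => ?_
    rw [← ep_eval, hr i, eval_mul, abs_mul]
    have h2 := hS i t ht
    have h3 := aw_pos i
    have h4 := abs_nonneg (qp.eval t)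
    calc 1 / (2 * aw i) * (|qp.eval t| * |(r i).eval t|) ≤
        1 / (2 * aw i) * (|qp.eval t| * (S i * (1 + t) ^ 8)) := by gcongr
      _ = _ := by ring
  refine h1.trans ?_
  have h5 : (qp.eval t) ^ 2 = |qp.eval t| ^ 2 := (sq_abs _).symm
  rw [h5]
  set q := |qp.eval t|
  have h6 : (1 + t) ^ 16 = ((1 + t) ^ 8) ^ 2 := by ring
  rw [h6]
  set u := (1 + t) ^ 8
  have h7 : T ^ 2 / (2 * ε) * q ^ 2 + ε / 2 * u ^ 2 - q * (T * u) =
      (T * q - ε * u) ^ 2 / (2 * ε) := by
    field_simp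
    ring
  have h8 : 0 ≤ (T * q - ε * u) ^ 2 / (2 * ε) := by positivity
  linarith

end H93.LP3
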