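import Pool.Agent.H93.LP3.PS

open Matrix Complex
open scoped ComplexOrder

namespace H93.LP3

section Rep
variable {κ : Type} [Fintype κ] [DecidableEq κ]

/-- unitary representations of `ZMod 8` -/
structure IsRep (pw : ZMod 8 → Matrix κ κ ℂ) : Prop where
  zero : pw 0 = 1
  add : ∀ a b, pw (a + b) = pw a * pw b
  star : ∀ a, (pw a)ᴴ = pw (-a)

/-- spectral projections -/
noncomputable def pv (pw : ZMod 8 → Matrix κ κ ℂ) (i : ZMod 8) : Matrix κ κ ℂ :=
  (1 / 8 : ℂ) • ∑ k : ZMod 8, (ch (-(i * k)) : ℂ) • pw k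

variable {pw : ZMod 8 → Matrix κ κ ℂ}

lemma mul_pv (h : IsRep pw) (l i : ZMod 8) : pw l * pv pw i = ch (i * l) • pv pw i := by
  unfold pv
  rw [Matrix.mul_smul, Finset.mul_sum, smul_comm (ch (i * l))]
  congr 1
  rw [← Equiv.sum_comp (Equiv.addLeft l) (fun k => (ch (-(i * k)) : ℂ) • pw k), Finset.smul_sum]
  refine Finset.sum_congr rfl fun k _ => ?_
  rw [Equiv.coe_addLeft, Matrix.mul_smul, ← h.add, smul_smul, ← ch_add]
  congr 2
  ring

lemma pv_herm (h : IsRep pw) (i : ZMod 8) : (pv pw i)ᴴ = pv pw i := by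
  unfold pv
  rw [conjTranspose_smul, conjTranspose_sum]
  have e1 : star (1 / 8 : ℂ) = 1 / 8 := by simp
  rw [e1]
  congr 1
  rw [← Equiv.sum_comp (Equiv.neg (ZMod 8)) (fun k => (ch (-(i * k)) : ℂ) • pw k)]
  refine Finset.sum_congr rfl fun k _ => ?_
  rw [conjTranspose_smul, h.star, ch_conj]
  simp only [Equiv.neg_apply]
  congr 2
  ring

lemma pv_idem (h : IsRep pw) (i : ZMod 8) : pv pw i * pv pw i = pv pw i := by
  have e1 : pv pw i * pv pw i = (1 / 8 : ℂ) • ∑ k : ZMod 8, (ch (-(i * k)) : ℂ) •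
      (pw k * pv pw i) := by
    conv_lhs => rw [show pv pw i * pv pw i = ((1 / 8 : ℂ) • ∑ k : ZMod 8,
      (ch (-(i * k)) : ℂ) • pw k) * pv pw i from rfl]
    rw [Matrix.smul_mul, Finset.sum_mul]
    simp_rw [Matrix.smul_mul]
  rw [e1]
  simp_rw [mul_pv h, smul_smul, ch_neg_mul, one_smul]
  rw [Finset.sum_const, Finset.card_univ, ZMod.card, ← Nat.cast_smul_eq_nsmul ℂ, smul_smul]
  norm_num

lemma pv_sum (h : IsRep pw) : ∑ i : ZMod 8, pv pw i = 1 := by
  unfold pv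
  rw [← Finset.smul_sum, Finset.sum_comm]
  simp_rw [← Finset.sum_smul]
  have e1 : ∀ k : ZMod 8, ∑ i : ZMod 8, (ch (-(i * k)) : ℂ) = if k = 0 then 8 else 0 := by
    intro k
    have := ch_sum (p := 8) (-k)
    simp only [mul_neg, neg_eq_zero] at this
    rw [this]
    norm_num
  simp_rw [e1, ite_smul, zero_smul]
  rw [Finset.sum_ite_eq' Finset.univ (0 : ZMod 8), if_pos (Finset.mem_univ _), h.zero, smul_smul]
  norm_num

lemma pvm_of_rep (h : IsRep pw) : IsPVM (fun i : Fin 8 => pv pw i) where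
  herm i := pv_herm h i
  idem i := pv_idem h i
  sum_one := pv_sum h

lemma rep_unitary (h : IsRep pw) (a : ZMod 8) : (pw a)ᴴ * pw a = 1 ∧ pw a * (pw a)ᴴ = 1 := by
  rw [h.star, ← h.add, ← h.add]
  simp [h.zero]

end Rep

end H93.LP3
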