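import Pool.Agent.H93.LP3.Blocks

open Matrix Complex
open scoped ComplexOrder

namespace H93.LP3

/-- the pairing of the eight levels -/
def tau (a : ZMod 8) : ZMod 8 := if a.val % 2 = 0 then a + 1 else a - 1
def lev (a : ZMod 8) : ZMod 8 := ((a.val / 2 : ℕ) : ZMod 8)

lemma tau_tau : ∀ a, tau (tau a) = a := by decide
lemma lev_tau : ∀ a, lev (tau a) = lev a := by decide
lemma lev_sep : ∀ a b, a ≠ b → b ≠ tau a → 2 * (lev a - lev b) ≠ 0 := by decide
lemma lev_shift : ∀ a, 2 * (lev (a - 1) - lev (tau a - 1)) ≠ 0 := by decide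
lemma lev_eight : ∀ a, 8 * lev a = 0 := by decide

lemma rep_of {κ : Type} [Fintype κ] [DecidableEq κ] {pw : ZMod 8 → Matrix κ κ ℂ}
    (h0 : pw 0 = 1) (hadd : ∀ a b, pw (a + b) = pw a * pw b)
    (hu : ∀ a, pw a * (pw a)ᴴ = 1) : IsRep pw where
  zero := h0
  add := hadd
  star a := by
    have h1 : (pw a)ᴴ * pw a = 1 := mul_eq_one_comm.1 (hu a)
    have h2 : pw a * pw (-a) = 1 := by rw [← hadd, add_neg_cancel, h0]
    calc (pw a)ᴴ = (pw a)ᴴ * (pw a * pw (-a)) := by rw [h2, Matrix.mul_one]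
      _ = ((pw a)ᴴ * pw a) * pw (-a) := by rw [Matrix.mul_assoc]
      _ = pw (-a) := by rw [h1, Matrix.one_mul]

section
variable {p : ℕ} [NeZero p]

noncomputable def uu (p : ℕ) [NeZero p] (a : ZMod 8) : Matrix (ZMod p) (ZMod p) ℂ :=
  if a = 1 then Dm else if a = 3 then Fm else if a = 5 then Xm else 1

lemma uu_unit (a : ZMod 8) : (uu p a)ᴴ * uu p a = 1 := by
  unfold uu
  split_ifs
  · exact Dm_unit
  · exact Fm_unit
  · exact Xm_unit
  · simp

lemma uu_unit' (a : ZMod 8) : uu p a * (uu p a)ᴴ = 1 := mul_eq_one_comm.1 (uu_unit a)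

noncomputable def ww (p : ℕ) [NeZero p] (a : ZMod 8) : Matrix (ZMod p) (ZMod p) ℂ :=
  (ch (lev a) : ℂ) • (uu p a * (uu p (tau a))ᴴ)

lemma ch_mul_star (b : ZMod 8) : ch b * star (ch b) = 1 := by
  rw [ch_conj, mul_comm, ch_neg_mul]

lemma ww_unit (a : ZMod 8) : ww p a * (ww p a)ᴴ = 1 := by
  unfold ww
  rw [conjTranspose_smul, conjTranspose_mul, conjTranspose_conjTranspose, Matrix.smul_mul,
    Matrix.mul_smul, smul_smul, ch_mul_star, one_smul]
  have : uu p a * (uu p (tau a))ᴴ * (uu p (tau a) * (uu p a)ᴴ) =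
      uu p a * ((uu p (tau a))ᴴ * uu p (tau a)) * (uu p a)ᴴ := by simp only [Matrix.mul_assoc]
  rw [this, uu_unit, Matrix.mul_one, uu_unit']

noncomputable def U1 (p : ℕ) [NeZero p] (k : ZMod 8) : Matrix (BX p) (BX p) ℂ :=
  BM (fun a => a - k) (fun _ => 1)
noncomputable def U2 (p : ℕ) [NeZero p] : Matrix (BX p) (BX p) ℂ := BM tau (ww p)

lemma U1_rep : IsRep (U1 p) := by
  apply rep_of
  · apply blk_ext
    intro a b
    rw [U1, blk_BM, blk_one, sub_zero]
  · intro a b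
    unfold U1
    rw [BM_mul]
    simp only [Matrix.mul_one]
    congr 1
    funext x; ring
  · intro a
    exact BM_unit (fun x y h => sub_left_injective h) (fun _ => by simp)

lemma U2_unit : U2 p * (U2 p)ᴴ = 1 :=
  BM_unit (fun a b h => by rw [← tau_tau a, ← tau_tau b]; exact congrArg tau h) ww_unit

lemma U2_unit' : (U2 p)ᴴ * U2 p = 1 := mul_eq_one_comm.1 U2_unit

noncomputable def ZZ (p : ℕ) [NeZero p] (c : ZMod 8 → ZMod 8) : Matrix (BX p) (BX p) ℂ :=
  BM (fun a => a) (fun a => (ch (c a) : ℂ) • 1)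

lemma ZZ_mul (c d : ZMod 8 → ZMod 8) : ZZ p c * ZZ p d = ZZ p (fun a => c a + d a) := by
  unfold ZZ
  rw [BM_mul]
  congr 1
  funext a
  rw [Matrix.smul_mul, Matrix.one_mul, smul_smul, ch_add]

lemma U2_sq : U2 p * U2 p = ZZ p (fun a => 2 * lev a) := by
  unfold U2 ZZ
  rw [BM_mul]
  have e1 : (fun a => tau (tau a)) = fun a => a := funext tau_tau
  have e2 : (fun a => ww p a * ww p (tau a)) = fun a => (ch (2 * lev a) : ℂ) • 1 := by
    funext a
    unfold ww
    rw [tau_tau, lev_tau, Matrix.smul_mul, Matrix.mul_smul, smul_smul, two_mul, ch_add]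
    congr 1
    have : uu p a * (uu p (tau a))ᴴ * (uu p (tau a) * (uu p a)ᴴ) =
        uu p a * ((uu p (tau a))ᴴ * uu p (tau a)) * (uu p a)ᴴ := by simp only [Matrix.mul_assoc]
    rw [this, uu_unit, Matrix.mul_one, uu_unit']
  rw [e1, e2]

lemma U2_pow : U2 p ^ 8 = 1 := by
  have h1 : U2 p ^ 8 = (U2 p * U2 p) * (U2 p * U2 p) * ((U2 p * U2 p) * (U2 p * U2 p)) := by
    simp only [pow_succ, pow_zero, one_mul, Matrix.mul_assoc]
  rw [h1, U2_sq, ZZ_mul, ZZ_mul]
  apply blk_ext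
  intro a b
  rw [ZZ, blk_BM, blk_one]
  have : 2 * lev a + 2 * lev a + (2 * lev a + 2 * lev a) = 0 := by
    rw [← lev_eight a]; ring
  rw [this, ch_zero, one_smul]

noncomputable def P2 (p : ℕ) [NeZero p] (k : ZMod 8) : Matrix (BX p) (BX p) ℂ := U2 p ^ k.val

lemma P2_rep : IsRep (P2 p) := by
  apply rep_of
  · simp [P2]
  · intro a b
    unfold P2
    rw [← pow_add, ZMod.val_add]
    exact (pow_eq_pow_mod _ U2_pow).symm
  · intro a
    unfold P2
    have hc : Commute (U2 p) (U2 p)ᴴ := by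
      unfold Commute SemiconjBy
      rw [U2_unit, U2_unit']
    rw [conjTranspose_pow, ← hc.mul_pow, U2_unit, one_pow]

lemma P2_one : P2 p 1 = U2 p := by
  unfold P2
  have : (1 : ZMod 8).val = 1 := by decide
  rw [this, pow_one]

variable {A : Matrix (BX p) (BX p) ℂ} {η : ℝ}

lemma est_shift (h1 : hs (A - U1 p 1 * A * (U1 p 1)ᴴ) ≤ η * hs A) (a b : ZMod 8) :
    hs (blk A a b - blk A (a - 1) (b - 1)) ≤ η * hs A := by
  refine le_trans ?_ h1
  have : blk A a b - blk A (a - 1) (b - 1) = blk (A - U1 p 1 * A * (U1 p 1)ᴴ) a b := by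
    rw [blk_sub, U1, blk_conj]; simp
  rw [this]
  exact hs_blk_le _ _ _

lemma est_far (h2 : hs (A - U2 p * A * (U2 p)ᴴ) ≤ η * hs A) {a b : ZMod 8}
    (hab : 2 * (lev a - lev b) ≠ 0) : hs (blk A a b) ≤ 8 * (η * hs A) := by
  have h3 := hs_conj_sq U2_unit' h2
  rw [U2_sq] at h3
  have h4 : blk (A - ZZ p (fun a => 2 * lev a) * A * (ZZ p (fun a => 2 * lev a))ᴴ) a b =
      (1 - ch (2 * (lev a - lev b))) • blk A a b := by
    rw [blk_sub, ZZ, blk_conj, conjTranspose_smul, conjTranspose_one, Matrix.mul_smul,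
      Matrix.mul_one, Matrix.smul_mul, Matrix.one_mul, smul_smul, ch_conj, ← ch_add, sub_smul,
      one_smul]
    congr 3
    ring
  have h5 := hs_blk_le (A - ZZ p (fun a => 2 * lev a) * A * (ZZ p (fun a => 2 * lev a))ᴴ) a b
  rw [h4, hs_smul] at h5
  have h6 : 1 / 2 ≤ ‖1 - ch (2 * (lev a - lev b))‖ ^ 2 := by
    have h7 : 8 ≤ 8 * nn (-(2 * (lev a - lev b))) := by
      have : nn (-(2 * (lev a - lev b))) ≠ 0 := fun h => hab (neg_eq_zero.1 (nn_eq_zero h))
      omega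
    have := ch_bad h7
    rwa [neg_neg] at this
  have h7 := hs_nonneg (blk A a b)
  nlinarith

lemma est_off (h1 : hs (A - U1 p 1 * A * (U1 p 1)ᴴ) ≤ η * hs A)
    (h2 : hs (A - U2 p * A * (U2 p)ᴴ) ≤ η * hs A) {a b : ZMod 8} (hab : a ≠ b) :
    hs (blk A a b) ≤ 18 * (η * hs A) := by
  have h0 : 0 ≤ η * hs A := (hs_nonneg _).trans h1
  by_cases h : b = tau a
  · have h3 := est_shift h1 a b
    have h4 : hs (blk A (a - 1) (b - 1)) ≤ 8 * (η * hs A) := by
      apply est_far h2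
      rw [h]; exact lev_shift a
    have e : blk A a b = (blk A a b - blk A (a - 1) (b - 1)) + blk A (a - 1) (b - 1) := by abel
    rw [e]
    refine (hs_add_le _ _).trans ?_
    linarith
  · have := est_far h2 (lev_sep a b hab h)
    linarith

lemma est_diag (h1 : hs (A - U1 p 1 * A * (U1 p 1)ᴴ) ≤ η * hs A) (n : ℕ) :
    hs (blk A (n : ZMod 8) (n : ZMod 8) - blk A 0 0) ≤ (2 ^ (n + 1) - 2) * (η * hs A) := by
  induction n with
  | zero => simp [hs]
  | succ n ih =>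
    have h3 := est_shift h1 ((n + 1 : ℕ) : ZMod 8) ((n + 1 : ℕ) : ZMod 8)
    have e0 : ((n + 1 : ℕ) : ZMod 8) - 1 = (n : ZMod 8) := by push_cast; ring
    rw [e0] at h3
    have e : blk A ((n + 1 : ℕ) : ZMod 8) ((n + 1 : ℕ) : ZMod 8) - blk A 0 0 =
        (blk A ((n + 1 : ℕ) : ZMod 8) ((n + 1 : ℕ) : ZMod 8) - blk A (n : ZMod 8) (n : ZMod 8)) +
        (blk A (n : ZMod 8) (n : ZMod 8) - blk A 0 0) := by abel
    rw [e]
    refine (hs_add_le _ _).trans ?_
    rw [pow_succ]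
    nlinarith

lemma est_diag' (h1 : hs (A - U1 p 1 * A * (U1 p 1)ᴴ) ≤ η * hs A) (a : ZMod 8) :
    hs (blk A a a - blk A 0 0) ≤ 254 * (η * hs A) := by
  have h0 : 0 ≤ η * hs A := (hs_nonneg _).trans h1
  have h2 := est_diag h1 a.val
  rw [ZMod.natCast_zmod_val] at h2
  refine h2.trans ?_
  apply mul_le_mul_of_nonneg_right _ h0
  have h3 : a.val < 8 := ZMod.val_lt a
  have h4 : (2 : ℝ) ^ (a.val + 1) ≤ 2 ^ 8 := pow_le_pow_right₀ (by norm_num) (by omega)
  norm_num at h4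
  linarith

lemma est_total (h1 : hs (A - U1 p 1 * A * (U1 p 1)ᴴ) ≤ η * hs A)
    (h2 : hs (A - U2 p * A * (U2 p)ᴴ) ≤ η * hs A) :
    hs A ≤ 64 * (2 * hs (blk A 0 0) + 508 * (η * hs A)) := by
  have h0 : 0 ≤ η * hs A := (hs_nonneg _).trans h1
  have hB := hs_nonneg (blk A 0 0)
  have h3 : ∀ a b, hs (blk A a b) ≤ 2 * hs (blk A 0 0) + 508 * (η * hs A) := by
    intro a b
    by_cases h : a = b
    · subst h
      have e : blk A a a = (blk A a a - blk A 0 0) + blk A 0 0 := by abel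
      rw [e]
      refine (hs_add_le _ _).trans ?_
      have := est_diag' h1 a
      linarith
    · have := est_off h1 h2 h
      linarith
  conv_lhs => rw [hs_blk A]
  refine (Finset.sum_le_sum fun a _ => Finset.sum_le_sum fun b _ => h3 a b).trans ?_
  simp only [Finset.sum_const, Finset.card_univ, ZMod.card, nsmul_eq_mul]
  apply le_of_eq
  push_cast; ring

lemma est_u (h1 : hs (A - U1 p 1 * A * (U1 p 1)ᴴ) ≤ η * hs A)
    (h2 : hs (A - U2 p * A * (U2 p)ᴴ) ≤ η * hs A) {a : ZMod 8} (ha : uu p (tau a) = 1) :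
    hs (blk A 0 0 - uu p a * blk A 0 0 * (uu p a)ᴴ) ≤ 1528 * (η * hs A) := by
  have h3 : hs (blk A a a - uu p a * blk A (tau a) (tau a) * (uu p a)ᴴ) ≤ η * hs A := by
    refine le_trans ?_ h2
    have : blk A a a - uu p a * blk A (tau a) (tau a) * (uu p a)ᴴ =
        blk (A - U2 p * A * (U2 p)ᴴ) a a := by
      rw [blk_sub, U2, blk_conj, ww, ha, conjTranspose_one, Matrix.mul_one, conjTranspose_smul,
        Matrix.smul_mul, Matrix.smul_mul, Matrix.mul_smul, smul_smul, ch_mul_star, one_smul]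
    rw [this]
    exact hs_blk_le _ _ _
  have h4 := est_diag' h1 a
  have h5 := est_diag' h1 (tau a)
  have e : blk A 0 0 - uu p a * blk A 0 0 * (uu p a)ᴴ =
      (-(blk A a a - blk A 0 0)) + ((blk A a a - uu p a * blk A (tau a) (tau a) * (uu p a)ᴴ) +
        uu p a * (blk A (tau a) (tau a) - blk A 0 0) * (uu p a)ᴴ) := by
    rw [Matrix.mul_sub, Matrix.sub_mul]; abel
  rw [e]
  refine (hs_add_le _ _).trans ?_
  rw [hs_neg]
  have h6 := hs_add_le (blk A a a - uu p a * blk A (tau a) (tau a) * (uu p a)ᴴ)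
    (uu p a * (blk A (tau a) (tau a) - blk A 0 0) * (uu p a)ᴴ)
  rw [hs_conj (uu_unit a)] at h6
  linarith

theorem gap_core (hA : A.PosSemidef) {N : ℕ} (hN : A.rank ≤ N) (hp : 2 * N < p)
    (h1 : hs (A - U1 p 1 * A * (U1 p 1)ᴴ) ≤ 1 / 10 ^ 10 * hs A)
    (h2 : hs (A - U2 p * A * (U2 p)ᴴ) ≤ 1 / 10 ^ 10 * hs A) : hs A = 0 := by
  have ht := est_total h1 h2
  have hH := hs_nonneg A
  have hB0 := hs_nonneg (blk A 0 0)
  have hHB : hs A ≤ 129 * hs (blk A 0 0) := by linarith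
  have hu : ∀ a : ZMod 8, uu p (tau a) = 1 →
      hs (blk A 0 0 - uu p a * blk A 0 0 * (uu p a)ᴴ) ≤ (1 / 200) ^ 2 * hs (blk A 0 0) := by
    intro a ha
    have := est_u h1 h2 ha
    linarith
  have hD := hu 1 (by unfold uu; rw [if_neg (by decide), if_neg (by decide), if_neg (by decide)])
  have hF := hu 3 (by unfold uu; rw [if_neg (by decide), if_neg (by decide), if_neg (by decide)])
  have hX := hu 5 (by unfold uu; rw [if_neg (by decide), if_neg (by decide), if_neg (by decide)])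
  have e1 : uu p 1 = Dm := by unfold uu; rw [if_pos rfl]
  have e3 : uu p 3 = Fm := by unfold uu; rw [if_neg (by decide), if_pos rfl]
  have e5 : uu p 5 = Xm := by unfold uu; rw [if_neg (by decide), if_neg (by decide), if_pos rfl]
  rw [e1] at hD
  rw [e3] at hF
  rw [e5] at hX
  have hc := core (blk A 0 0) (by norm_num) (by norm_num) hD hF hX
  have hBp : (blk A 0 0).PosSemidef := hA.submatrix (fun j => ((0 : ZMod 8), j))
  have hBr : (blk A 0 0).rank ≤ N :=
    (rank_submatrix_le A (fun j => ((0 : ZMod 8), j)) (fun j => ((0 : ZMod 8), j))).trans hN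
  have ht := tr_rank hBp hBr
  have hp' : 2 * (N : ℝ) + 1 ≤ p := by exact_mod_cast hp
  have hN0 : (0 : ℝ) ≤ N := Nat.cast_nonneg _
  have hB : hs (blk A 0 0) ≤ 0 := by
    by_contra hcon
    have hpos : 0 < hs (blk A 0 0) := not_le.1 hcon
    have k1 : (p : ℝ) * hs (blk A 0 0) * (1 - 70 * (1 / 200)) ≤ N * hs (blk A 0 0) := by linarith
    have k2 : (2 * (N : ℝ) + 1) * hs (blk A 0 0) ≤ p * hs (blk A 0 0) :=
      mul_le_mul_of_nonneg_right hp' hpos.le
    have k3 : 0 ≤ (N : ℝ) * hs (blk A 0 0) := mul_nonneg hN0 hpos.le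
    nlinarith
  linarith

end

end H93.LP3
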