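import Pool.Agent.H93.LP3.Enc2
import Pool.Agent.H93.LP3.Poly

open Matrix Complex
open scoped ComplexOrder Kronecker

namespace H93.LP3

/-- coefficients `u ↦ G u v` to an element of the operator system -/
noncomputable def unhat (G : Fin 2 → Fin 2 → ℂ) : Fin 4 → ℂ :=
  ![(G 0 0 + G 1 1) / 2, (G 0 1 + G 1 0) / 2, I * (G 0 1 - G 1 0) / 2, (G 0 0 - G 1 1) / 2]

lemma hat_unhat (G : Fin 2 → Fin 2 → ℂ) (u v : Fin 2) : hat u v (unhat G) = G u v := by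
  have hI : I * I = -1 := Complex.I_mul_I
  fin_cases u <;> fin_cases v <;> simp [hat, unhat]
  · ring
  · linear_combination (-(G 0 1 - G 1 0) / 2) * hI
  · linear_combination ((G 0 1 - G 1 0) / 2) * hI
  · ring

abbrev MX (κ : Type) := Fin 17 × Fin 2 × κ

noncomputable def BB (u : Fin 2) : Matrix (Fin 17) (Fin 16) ℂ :=
  Matrix.of fun l b => if (u = 0 ∧ (l : ℕ) = b) ∨ (u = 1 ∧ (l : ℕ) = 16 ∧ (b : ℕ) = 15) then 1 else 0

noncomputable def DD (u : Fin 2) : Matrix (Fin 15) (Fin 16) ℂ :=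
  Matrix.of fun j b => if u = 0 then (if (b : ℕ) = j + 1 then -1 else 0)
    else (if (b : ℕ) = j then 1 else 0)

lemma BB_conj (u : Fin 2) : (BB u)ᴴ = (BB u)ᵀ := by
  ext a b
  simp only [BB, conjTranspose_apply, transpose_apply, Matrix.of_apply]
  split_ifs <;> simp

lemma DD_conj (u : Fin 2) : (DD u)ᴴ = (DD u)ᵀ := by
  ext a b
  simp only [DD, conjTranspose_apply, transpose_apply, Matrix.of_apply]
  split_ifs <;> simp

noncomputable def cz (z : ℂ) : Matrix (Fin 17) (Fin 16) ℂ := BB 0 + (starRingEnd ℂ z) • BB 1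
noncomputable def dz (z : ℂ) : Matrix (Fin 15) (Fin 16) ℂ := DD 0 + (starRingEnd ℂ z) • DD 1

section
variable {κ : Type} [Fintype κ] [DecidableEq κ]

/-- the coefficient matrices of the witness -/
noncomputable def Fh (g : Matrix (MX κ) (MX κ) ℂ) (lam1 : ℝ) (u v : Fin 2) :
    Matrix (IX κ) (IX κ) ℂ :=
  (BB v ⊗ₖ (1 : Matrix (Fin 2 × κ) (Fin 2 × κ) ℂ))ᵀ * g *
    (BB u ⊗ₖ (1 : Matrix (Fin 2 × κ) (Fin 2 × κ) ℂ)) +
  (lam1 : ℂ) • (((DD v)ᵀ * DD u) ⊗ₖ (1 : Matrix (Fin 2 × κ) (Fin 2 × κ) ℂ))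

/-- the witness -/
noncomputable def Wit (g : Matrix (MX κ) (MX κ) ℂ) (lam1 : ℝ) :
    Matrix (IX κ) (IX κ) (Fin 4 → ℂ) :=
  Matrix.of fun p q => unhat fun u v => Fh g lam1 u v p q

lemma zVal_Wit (g : Matrix (MX κ) (MX κ) ℂ) (lam1 : ℝ) (z : ℂ) :
    zVal (Wit g lam1) z =
      (cz z ⊗ₖ (1 : Matrix (Fin 2 × κ) (Fin 2 × κ) ℂ))ᴴ * g *
        (cz z ⊗ₖ (1 : Matrix (Fin 2 × κ) (Fin 2 × κ) ℂ)) +
      (lam1 : ℂ) • ((dz z ⊗ₖ (1 : Matrix (Fin 2 × κ) (Fin 2 × κ) ℂ))ᴴ *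
        (dz z ⊗ₖ (1 : Matrix (Fin 2 × κ) (Fin 2 × κ) ℂ))) := by
  have h1 : zVal (Wit g lam1) z = ∑ u : Fin 2, ∑ v : Fin 2,
      (z ^ (v : ℕ) * (starRingEnd ℂ z) ^ (u : ℕ)) • Fh g lam1 u v := by
    ext p q
    rw [zVal_apply]
    simp only [Wit, Matrix.of_apply, hat_unhat, Matrix.sum_apply, Matrix.smul_apply, smul_eq_mul]
    refine Finset.sum_congr rfl fun u _ => Finset.sum_congr rfl fun v _ => ?_
    ring
  rw [h1]
  have ht : ∀ A : Matrix (Fin 17) (Fin 16) ℂ,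
      (A ⊗ₖ (1 : Matrix (Fin 2 × κ) (Fin 2 × κ) ℂ))ᵀ = Aᵀ ⊗ₖ (1 : Matrix (Fin 2 × κ) (Fin 2 × κ) ℂ) := by
    intro A; rw [← kroneckerMap_transpose, transpose_one]
  have hc : (cz z ⊗ₖ (1 : Matrix (Fin 2 × κ) (Fin 2 × κ) ℂ))ᴴ =
      (BB 0 ⊗ₖ (1 : Matrix (Fin 2 × κ) (Fin 2 × κ) ℂ))ᵀ +
      z • (BB 1 ⊗ₖ (1 : Matrix (Fin 2 × κ) (Fin 2 × κ) ℂ))ᵀ := by
    rw [conjTranspose_kronecker, cz, conjTranspose_add, conjTranspose_smul, BB_conj, BB_conj]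
    simp only [conjTranspose_one, Complex.star_def, Complex.conj_conj, ht, add_kronecker,
      smul_kronecker]
  have hc2 : (cz z ⊗ₖ (1 : Matrix (Fin 2 × κ) (Fin 2 × κ) ℂ)) =
      (BB 0 ⊗ₖ (1 : Matrix (Fin 2 × κ) (Fin 2 × κ) ℂ)) +
      (starRingEnd ℂ z) • (BB 1 ⊗ₖ (1 : Matrix (Fin 2 × κ) (Fin 2 × κ) ℂ)) := by
    rw [cz, add_kronecker, smul_kronecker]
  have hd : (dz z ⊗ₖ (1 : Matrix (Fin 2 × κ) (Fin 2 × κ) ℂ))ᴴ =
      ((DD 0)ᵀ ⊗ₖ (1 : Matrix (Fin 2 × κ) (Fin 2 × κ) ℂ)) +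
      z • ((DD 1)ᵀ ⊗ₖ (1 : Matrix (Fin 2 × κ) (Fin 2 × κ) ℂ)) := by
    rw [conjTranspose_kronecker, dz, conjTranspose_add, conjTranspose_smul, DD_conj, DD_conj]
    simp only [conjTranspose_one, Complex.star_def, Complex.conj_conj, add_kronecker,
      smul_kronecker]
  have hd2 : (dz z ⊗ₖ (1 : Matrix (Fin 2 × κ) (Fin 2 × κ) ℂ)) =
      (DD 0 ⊗ₖ (1 : Matrix (Fin 2 × κ) (Fin 2 × κ) ℂ)) +
      (starRingEnd ℂ z) • (DD 1 ⊗ₖ (1 : Matrix (Fin 2 × κ) (Fin 2 × κ) ℂ)) := by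
    rw [dz, add_kronecker, smul_kronecker]
  have hk : ∀ u v, (((DD v)ᵀ * DD u) ⊗ₖ (1 : Matrix (Fin 2 × κ) (Fin 2 × κ) ℂ)) =
      ((DD v)ᵀ ⊗ₖ (1 : Matrix (Fin 2 × κ) (Fin 2 × κ) ℂ)) *
        (DD u ⊗ₖ (1 : Matrix (Fin 2 × κ) (Fin 2 × κ) ℂ)) := by
    intro u v
    rw [← mul_kronecker_mul, Matrix.one_mul]
  rw [hc, hc2, hd, hd2]
  simp only [Fin.sum_univ_two, Fh, hk, Fin.val_zero, Fin.val_one, pow_zero, pow_one, one_mul,
    mul_one, one_smul, Matrix.add_mul, Matrix.mul_add, Matrix.smul_mul, Matrix.mul_smul, smul_add,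
    smul_smul]
  rw [mul_comm z (starRingEnd ℂ z)]
  have e1 : (lam1 : ℂ) * z = z * lam1 := mul_comm _ _
  have e2 : (lam1 : ℂ) * (starRingEnd ℂ z) = (starRingEnd ℂ z) * lam1 := mul_comm _ _
  have e3 : (lam1 : ℂ) * ((starRingEnd ℂ z) * z) = (starRingEnd ℂ z) * z * lam1 := mul_comm _ _
  rw [e1, e2, e3]
  abel

/-- squared norm -/
noncomputable def n2 {α : Type*} [Fintype α] (x : α → ℂ) : ℝ := ∑ a, ‖x a‖ ^ 2

/-- real quadratic form -/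
noncomputable def qf {α : Type*} [Fintype α] (g : Matrix α α ℂ) (x : α → ℂ) : ℝ :=
  (star x ⬝ᵥ (g *ᵥ x)).re

end

section
variable {α : Type*} [Fintype α]

lemma n2_nonneg (x : α → ℂ) : 0 ≤ n2 x :=
  Finset.sum_nonneg fun _ _ => sq_nonneg _

lemma n2_eq (x : α → ℂ) : (star x ⬝ᵥ x) = ((n2 x : ℝ) : ℂ) := by
  unfold n2 dotProduct
  rw [Complex.ofReal_sum]
  exact Finset.sum_congr rfl fun a _ => star_mul_self_eq _

lemma n2_add_le (x y : α → ℂ) : n2 (x + y) ≤ 2 * n2 x + 2 * n2 y := by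
  unfold n2
  rw [Finset.mul_sum, Finset.mul_sum, ← Finset.sum_add_distrib]
  refine Finset.sum_le_sum fun a _ => ?_
  have h1 := norm_add_le (x a) (y a)
  have h2 : ‖(x + y) a‖ ^ 2 ≤ (‖x a‖ + ‖y a‖) ^ 2 := by
    apply pow_le_pow_left₀ (norm_nonneg _)
    exact h1
  nlinarith [sq_nonneg (‖x a‖ - ‖y a‖)]

lemma n2_smul (c : ℂ) (x : α → ℂ) : n2 (c • x) = ‖c‖ ^ 2 * n2 x := by
  unfold n2
  rw [Finset.mul_sum]
  refine Finset.sum_congr rfl fun a _ => ?_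
  rw [Pi.smul_apply, smul_eq_mul, norm_mul, mul_pow]

lemma qf_smul (g : Matrix α α ℂ) (c : ℂ) (x : α → ℂ) : qf g (c • x) = ‖c‖ ^ 2 * qf g x := by
  unfold qf
  rw [mulVec_smul, star_smul, smul_dotProduct, dotProduct_smul, smul_smul, smul_eq_mul]
  rw [star_mul_self_eq, Complex.re_ofReal_mul]

lemma qf_add (g : Matrix α α ℂ) (x y : α → ℂ) : qf g (x + y) = qf g x +
    ((star x ⬝ᵥ (g *ᵥ y)).re + (star y ⬝ᵥ (g *ᵥ x)).re) + qf g y := by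
  unfold qf
  rw [mulVec_add, star_add, add_dotProduct, dotProduct_add, dotProduct_add]
  simp only [Complex.add_re]
  ring

/-- perturbation of a bounded quadratic form -/
lemma qf_perturb (g : Matrix α α ℂ) {C : ℝ} (hC : 0 ≤ C) (h : ∀ x, |qf g x| ≤ C * n2 x)
    {s : ℝ} (hs : 0 < s) (x y : α → ℂ) :
    qf g x - 3 * C * (s * n2 x + n2 y / s) - C * n2 y ≤ qf g (x + y) := by
  rw [qf_add]
  set r := Real.sqrt s with hr
  have hr0 : 0 < r := Real.sqrt_pos.2 hs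
  have hr2 : r ^ 2 = s := Real.sq_sqrt hs.le
  have h1 := (abs_le.1 (h ((r : ℂ) • x + ((1 / r : ℝ) : ℂ) • y))).1
  have h2 := n2_add_le ((r : ℂ) • x) (((1 / r : ℝ) : ℂ) • y)
  rw [qf_add, qf_smul, qf_smul] at h1
  rw [n2_smul, n2_smul] at h2
  have e1 : ‖(r : ℂ)‖ ^ 2 = s := by
    rw [Complex.norm_real, Real.norm_eq_abs, sq_abs, hr2]
  have e2 : ‖((1 / r : ℝ) : ℂ)‖ ^ 2 = 1 / s := by
    rw [Complex.norm_real, Real.norm_eq_abs, sq_abs, div_pow, hr2, one_pow]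
  rw [e1, e2] at h1 h2
  have e3 : (star ((r : ℂ) • x) ⬝ᵥ (g *ᵥ (((1 / r : ℝ) : ℂ) • y))) = star x ⬝ᵥ (g *ᵥ y) := by
    rw [mulVec_smul, star_smul, smul_dotProduct, dotProduct_smul, smul_smul, Complex.star_def,
      Complex.conj_ofReal, ← Complex.ofReal_mul]
    have : r * (1 / r) = 1 := by field_simp
    rw [this]; simp
  have e4 : (star (((1 / r : ℝ) : ℂ) • y) ⬝ᵥ (g *ᵥ ((r : ℂ) • x))) = star y ⬝ᵥ (g *ᵥ x) := by
    rw [mulVec_smul, star_smul, smul_dotProduct, dotProduct_smul, smul_smul, Complex.star_def,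
      Complex.conj_ofReal, ← Complex.ofReal_mul]
    have : (1 / r) * r = 1 := by field_simp
    rw [this]; simp
  rw [e3, e4] at h1
  have h3 := (abs_le.1 (h x)).2
  have h4 := (abs_le.1 (h y)).2
  have h5 := (abs_le.1 (h y)).1
  have h6 : C * n2 ((r : ℂ) • x + ((1 / r : ℝ) : ℂ) • y) ≤
      C * (2 * (s * n2 x) + 2 * (1 / s * n2 y)) := mul_le_mul_of_nonneg_left h2 hC
  have h7 : s * qf g x ≤ s * (C * n2 x) := mul_le_mul_of_nonneg_left h3 hs.le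
  have h8 : 1 / s * qf g y ≤ 1 / s * (C * n2 y) := mul_le_mul_of_nonneg_left h4 (by positivity)
  have h9 : n2 y / s = 1 / s * n2 y := by ring
  rw [h9]
  nlinarith

lemma qf_of_psd {g : Matrix α α ℂ} (h : g.PosSemidef) (x : α → ℂ) : 0 ≤ qf g x :=
  h.re_dotProduct_nonneg x

lemma qf_addM (g g' : Matrix α α ℂ) (x : α → ℂ) : qf (g + g') x = qf g x + qf g' x := by
  unfold qf; rw [add_mulVec, dotProduct_add, Complex.add_re]

lemma qf_subM (g g' : Matrix α α ℂ) (x : α → ℂ) : qf (g - g') x = qf g x - qf g' x := by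
  unfold qf; rw [sub_mulVec, dotProduct_sub, Complex.sub_re]

lemma qf_smul_one [DecidableEq α] (C : ℝ) (x : α → ℂ) :
    qf ((C : ℂ) • (1 : Matrix α α ℂ)) x = C * n2 x := by
  unfold qf
  rw [smul_mulVec, one_mulVec, dotProduct_smul, n2_eq, smul_eq_mul, ← Complex.ofReal_mul,
    Complex.ofReal_re]

lemma qf_bound [DecidableEq α] {g : Matrix α α ℂ} {C : ℝ}
    (h1 : ((C : ℂ) • (1 : Matrix α α ℂ) + g).PosSemidef)
    (h2 : ((C : ℂ) • (1 : Matrix α α ℂ) - g).PosSemidef) (x : α → ℂ) : |qf g x| ≤ C * n2 x := by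
  have e1 := qf_of_psd h1 x
  have e2 := qf_of_psd h2 x
  rw [qf_addM, qf_smul_one] at e1
  rw [qf_subM, qf_smul_one] at e2
  rw [abs_le]; constructor <;> linarith

end

end H93.LP3
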