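import Pool.Agent.H93.LP3.Wit1

open Matrix Complex
open scoped ComplexOrder Kronecker

namespace H93.LP3

lemma dz_sum (z : ℂ) (w : Fin 16 → ℂ) (j : Fin 15) :
    ∑ b, dz z j b * w b = starRingEnd ℂ z * w j.castSucc - w j.succ := by
  have h1 : ∀ b : Fin 16, dz z j b * w b =
      (if b = j.castSucc then starRingEnd ℂ z * w b else 0) - (if b = j.succ then w b else 0) := by
    intro b
    have e1 : (b = j.castSucc) ↔ (b : ℕ) = j := by
      rw [Fin.ext_iff]; rfl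
    have e2 : (b = j.succ) ↔ (b : ℕ) = j + 1 := by
      rw [Fin.ext_iff]; rfl
    simp only [dz, DD, Matrix.add_apply, Matrix.smul_apply, Matrix.of_apply, smul_eq_mul, e1, e2]
    by_cases h3 : (b : ℕ) = j
    · have h4 : ¬ ((b : ℕ) = j + 1) := by omega
      simp [h3]
    · by_cases h4 : (b : ℕ) = j + 1
      · simp [h4]
      · simp [h3, h4]
  simp_rw [h1]
  rw [Finset.sum_sub_distrib]
  simp

lemma cz_sum_lt (z : ℂ) (w : Fin 16 → ℂ) (l : Fin 16) :
    ∑ b, cz z l.castSucc b * w b = w l := by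
  have h1 : ∀ b : Fin 16, cz z l.castSucc b * w b = if b = l then w b else 0 := by
    intro b
    have e1 : (b = l) ↔ (l : ℕ) = b := by
      rw [Fin.ext_iff]; exact eq_comm
    have h2 : (l : ℕ) ≠ 16 := by omega
    simp only [cz, BB, Matrix.add_apply, Matrix.smul_apply, Matrix.of_apply, smul_eq_mul, e1,
      Fin.val_castSucc]
    by_cases h3 : (l : ℕ) = b
    · have h5 : ¬ ((b : ℕ) = 16 ∧ (b : ℕ) = 15) := by omega
      simp [h3, h5]
    · simp [h3, h2]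
  simp_rw [h1]
  simp

lemma cz_sum_last (z : ℂ) (w : Fin 16 → ℂ) :
    ∑ b, cz z (Fin.last 16) b * w b = starRingEnd ℂ z * w 15 := by
  have h1 : ∀ b : Fin 16, cz z (Fin.last 16) b * w b =
      if b = 15 then starRingEnd ℂ z * w b else 0 := by
    intro b
    have e1 : (b = 15) ↔ (b : ℕ) = 15 := by
      rw [Fin.ext_iff]; rfl
    have h2 : ¬ (16 = (b : ℕ)) := by omega
    simp only [cz, BB, Matrix.add_apply, Matrix.smul_apply, Matrix.of_apply, smul_eq_mul, e1,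
      Fin.val_last]
    by_cases h3 : (b : ℕ) = 15
    · simp [h3]
    · simp [h3, h2]
  simp_rw [h1]
  simp

lemma decomp_aux (z : ℂ) (w : ℕ → ℂ) : ∃ h : ℂ, (∀ l ≤ 15, ‖w l - z ^ l * h‖ ≤
      ∑ j ∈ Finset.range 15, ‖z * w j - w (j + 1)‖) ∧
      ‖z * w 15 - z ^ 16 * h‖ ≤ ∑ j ∈ Finset.range 15, ‖z * w j - w (j + 1)‖ := by
  rcases le_or_gt ‖z‖ 1 with hz | hz
  · have key : ∀ l, ‖w l - z ^ l * w 0‖ ≤ ∑ j ∈ Finset.range l, ‖z * w j - w (j + 1)‖ := by
      intro l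
      induction l with
      | zero => simp
      | succ l ih =>
        rw [Finset.sum_range_succ]
        have e : w (l + 1) - z ^ (l + 1) * w 0 = z * (w l - z ^ l * w 0) - (z * w l - w (l + 1)) := by
          ring
        rw [e]
        refine (norm_sub_le _ _).trans (add_le_add_left ?_ _)
        rw [norm_mul]
        calc ‖z‖ * ‖w l - z ^ l * w 0‖ ≤ 1 * ‖w l - z ^ l * w 0‖ := by gcongr
          _ ≤ _ := by rw [one_mul]; exact ih
    refine ⟨w 0, fun l hl => (key l).trans ?_, ?_⟩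
    · apply Finset.sum_le_sum_of_subset_of_nonneg
      · intro j hj; rw [Finset.mem_range] at *; omega
      · intro j _ _; exact norm_nonneg _
    · have e : z * w 15 - z ^ 16 * w 0 = z * (w 15 - z ^ 15 * w 0) := by ring
      rw [e, norm_mul]
      calc ‖z‖ * ‖w 15 - z ^ 15 * w 0‖ ≤ 1 * ‖w 15 - z ^ 15 * w 0‖ := by gcongr
        _ ≤ _ := by rw [one_mul]; exact key 15
  · have hz0 : z ≠ 0 := by
      intro h; rw [h] at hz; simp at hz; linarith
    set h := w 15 / z ^ 15 with hh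
    have h15 : z ^ 15 * h = w 15 := by rw [hh]; field_simp
    have key : ∀ k ≤ 15, ‖w (15 - k) - z ^ (15 - k) * h‖ ≤
        ∑ j ∈ Finset.Ico (15 - k) 15, ‖z * w j - w (j + 1)‖ := by
      intro k
      induction k with
      | zero => intro _; simp [h15]
      | succ k ih =>
        intro hk
        have ih' := ih (by omega)
        obtain ⟨l, hl⟩ : ∃ l, 15 - k = l + 1 := ⟨15 - k - 1, by omega⟩
        have hl2 : 15 - (k + 1) = l := by omega
        rw [hl2]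
        rw [hl] at ih'
        have hins : ∑ j ∈ Finset.Ico l 15, ‖z * w j - w (j + 1)‖ =
            ‖z * w l - w (l + 1)‖ + ∑ j ∈ Finset.Ico (l + 1) 15, ‖z * w j - w (j + 1)‖ := by
          rw [Finset.sum_eq_sum_Ico_succ_bot (by omega)]
        rw [hins]
        have e : z * (w l - z ^ l * h) = (z * w l - w (l + 1)) + (w (l + 1) - z ^ (l + 1) * h) := by
          ring
        have e2 : ‖z‖ * ‖w l - z ^ l * h‖ ≤ ‖z * w l - w (l + 1)‖ + ‖w (l + 1) - z ^ (l + 1) * h‖ := by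
          rw [← norm_mul, e]; exact norm_add_le _ _
        have e3 : ‖w l - z ^ l * h‖ ≤ ‖z‖ * ‖w l - z ^ l * h‖ := by
          nlinarith [norm_nonneg (w l - z ^ l * h)]
        linarith
    refine ⟨h, fun l hl => ?_, ?_⟩
    · have := key (15 - l) (by omega)
      rw [show 15 - (15 - l) = l by omega] at this
      refine this.trans ?_
      apply Finset.sum_le_sum_of_subset_of_nonneg
      · intro j hj; rw [Finset.mem_Ico] at hj; rw [Finset.mem_range]; omega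
      · intro j _ _; exact norm_nonneg _
    · have e : z * w 15 - z ^ 16 * h = 0 := by
        rw [← h15]; ring
      rw [e, norm_zero]
      exact Finset.sum_nonneg fun _ _ => norm_nonneg _

lemma scalar_decomp (z : ℂ) (w : Fin 16 → ℂ) : ∃ h : ℂ, ∀ l : Fin 17,
    ‖(∑ b, cz z l b * w b) - (starRingEnd ℂ z) ^ (l : ℕ) * h‖ ≤
      ∑ j : Fin 15, ‖∑ b, dz z j b * w b‖ := by
  obtain ⟨h, h1, h2⟩ := decomp_aux (starRingEnd ℂ z) (fun n => if hn : n < 16 then w ⟨n, hn⟩ else 0)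
  have hs : ∑ j ∈ Finset.range 15, ‖(starRingEnd ℂ z) * (fun n => if hn : n < 16 then w ⟨n, hn⟩ else 0) j -
      (fun n => if hn : n < 16 then w ⟨n, hn⟩ else 0) (j + 1)‖ =
      ∑ j : Fin 15, ‖∑ b, dz z j b * w b‖ := by
    rw [Finset.sum_range]
    refine Finset.sum_congr rfl fun j _ => ?_
    rw [dz_sum]
    have e1 : (j : ℕ) < 16 := by omega
    have e2 : (j : ℕ) + 1 < 16 := by omega
    simp only [e1, e2, dif_pos]
    rfl
  rw [hs] at h1 h2
  refine ⟨h, fun l => ?_⟩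
  refine Fin.lastCases ?_ (fun l => ?_) l
  · rw [cz_sum_last]
    simpa using h2
  · rw [cz_sum_lt]
    have := h1 l (by omega)
    simpa using this

section
variable {κ : Type} [Fintype κ] [DecidableEq κ]

/-- The Veronese vector. -/
noncomputable def W0 (z : ℂ) (h : Fin 2 × κ → ℂ) : MX κ → ℂ :=
  fun p => (starRingEnd ℂ z) ^ (p.1 : ℕ) * h p.2

lemma kron_mulVec {m n : ℕ} (A : Matrix (Fin m) (Fin n) ℂ) (w : Fin n × Fin 2 × κ → ℂ)
    (p : Fin m × Fin 2 × κ) :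
    ((A ⊗ₖ (1 : Matrix (Fin 2 × κ) (Fin 2 × κ) ℂ)) *ᵥ w) p = ∑ b, A p.1 b * w (b, p.2) := by
  simp only [mulVec, dotProduct, Fintype.sum_prod_type (α₁ := Fin n), kroneckerMap_apply]
  refine Finset.sum_congr rfl fun b _ => ?_
  rw [Finset.sum_eq_single p.2]
  · simp
  · intro q _ hq
    rw [Matrix.one_apply_ne (Ne.symm hq)]; ring
  · simp

lemma decomp (z : ℂ) (w : IX κ → ℂ) : ∃ h : Fin 2 × κ → ℂ, ∃ W' : MX κ → ℂ,
    (cz z ⊗ₖ (1 : Matrix (Fin 2 × κ) (Fin 2 × κ) ℂ)) *ᵥ w = W0 z h + W' ∧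
    n2 W' ≤ 255 * n2 ((dz z ⊗ₖ (1 : Matrix (Fin 2 × κ) (Fin 2 × κ) ℂ)) *ᵥ w) := by
  choose h hh using fun y : Fin 2 × κ => scalar_decomp z (fun b => w (b, y))
  refine ⟨h, (cz z ⊗ₖ (1 : Matrix (Fin 2 × κ) (Fin 2 × κ) ℂ)) *ᵥ w - W0 z h, by abel, ?_⟩
  unfold n2
  rw [Fintype.sum_prod_type, Fintype.sum_prod_type]
  have h1 : ∀ l : Fin 17, ∀ y : Fin 2 × κ,
      ‖((cz z ⊗ₖ (1 : Matrix (Fin 2 × κ) (Fin 2 × κ) ℂ)) *ᵥ w - W0 z h) (l, y)‖ ^ 2 ≤
      15 * ∑ j : Fin 15, ‖((dz z ⊗ₖ (1 : Matrix (Fin 2 × κ) (Fin 2 × κ) ℂ)) *ᵥ w) (j, y)‖ ^ 2 := by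
    intro l y
    have e1 := hh y l
    rw [Pi.sub_apply, kron_mulVec]
    simp only [kron_mulVec, W0]
    have e2 := pow_le_pow_left₀ (norm_nonneg _) e1 2
    refine e2.trans ?_
    have e4 := Finset.sum_mul_sq_le_sq_mul_sq (Finset.univ : Finset (Fin 15)) (fun _ => (1 : ℝ))
      (fun j => ‖∑ b, dz z j b * w (b, y)‖)
    simpa using e4
  calc _ ≤ ∑ l : Fin 17, ∑ y : Fin 2 × κ,
        15 * ∑ j : Fin 15, ‖((dz z ⊗ₖ (1 : Matrix (Fin 2 × κ) (Fin 2 × κ) ℂ)) *ᵥ w) (j, y)‖ ^ 2 :=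
        Finset.sum_le_sum fun l _ => Finset.sum_le_sum fun y _ => h1 l y
    _ = _ := by
        rw [Finset.sum_const, ← Finset.mul_sum, Finset.sum_comm]
        simp
        ring

end

end H93.LP3
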