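import Pool.Agent.H93.LP3.Wit2

open Matrix Complex
open scoped ComplexOrder Kronecker

namespace H93.LP3

/-! ### The middle matrix -/

noncomputable def cb (i : Fin 8) (k : ℕ) : ℝ := sg i / (2 * aw i * tt i ^ 5) * (el i).coeff k

noncomputable def SX (i : Fin 8) : Matrix (Fin 17 × Fin 2) (Fin 17 × Fin 2) ℂ :=
  Matrix.of fun p q => if p = q then ((1 / (2 * aw i) * (el i ^ 2).coeff p.1 : ℝ) : ℂ) else 0

noncomputable def SB (i : Fin 8) : Matrix (Fin 17 × Fin 2) (Fin 17 × Fin 2) ℂ :=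
  Matrix.of fun p q =>
    (if (q.1 : ℕ) = p.1 + 10 ∧ p.2 = 1 ∧ q.2 = 0 then ((cb i p.1 : ℝ) : ℂ) else 0) +
    (if (p.1 : ℕ) = q.1 + 10 ∧ p.2 = 0 ∧ q.2 = 1 then ((cb i q.1 : ℝ) : ℂ) else 0)

noncomputable def SO (ε lam : ℝ) : Matrix (Fin 17 × Fin 2) (Fin 17 × Fin 2) ℂ :=
  Matrix.of fun p q => if p = q then ((lam * (qp ^ 2).coeff p.1 + ε * Nat.choose 16 p.1 : ℝ) : ℂ)
    else 0

lemma SX_herm (i : Fin 8) : (SX i).IsHermitian := by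
  ext p q
  simp only [SX, conjTranspose_apply, Matrix.of_apply]
  by_cases h : p = q
  · subst h; simp
  · simp [h, Ne.symm h]

lemma SO_herm (ε lam : ℝ) : (SO ε lam).IsHermitian := by
  ext p q
  simp only [SO, conjTranspose_apply, Matrix.of_apply]
  by_cases h : p = q
  · subst h; simp
  · simp [h, Ne.symm h]

lemma SB_herm (i : Fin 8) : (SB i).IsHermitian := by
  ext p q
  simp only [SB, conjTranspose_apply, Matrix.of_apply, star_add]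
  rw [add_comm]
  congr 1
  · by_cases h : (q.1 : ℕ) = p.1 + 10 ∧ p.2 = 1 ∧ q.2 = 0
    · have h2 : (q.1 : ℕ) = p.1 + 10 ∧ q.2 = 0 ∧ p.2 = 1 := ⟨h.1, h.2.2, h.2.1⟩
      rw [if_pos h, if_pos h2]; simp
    · have h2 : ¬ ((q.1 : ℕ) = p.1 + 10 ∧ q.2 = 0 ∧ p.2 = 1) := fun h' => h ⟨h'.1, h'.2.2, h'.2.1⟩
      rw [if_neg h, if_neg h2]; simp
  · by_cases h : (p.1 : ℕ) = q.1 + 10 ∧ p.2 = 0 ∧ q.2 = 1
    · have h2 : (p.1 : ℕ) = q.1 + 10 ∧ q.2 = 1 ∧ p.2 = 0 := ⟨h.1, h.2.2, h.2.1⟩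
      rw [if_pos h, if_pos h2]; simp
    · have h2 : ¬ ((p.1 : ℕ) = q.1 + 10 ∧ q.2 = 1 ∧ p.2 = 0) := fun h' => h ⟨h'.1, h'.2.2, h'.2.1⟩
      rw [if_neg h, if_neg h2]; simp

def asc {κ : Type} (p : MX κ) : (Fin 17 × Fin 2) × κ := ((p.1, p.2.1), p.2.2)

open scoped Matrix.Norms.L2Operator MatrixOrder in
lemma herm_bound {ν : Type} [Fintype ν] [DecidableEq ν] {S : Matrix ν ν ℂ} (hS : S.IsHermitian) :
    ∃ c : ℝ, 0 ≤ c ∧ ((c : ℂ) • (1 : Matrix ν ν ℂ) + S).PosSemidef ∧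
      ((c : ℂ) • (1 : Matrix ν ν ℂ) - S).PosSemidef := by
  refine ⟨‖S‖, norm_nonneg _, ?_, ?_⟩
  · have h := IsSelfAdjoint.neg_algebraMap_norm_le_self (a := S) hS
    rw [← smul_one_eq] at h
    have : (((‖S‖ : ℝ) : ℂ) • (1 : Matrix ν ν ℂ) + S) = S - -(((‖S‖ : ℝ) : ℂ) • (1 : Matrix ν ν ℂ)) := by
      abel
    rw [this]; exact h
  · have h := IsSelfAdjoint.le_algebraMap_norm_self (a := S) hS
    rw [← smul_one_eq] at h
    exact h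

lemma kb {ν κ : Type} [Fintype ν] [DecidableEq ν] [Fintype κ] [DecidableEq κ]
    {S : Matrix ν ν ℂ} {Y : Matrix κ κ ℂ} {c : ℝ} (hc : 0 ≤ c)
    (h1 : ((c : ℂ) • (1 : Matrix ν ν ℂ) + S).PosSemidef) (hY : Y.PosSemidef)
    (hY1 : (1 - Y).PosSemidef) :
    ((c : ℂ) • (1 : Matrix (ν × κ) (ν × κ) ℂ) + S ⊗ₖ Y).PosSemidef := by
  have h2 : ((c : ℂ) • (1 : Matrix (ν × κ) (ν × κ) ℂ) + S ⊗ₖ Y) =
      ((c : ℂ) • (1 : Matrix ν ν ℂ) + S) ⊗ₖ Y +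
        (c : ℂ) • ((1 : Matrix ν ν ℂ) ⊗ₖ (1 - Y)) := by
    rw [← one_kronecker_one]
    ext ⟨a, b⟩ ⟨a', b'⟩
    simp only [Matrix.add_apply, Matrix.smul_apply, kroneckerMap_apply, Matrix.sub_apply,
      smul_eq_mul]
    ring
  rw [h2]
  exact (h1.kronecker hY).add ((PosSemidef.one.kronecker hY1).smul (by exact_mod_cast hc))

lemma kb' {ν κ : Type} [Fintype ν] [DecidableEq ν] [Fintype κ] [DecidableEq κ]
    {S : Matrix ν ν ℂ} {Y : Matrix κ κ ℂ} {c : ℝ} (hc : 0 ≤ c)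
    (h1 : ((c : ℂ) • (1 : Matrix ν ν ℂ) - S).PosSemidef) (hY : Y.PosSemidef)
    (hY1 : (1 - Y).PosSemidef) :
    ((c : ℂ) • (1 : Matrix (ν × κ) (ν × κ) ℂ) - S ⊗ₖ Y).PosSemidef := by
  have := kb (S := -S) hc (by rwa [← sub_eq_add_neg]) hY hY1
  have h2 : (-S) ⊗ₖ Y = -(S ⊗ₖ Y) := by
    ext ⟨a, b⟩ ⟨a', b'⟩; simp
  rwa [h2, ← sub_eq_add_neg] at this

section
variable {κ : Type} [Fintype κ] [DecidableEq κ]

lemma IsPVM.compl_psd {e : Fin 8 → Matrix κ κ ℂ} (he : IsPVM e) (i : Fin 8) :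
    (1 - e i).PosSemidef := by
  have h := posSemidef_conjTranspose_mul_self (1 - e i)
  have h2 : (1 - e i)ᴴ * (1 - e i) = 1 - e i := by
    rw [conjTranspose_sub, conjTranspose_one, he.herm, Matrix.sub_mul, Matrix.mul_sub, Matrix.mul_sub,
      he.idem]
    simp
  rwa [h2] at h

noncomputable def gg (e f : Fin 8 → Matrix κ κ ℂ) (ε lam : ℝ) : Matrix (MX κ) (MX κ) ℂ :=
  (∑ i, ((SX i + SB i) ⊗ₖ e i + (SX i - SB i) ⊗ₖ f i) + SO ε lam ⊗ₖ (1 : Matrix κ κ ℂ)).submatrix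
    asc asc

end

lemma gg_bound (ε lam : ℝ) : ∃ C : ℝ, 0 < C ∧ ∀ (κ : Type) [Fintype κ] [DecidableEq κ]
    (e f : Fin 8 → Matrix κ κ ℂ), IsPVM e → IsPVM f → ∀ x, |qf (gg e f ε lam) x| ≤ C * n2 x := by
  choose c1 hc1 hp1 hm1 using fun i => herm_bound ((SX_herm i).add (SB_herm i))
  choose c2 hc2 hp2 hm2 using fun i => herm_bound ((SX_herm i).sub (SB_herm i))
  obtain ⟨c3, hc3, hp3, hm3⟩ := herm_bound (SO_herm ε lam)
  have hsum1 : 0 ≤ ∑ i, (c1 i + c2 i) := Finset.sum_nonneg fun i _ => add_nonneg (hc1 i) (hc2 i)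
  refine ⟨∑ i, (c1 i + c2 i) + c3 + 1, by linarith, fun κ _ _ e f he hf x => ?_⟩
  have h0 : (1 - (1 : Matrix κ κ ℂ)).PosSemidef := by rw [sub_self]; exact PosSemidef.zero
  set G := ∑ i, ((SX i + SB i) ⊗ₖ e i + (SX i - SB i) ⊗ₖ f i) + SO ε lam ⊗ₖ (1 : Matrix κ κ ℂ)
    with hG
  have hp : (((∑ i, (c1 i + c2 i) + c3 : ℝ) : ℂ) • (1 : Matrix ((Fin 17 × Fin 2) × κ) _ ℂ) +
      G).PosSemidef := by
    have e1 : (((∑ i, (c1 i + c2 i) + c3 : ℝ) : ℂ) • (1 : Matrix ((Fin 17 × Fin 2) × κ) _ ℂ) + G) =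
        ∑ i, (((c1 i : ℂ) • (1 : Matrix ((Fin 17 × Fin 2) × κ) _ ℂ) + (SX i + SB i) ⊗ₖ e i) +
          ((c2 i : ℂ) • (1 : Matrix ((Fin 17 × Fin 2) × κ) _ ℂ) + (SX i - SB i) ⊗ₖ f i)) +
        ((c3 : ℂ) • (1 : Matrix ((Fin 17 × Fin 2) × κ) _ ℂ) + SO ε lam ⊗ₖ (1 : Matrix κ κ ℂ)) := by
      rw [hG]
      push_cast
      simp only [add_smul, Finset.sum_smul, Finset.sum_add_distrib]
      abel
    rw [e1]
    refine (posSemidef_sum _ fun i _ => ?_).add (kb hc3 hp3 PosSemidef.one h0)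
    exact (kb (hc1 i) (hp1 i) (he.psd i) (he.compl_psd i)).add
      (kb (hc2 i) (hp2 i) (hf.psd i) (hf.compl_psd i))
  have hm : (((∑ i, (c1 i + c2 i) + c3 : ℝ) : ℂ) • (1 : Matrix ((Fin 17 × Fin 2) × κ) _ ℂ) -
      G).PosSemidef := by
    have e1 : (((∑ i, (c1 i + c2 i) + c3 : ℝ) : ℂ) • (1 : Matrix ((Fin 17 × Fin 2) × κ) _ ℂ) - G) =
        ∑ i, (((c1 i : ℂ) • (1 : Matrix ((Fin 17 × Fin 2) × κ) _ ℂ) - (SX i + SB i) ⊗ₖ e i) +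
          ((c2 i : ℂ) • (1 : Matrix ((Fin 17 × Fin 2) × κ) _ ℂ) - (SX i - SB i) ⊗ₖ f i)) +
        ((c3 : ℂ) • (1 : Matrix ((Fin 17 × Fin 2) × κ) _ ℂ) - SO ε lam ⊗ₖ (1 : Matrix κ κ ℂ)) := by
      rw [hG]
      push_cast
      simp only [add_smul, Finset.sum_smul, Finset.sum_add_distrib, Finset.sum_sub_distrib]
      abel
    rw [e1]
    refine (posSemidef_sum _ fun i _ => ?_).add (kb' hc3 hm3 PosSemidef.one h0)
    exact (kb' (hc1 i) (hm1 i) (he.psd i) (he.compl_psd i)).add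
      (kb' (hc2 i) (hm2 i) (hf.psd i) (hf.compl_psd i))
  have hinj : ∀ p q : MX κ, asc p = asc q ↔ p = q := by
    rintro ⟨a, b, c⟩ ⟨a', b', c'⟩
    simp [asc, Prod.ext_iff, and_assoc]
  have hone : ((1 : Matrix ((Fin 17 × Fin 2) × κ) _ ℂ)).submatrix asc asc =
      (1 : Matrix (MX κ) (MX κ) ℂ) := by
    ext p q
    rw [submatrix_apply, Matrix.one_apply, Matrix.one_apply]
    simp only [hinj]
  have hp' := hp.submatrix (asc (κ := κ))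
  have hm' := hm.submatrix (asc (κ := κ))
  have e2 : ((((∑ i, (c1 i + c2 i) + c3 : ℝ) : ℂ) • (1 : Matrix ((Fin 17 × Fin 2) × κ) _ ℂ) +
      G).submatrix asc asc) = ((∑ i, (c1 i + c2 i) + c3 : ℝ) : ℂ) • (1 : Matrix (MX κ) (MX κ) ℂ) +
        gg e f ε lam := by
    rw [← hone]; rfl
  have e3 : ((((∑ i, (c1 i + c2 i) + c3 : ℝ) : ℂ) • (1 : Matrix ((Fin 17 × Fin 2) × κ) _ ℂ) -
      G).submatrix asc asc) = ((∑ i, (c1 i + c2 i) + c3 : ℝ) : ℂ) • (1 : Matrix (MX κ) (MX κ) ℂ) -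
        gg e f ε lam := by
    rw [← hone]; rfl
  rw [e2] at hp'
  rw [e3] at hm'
  refine (qf_bound hp' hm' x).trans ?_
  have := n2_nonneg x
  nlinarith

end H93.LP3
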