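import Pool.Agent.H93.LP3.Wit3

open Matrix Complex Polynomial
open scoped ComplexOrder Kronecker

namespace H93.LP3

/-- symbol of a coefficient matrix -/
noncomputable def sym (S : Matrix (Fin 17 × Fin 2) (Fin 17 × Fin 2) ℂ) (z : ℂ) (α β : Fin 2) : ℂ :=
  ∑ k : Fin 17, ∑ l : Fin 17, z ^ (k : ℕ) * (starRingEnd ℂ z) ^ (l : ℕ) * S (k, α) (l, β)

lemma sym_add (S T : Matrix (Fin 17 × Fin 2) (Fin 17 × Fin 2) ℂ) (z : ℂ) (α β : Fin 2) :
    sym (S + T) z α β = sym S z α β + sym T z α β := by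
  simp only [sym, Matrix.add_apply, mul_add, Finset.sum_add_distrib]

lemma sym_sub (S T : Matrix (Fin 17 × Fin 2) (Fin 17 × Fin 2) ℂ) (z : ℂ) (α β : Fin 2) :
    sym (S - T) z α β = sym S z α β - sym T z α β := by
  simp only [sym, Matrix.sub_apply, mul_sub, Finset.sum_sub_distrib]

lemma diag_sym (c : ℕ → ℝ) (p : ℝ[X]) (hp : p.natDegree < 17) (hc : ∀ k, c k = p.coeff k)
    (z : ℂ) (α β : Fin 2) :
    sym (Matrix.of fun p q : Fin 17 × Fin 2 => if p = q then ((c p.1 : ℝ) : ℂ) else 0) z α β =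
      if α = β then ((p.eval (normSq z) : ℝ) : ℂ) else 0 := by
  unfold sym
  by_cases h : α = β
  · subst h
    simp only [Matrix.of_apply, Prod.mk.injEq, and_true, if_true]
    rw [eval_eq_sum_range' hp, Complex.ofReal_sum, Finset.sum_range]
    refine Finset.sum_congr rfl fun k _ => ?_
    rw [Finset.sum_eq_single k]
    · rw [if_pos rfl, ← mul_pow, Complex.mul_conj, hc]
      push_cast; ring
    · intro l _ hl
      rw [if_neg (Ne.symm hl), mul_zero]
    · simp
  · rw [if_neg h]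
    refine Finset.sum_eq_zero fun k _ => Finset.sum_eq_zero fun l _ => ?_
    simp [h]

lemma sym_SX (i : Fin 8) (z : ℂ) (α β : Fin 2) : sym (SX i) z α β =
    if α = β then ((1 / (2 * aw i) * ((el i).eval (normSq z)) ^ 2 : ℝ) : ℂ) else 0 := by
  have h := diag_sym (fun k => 1 / (2 * aw i) * (el i ^ 2).coeff k) (C (1 / (2 * aw i)) * el i ^ 2)
    (by
      refine lt_of_le_of_lt (natDegree_C_mul_le _ _) ?_
      refine lt_of_le_of_lt (natDegree_pow_le) ?_
      rw [el_natDegree]; norm_num) (fun k => by rw [coeff_C_mul]) z α β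
  rw [eval_mul, eval_C, eval_pow] at h
  exact h

lemma sym_SO (ε lam : ℝ) (z : ℂ) (α β : Fin 2) : sym (SO ε lam) z α β =
    if α = β then ((lam * (qp.eval (normSq z)) ^ 2 + ε * (1 + normSq z) ^ 16 : ℝ) : ℂ) else 0 := by
  have h := diag_sym (fun k => lam * (qp ^ 2).coeff k + ε * Nat.choose 16 k)
    (C lam * qp ^ 2 + C ε * (1 + X) ^ 16)
    (by
      refine lt_of_le_of_lt (natDegree_add_le _ _) (max_lt ?_ ?_)
      · refine lt_of_le_of_lt (natDegree_C_mul_le _ _) ?_
        refine lt_of_le_of_lt (natDegree_pow_le) ?_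
        rw [qp_natDegree]; norm_num
      · refine lt_of_le_of_lt (natDegree_C_mul_le _ _) ?_
        refine lt_of_le_of_lt (natDegree_pow_le) ?_
        have : (1 + X : ℝ[X]).natDegree ≤ 1 := by
          refine (natDegree_add_le _ _).trans ?_
          simp
        omega)
    (fun k => by rw [coeff_add, coeff_C_mul, coeff_C_mul, coeff_one_add_X_pow]) z α β
  rw [eval_add, eval_mul, eval_mul, eval_C, eval_C, eval_pow, eval_pow, eval_add, eval_one,
    eval_X] at h
  exact h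

noncomputable def BS (i : Fin 8) (t : ℝ) : ℝ := ∑ k ∈ Finset.range 7, t ^ k * cb i k

lemma shift_sum (c : ℕ → ℂ) (F : ℕ → ℕ → ℂ) :
    ∑ k : Fin 17, ∑ l : Fin 17, F k l * (if (l : ℕ) = k + 10 then c k else 0) =
      ∑ k ∈ Finset.range 7, F k (k + 10) * c k := by
  have h1 : ∀ k : Fin 17, ∑ l : Fin 17, F k l * (if (l : ℕ) = k + 10 then c k else 0) =
      if (k : ℕ) < 7 then F k (k + 10) * c k else 0 := by
    intro k
    split_ifs with hk
    · rw [Finset.sum_eq_single ⟨k + 10, by omega⟩]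
      · simp
      · intro l _ hl
        rw [if_neg, mul_zero]
        intro h'; apply hl; exact Fin.ext h'
      · simp
    · refine Finset.sum_eq_zero fun l _ => ?_
      rw [if_neg (by omega), mul_zero]
  simp_rw [h1]
  rw [← Finset.sum_range (n := 17) (f := fun k => if k < 7 then F k (k + 10) * c k else 0)]
  rw [← Finset.sum_filter]
  congr 1

lemma sym_SB10 (i : Fin 8) (z : ℂ) : sym (SB i) z 1 0 =
    (starRingEnd ℂ z) ^ 10 * ((BS i (normSq z) : ℝ) : ℂ) := by
  unfold sym SB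
  simp only [Matrix.of_apply, and_true, true_and, one_ne_zero, false_and, and_false, if_false,
    add_zero, zero_ne_one]
  have := shift_sum (fun k => ((cb i k : ℝ) : ℂ)) (fun k l => z ^ k * (starRingEnd ℂ z) ^ l)
  rw [this, BS, Complex.ofReal_sum, Finset.mul_sum]
  refine Finset.sum_congr rfl fun k _ => ?_
  push_cast
  rw [← Complex.mul_conj]
  ring

lemma sym_SB01 (i : Fin 8) (z : ℂ) : sym (SB i) z 0 1 =
    z ^ 10 * ((BS i (normSq z) : ℝ) : ℂ) := by
  unfold sym SB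
  simp only [Matrix.of_apply, and_true, true_and, one_ne_zero, false_and, and_false, if_false,
    zero_add, zero_ne_one]
  rw [Finset.sum_comm]
  have := shift_sum (fun k => ((cb i k : ℝ) : ℂ)) (fun k l => z ^ l * (starRingEnd ℂ z) ^ k)
  rw [this, BS, Complex.ofReal_sum, Finset.mul_sum]
  refine Finset.sum_congr rfl fun k _ => ?_
  push_cast
  rw [← Complex.mul_conj]
  ring

lemma sym_SB_diag (i : Fin 8) (z : ℂ) (α : Fin 2) : sym (SB i) z α α = 0 := by
  unfold sym SB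
  refine Finset.sum_eq_zero fun k _ => Finset.sum_eq_zero fun l _ => ?_
  simp only [Matrix.of_apply]
  rw [if_neg, if_neg]
  · simp
  · rintro ⟨_, h1, h2⟩; rw [h1] at h2; exact absurd h2 (by decide)
  · rintro ⟨_, h1, h2⟩; rw [h1] at h2; exact absurd h2 (by decide)

lemma sum6 {A B C D E G : Type*} [Fintype A] [Fintype B] [Fintype C] [Fintype D] [Fintype E]
    [Fintype G] (f : A → B → C → D → E → G → ℂ) :
    ∑ k, ∑ α, ∑ x, ∑ l, ∑ β, ∑ y, f k α x l β y = ∑ α, ∑ β, ∑ k, ∑ l, ∑ x, ∑ y, f k α x l β y := by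
  calc _ = ∑ α, ∑ k, ∑ x, ∑ l, ∑ β, ∑ y, f k α x l β y := Finset.sum_comm
    _ = ∑ α, ∑ k, ∑ x, ∑ β, ∑ l, ∑ y, f k α x l β y :=
        Finset.sum_congr rfl fun _ _ => Finset.sum_congr rfl fun _ _ =>
          Finset.sum_congr rfl fun _ _ => Finset.sum_comm
    _ = ∑ α, ∑ k, ∑ β, ∑ x, ∑ l, ∑ y, f k α x l β y :=
        Finset.sum_congr rfl fun _ _ => Finset.sum_congr rfl fun _ _ => Finset.sum_comm
    _ = ∑ α, ∑ β, ∑ k, ∑ x, ∑ l, ∑ y, f k α x l β y :=
        Finset.sum_congr rfl fun _ _ => Finset.sum_comm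
    _ = ∑ α, ∑ β, ∑ k, ∑ l, ∑ x, ∑ y, f k α x l β y :=
        Finset.sum_congr rfl fun _ _ => Finset.sum_congr rfl fun _ _ =>
          Finset.sum_congr rfl fun _ _ => Finset.sum_comm

section
variable {κ : Type} [Fintype κ]

/-- sesquilinear form -/
noncomputable def sq (Y : Matrix κ κ ℂ) (a b : κ → ℂ) : ℂ := star a ⬝ᵥ (Y *ᵥ b)

lemma W0_form (S : Matrix (Fin 17 × Fin 2) (Fin 17 × Fin 2) ℂ) (Y : Matrix κ κ ℂ) (z : ℂ)
    (h : Fin 2 × κ → ℂ) :
    star (W0 z h) ⬝ᵥ (((S ⊗ₖ Y).submatrix asc asc) *ᵥ (W0 z h)) =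
      ∑ α, ∑ β, sym S z α β * sq Y (fun x => h (α, x)) (fun x => h (β, x)) := by
  have h1 : star (W0 z h) ⬝ᵥ (((S ⊗ₖ Y).submatrix asc asc) *ᵥ (W0 z h)) =
      ∑ k : Fin 17, ∑ α : Fin 2, ∑ x, ∑ l : Fin 17, ∑ β : Fin 2, ∑ y,
        z ^ (k : ℕ) * star (h (α, x)) * (S (k, α) (l, β) * Y x y *
          ((starRingEnd ℂ z) ^ (l : ℕ) * h (β, y))) := by
    simp only [dotProduct, mulVec, Fintype.sum_prod_type, submatrix_apply, asc,
      kroneckerMap_apply, W0, Pi.star_apply, star_mul', star_pow, Complex.star_def,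
      Complex.conj_conj, Finset.mul_sum]
  rw [h1, sum6]
  refine Finset.sum_congr rfl fun α _ => Finset.sum_congr rfl fun β _ => ?_
  unfold sym sq dotProduct mulVec dotProduct
  rw [Finset.sum_mul]
  refine Finset.sum_congr rfl fun k _ => ?_
  rw [Finset.sum_mul]
  refine Finset.sum_congr rfl fun l _ => ?_
  rw [Finset.mul_sum]
  refine Finset.sum_congr rfl fun x _ => ?_
  rw [Finset.mul_sum, Finset.mul_sum]
  refine Finset.sum_congr rfl fun y _ => ?_
  simp only [Pi.star_apply]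
  ring

lemma sq_add_left (Y : Matrix κ κ ℂ) (a a' b : κ → ℂ) : sq Y (a + a') b = sq Y a b + sq Y a' b := by
  unfold sq; rw [star_add, add_dotProduct]

lemma sq_add_right (Y : Matrix κ κ ℂ) (a b b' : κ → ℂ) : sq Y a (b + b') = sq Y a b + sq Y a b' := by
  unfold sq; rw [mulVec_add, dotProduct_add]

lemma sq_smul_left (Y : Matrix κ κ ℂ) (c : ℂ) (a b : κ → ℂ) :
    sq Y (c • a) b = starRingEnd ℂ c * sq Y a b := by
  unfold sq; rw [star_smul, smul_dotProduct]; rfl

lemma sq_smul_right (Y : Matrix κ κ ℂ) (c : ℂ) (a b : κ → ℂ) :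
    sq Y a (c • b) = c * sq Y a b := by
  unfold sq; rw [mulVec_smul, dotProduct_smul]; rfl

lemma qf_eq_sq (Y : Matrix κ κ ℂ) (a : κ → ℂ) : qf Y a = (sq Y a a).re := rfl

lemma qf_expand (Y : Matrix κ κ ℂ) (u : ℂ) (a b : κ → ℂ) : qf Y (a + u • b) =
    (sq Y a a + u * sq Y a b + starRingEnd ℂ u * sq Y b a +
      starRingEnd ℂ u * (u * sq Y b b)).re := by
  rw [qf_eq_sq, sq_add_left, sq_add_right, sq_add_right, sq_smul_left, sq_smul_right, sq_smul_left,
    sq_smul_right]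
  congr 1; ring

/-- cross terms in polar form -/
lemma cross (Y : Matrix κ κ ℂ) (u : ℂ) (a b : κ → ℂ) :
    (starRingEnd ℂ u * sq Y b a + u * sq Y a b).re = (qf Y (a + u • b) - qf Y (a + (-u) • b)) / 2 := by
  rw [qf_expand, qf_expand, ← Complex.sub_re, map_neg]
  have : (sq Y a a + u * sq Y a b + starRingEnd ℂ u * sq Y b a + starRingEnd ℂ u * (u * sq Y b b)) -
      (sq Y a a + (-u) * sq Y a b + -starRingEnd ℂ u * sq Y b a +
        -starRingEnd ℂ u * ((-u) * sq Y b b)) =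
      ((2 : ℝ) : ℂ) * (starRingEnd ℂ u * sq Y b a + u * sq Y a b) := by
    push_cast; ring
  rw [this, Complex.re_ofReal_mul]
  ring

lemma par (Y : Matrix κ κ ℂ) (u : ℂ) (hu : starRingEnd ℂ u * u = 1) (a b : κ → ℂ) :
    qf Y a + qf Y b = (qf Y (a + u • b) + qf Y (a + (-u) • b)) / 2 := by
  have h1 : starRingEnd ℂ u * (u * sq Y b b) = sq Y b b := by
    rw [← mul_assoc, hu, one_mul]
  have h2 : qf Y (a + u • b) = (sq Y a a + u * sq Y a b + starRingEnd ℂ u * sq Y b a + sq Y b b).re := by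
    rw [qf_eq_sq, sq_add_left, sq_add_right, sq_add_right, sq_smul_left, sq_smul_right, sq_smul_left,
      sq_smul_right, h1]
    congr 1; ring
  have h3 : qf Y (a + (-u) • b) =
      (sq Y a a - u * sq Y a b - starRingEnd ℂ u * sq Y b a + sq Y b b).re := by
    rw [qf_eq_sq, sq_add_left, sq_add_right, sq_add_right, sq_smul_left, sq_smul_right, sq_smul_left,
      sq_smul_right, map_neg]
    congr 1
    linear_combination h1
  rw [h2, h3, qf_eq_sq, qf_eq_sq]
  simp only [Complex.add_re, Complex.sub_re]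
  ring

end

end H93.LP3
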