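import Pool.Agent.H93.LP3.Wit4

open Matrix Complex Polynomial
open scoped ComplexOrder Kronecker

namespace H93.LP3

lemma real_pm {A τ s E F n : ℝ} (hs : s = 1 ∨ s = -1) (hE : 0 ≤ E) (hE' : E ≤ n) (hF : 0 ≤ F)
    (hF' : F ≤ n) : -(|A * (τ - A)| * n) ≤ A ^ 2 * (E + F) + s * τ * A * (E - F) := by
  have h1 : A ^ 2 * (E + F) + s * τ * A * (E - F) =
      A ^ 2 * ((E + F) + s * (E - F)) + s * (A * (τ - A)) * (E - F) := by ring
  have h2 : 0 ≤ A ^ 2 * ((E + F) + s * (E - F)) := by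
    apply mul_nonneg (sq_nonneg _)
    rcases hs with rfl | rfl <;> linarith
  have h3 : |s * (A * (τ - A)) * (E - F)| ≤ |A * (τ - A)| * n := by
    rw [abs_mul, abs_mul]
    have hs1 : |s| = 1 := by rcases hs with rfl | rfl <;> simp
    rw [hs1, one_mul]
    apply mul_le_mul_of_nonneg_left _ (abs_nonneg _)
    rw [abs_le]; constructor <;> linarith
  have h4 := (abs_le.1 h3).1
  linarith

lemma sg_pm (i : Fin 8) : sg i = 1 ∨ sg i = -1 := by
  unfold sg
  exact neg_one_pow_eq_or ℝ _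

lemma BS_eq (i : Fin 8) (t : ℝ) : BS i t * t ^ 5 =
    1 / (2 * aw i) * (sg i * (t / tt i) ^ 5 * (el i).eval t) + t ^ 12 / 10080 := by
  have h1 : (el i).eval t = ∑ k ∈ Finset.range 7, (el i).coeff k * t ^ k + (el i).coeff 7 * t ^ 7 := by
    rw [eval_eq_sum_range' (n := 8) (by rw [el_natDegree]; norm_num), Finset.sum_range_succ]
  have h2 : BS i t = sg i / (2 * aw i * tt i ^ 5) * ∑ k ∈ Finset.range 7, (el i).coeff k * t ^ k := by
    unfold BS cb
    rw [Finset.mul_sum]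
    exact Finset.sum_congr rfl fun k _ => by ring
  have h3 : ∑ k ∈ Finset.range 7, (el i).coeff k * t ^ k =
      (el i).eval t - (el i).coeff 7 * t ^ 7 := by rw [h1]; ring
  rw [h2, h3, el_coeff7]
  have ha := (aw_pos i).ne'
  have ht := (tt_pos i).ne'
  have hch : (Nat.choose 7 i : ℝ) = aw i * tt i ^ 5 := by
    unfold aw; field_simp
  have hs := sg_sq i
  rw [hch, div_pow]
  field_simp
  linear_combination (10080 * aw i * tt i ^ 5 * t ^ 12) * hs

lemma polar (z : ℂ) : ∃ u : ℂ, starRingEnd ℂ u * u = 1 ∧ z ^ 10 = (((normSq z) ^ 5 : ℝ) : ℂ) * u := by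
  by_cases hz : z = 0
  · refine ⟨1, by simp, ?_⟩
    rw [hz]; simp
  · have hn : (‖z‖ : ℂ) ≠ 0 := by
      simpa using hz
    refine ⟨(z / ‖z‖) ^ 10, ?_, ?_⟩
    · rw [map_pow, ← mul_pow, mul_comm, Complex.mul_conj]
      have : normSq (z / ‖z‖) = 1 := by
        rw [Complex.normSq_eq_norm_sq, norm_div, Complex.norm_real, norm_norm, div_self, one_pow]
        simpa using hz
      rw [this]; simp
    · have h1 : normSq z = ‖z‖ ^ 2 := Complex.normSq_eq_norm_sq z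
      rw [h1, div_pow]
      push_cast
      field_simp

section
variable {κ : Type} [Fintype κ] [DecidableEq κ]

lemma qf_one (x : κ → ℂ) : qf (1 : Matrix κ κ ℂ) x = n2 x := by
  have := qf_smul_one (α := κ) 1 x
  simpa using this

lemma IsPVM.qf_le {e : Fin 8 → Matrix κ κ ℂ} (he : IsPVM e) (i : Fin 8) (x : κ → ℂ) :
    qf (e i) x ≤ n2 x := by
  have := qf_of_psd (he.compl_psd i) x
  rw [qf_subM, qf_one] at this
  linarith

lemma qf_sum {ι : Type*} (s : Finset ι) (e : ι → Matrix κ κ ℂ) (x : κ → ℂ) :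
    qf (∑ i ∈ s, e i) x = ∑ i ∈ s, qf (e i) x := by
  classical
  unfold qf
  rw [Matrix.sum_mulVec, dotProduct_sum, Complex.re_sum]

lemma IsPVM.qf_sum_eq {e : Fin 8 → Matrix κ κ ℂ} (he : IsPVM e) (x : κ → ℂ) :
    ∑ i, qf (e i) x = n2 x := by
  rw [← qf_sum, he.sum_one, qf_one]

/-- the contribution of one Kronecker term -/
lemma term_re (S : Matrix (Fin 17 × Fin 2) (Fin 17 × Fin 2) ℂ) (Y : Matrix κ κ ℂ) (z u : ℂ)
    (hu : starRingEnd ℂ u * u = 1) (a b : ℝ) (t5 : ℝ) (h10 : z ^ 10 = (t5 : ℂ) * u)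
    (h00 : sym S z 0 0 = a) (h11 : sym S z 1 1 = a) (h01 : sym S z 0 1 = z ^ 10 * b)
    (h10' : sym S z 1 0 = (starRingEnd ℂ z) ^ 10 * b) (h : Fin 2 × κ → ℂ) :
    qf ((S ⊗ₖ Y).submatrix asc asc) (W0 z h) =
      a * ((qf Y ((fun x => h (0, x)) + u • (fun x => h (1, x))) +
        qf Y ((fun x => h (0, x)) + (-u) • (fun x => h (1, x)))) / 2) +
      b * t5 * ((qf Y ((fun x => h (0, x)) + u • (fun x => h (1, x))) -
        qf Y ((fun x => h (0, x)) + (-u) • (fun x => h (1, x)))) / 2) := by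
  unfold qf
  rw [W0_form]
  simp only [Fin.sum_univ_two]
  rw [h00, h11, h01, h10']
  have hc : (starRingEnd ℂ z) ^ 10 = (t5 : ℂ) * starRingEnd ℂ u := by
    rw [← map_pow, h10, map_mul, Complex.conj_ofReal]
  rw [hc, h10]
  set h0 := fun x => h (0, x) with hh0
  set h1 := fun x => h (1, x) with hh1
  have e1 := par Y u hu h0 h1
  have e2 := cross Y u h0 h1
  unfold qf at e1 e2
  rw [← e1, ← e2]
  have e3 : (a : ℂ) * sq Y h0 h0 + (t5 : ℂ) * u * b * sq Y h0 h1 +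
      ((t5 : ℂ) * starRingEnd ℂ u * b * sq Y h1 h0 + (a : ℂ) * sq Y h1 h1) =
      (a : ℂ) * (sq Y h0 h0 + sq Y h1 h1) +
      ((b * t5 : ℝ) : ℂ) * (starRingEnd ℂ u * sq Y h1 h0 + u * sq Y h0 h1) := by
    push_cast; ring
  rw [e3, Complex.add_re, Complex.re_ofReal_mul, Complex.re_ofReal_mul, Complex.add_re]
  rfl

lemma W0_lower {ε lam : ℝ} (hlam : ∀ t : ℝ, 0 ≤ t →
    ∑ i, 1 / (2 * aw i) * |(el i).eval t * ((t / tt i) ^ 5 - (el i).eval t)| ≤
      lam * (qp.eval t) ^ 2 + ε / 2 * (1 + t) ^ 16)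
    {e f : Fin 8 → Matrix κ κ ℂ} (he : IsPVM e) (hf : IsPVM f) (z : ℂ) (h : Fin 2 × κ → ℂ) :
    ε / 2 * (1 + normSq z) ^ 16 * n2 h ≤ qf (gg e f ε lam) (W0 z h) := by
  obtain ⟨u, hu, hz10⟩ := polar z
  set t := normSq z with ht
  have ht0 : 0 ≤ t := Complex.normSq_nonneg z
  set h0 : κ → ℂ := fun x => h (0, x) with hh0
  set h1 : κ → ℂ := fun x => h (1, x) with hh1
  set p := h0 + u • h1 with hp
  set m := h0 + (-u) • h1 with hm
  have hn : n2 h = (n2 p + n2 m) / 2 := by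
    have e1 := par (1 : Matrix κ κ ℂ) u hu h0 h1
    rw [qf_one, qf_one, qf_one, qf_one] at e1
    rw [← e1]
    unfold n2
    rw [Fintype.sum_prod_type, Fin.sum_univ_two]
  have hE : ∀ i, qf (((SX i + SB i) ⊗ₖ e i).submatrix asc asc) (W0 z h) =
      (1 / (2 * aw i) * ((el i).eval t) ^ 2) * ((qf (e i) p + qf (e i) m) / 2) +
      BS i t * t ^ 5 * ((qf (e i) p - qf (e i) m) / 2) := by
    intro i
    apply term_re _ _ _ _ hu _ _ _ hz10
    · rw [sym_add, sym_SX, sym_SB_diag]; simp [ht]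
    · rw [sym_add, sym_SX, sym_SB_diag]; simp [ht]
    · rw [sym_add, sym_SX, sym_SB01]; simp [ht]
    · rw [sym_add, sym_SX, sym_SB10]; simp [ht]
  have hF : ∀ i, qf (((SX i - SB i) ⊗ₖ f i).submatrix asc asc) (W0 z h) =
      (1 / (2 * aw i) * ((el i).eval t) ^ 2) * ((qf (f i) p + qf (f i) m) / 2) +
      (-BS i t) * t ^ 5 * ((qf (f i) p - qf (f i) m) / 2) := by
    intro i
    apply term_re _ _ _ _ hu _ _ _ hz10
    · rw [sym_sub, sym_SX, sym_SB_diag]; simp [ht]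
    · rw [sym_sub, sym_SX, sym_SB_diag]; simp [ht]
    · rw [sym_sub, sym_SX, sym_SB01]; simp [ht]
    · rw [sym_sub, sym_SX, sym_SB10]; simp [ht]
  have hO : qf ((SO ε lam ⊗ₖ (1 : Matrix κ κ ℂ)).submatrix asc asc) (W0 z h) =
      (lam * (qp.eval t) ^ 2 + ε * (1 + t) ^ 16) * ((n2 p + n2 m) / 2) := by
    have := term_re (SO ε lam) (1 : Matrix κ κ ℂ) z u hu
      (lam * (qp.eval t) ^ 2 + ε * (1 + t) ^ 16) 0 (t ^ 5) hz10
      (by rw [sym_SO]; simp [ht]) (by rw [sym_SO]; simp [ht]) (by rw [sym_SO]; simp)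
      (by rw [sym_SO]; simp) h
    rw [this, qf_one, qf_one]
    ring
  have hgg : qf (gg e f ε lam) (W0 z h) =
      ∑ i, (qf (((SX i + SB i) ⊗ₖ e i).submatrix asc asc) (W0 z h) +
        qf (((SX i - SB i) ⊗ₖ f i).submatrix asc asc) (W0 z h)) +
      qf ((SO ε lam ⊗ₖ (1 : Matrix κ κ ℂ)).submatrix asc asc) (W0 z h) := by
    have e1 : gg e f ε lam = ∑ i, (((SX i + SB i) ⊗ₖ e i).submatrix asc asc +
        ((SX i - SB i) ⊗ₖ f i).submatrix asc asc) +
        (SO ε lam ⊗ₖ (1 : Matrix κ κ ℂ)).submatrix asc asc := by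
      unfold gg
      ext a b
      simp only [submatrix_apply, Matrix.add_apply, Matrix.sum_apply]
    rw [e1, qf_addM]
    congr 1
    unfold qf
    rw [Matrix.sum_mulVec, dotProduct_sum, Complex.re_sum]
    refine Finset.sum_congr rfl fun i _ => ?_
    rw [add_mulVec, dotProduct_add, Complex.add_re]
  rw [hgg, hO]
  simp_rw [hE, hF]
  -- abbreviations
  set Ep := fun i => qf (e i) p with hEp
  set Em := fun i => qf (e i) m with hEm
  set Fp := fun i => qf (f i) p with hFp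
  set Fm := fun i => qf (f i) m with hFm
  have s1 : ∑ i, Ep i = n2 p := he.qf_sum_eq p
  have s2 : ∑ i, Em i = n2 m := he.qf_sum_eq m
  have s3 : ∑ i, Fp i = n2 p := hf.qf_sum_eq p
  have s4 : ∑ i, Fm i = n2 m := hf.qf_sum_eq m
  have hterm : ∀ i, (1 / (2 * aw i) * ((el i).eval t) ^ 2) * ((Ep i + Em i) / 2) +
      BS i t * t ^ 5 * ((Ep i - Em i) / 2) +
      ((1 / (2 * aw i) * ((el i).eval t) ^ 2) * ((Fp i + Fm i) / 2) +
      (-BS i t) * t ^ 5 * ((Fp i - Fm i) / 2)) ≥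
      -(1 / (2 * aw i) * |(el i).eval t * ((t / tt i) ^ 5 - (el i).eval t)|) * ((n2 p + n2 m) / 2) +
      t ^ 12 / 10080 * ((Ep i - Em i - Fp i + Fm i) / 2) := by
    intro i
    set A := (el i).eval t
    set τ := (t / tt i) ^ 5
    have hb : BS i t * t ^ 5 = 1 / (2 * aw i) * (sg i * τ * A) + t ^ 12 / 10080 := BS_eq i t
    have e1 := real_pm (A := A) (τ := τ) (sg_pm i) (qf_of_psd (he.psd i) p) (he.qf_le i p)
      (qf_of_psd (hf.psd i) p) (hf.qf_le i p)
    have e2 := real_pm (A := A) (τ := τ) (s := -sg i) (by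
      rcases sg_pm i with h | h <;> rw [h] <;> simp) (qf_of_psd (he.psd i) m) (he.qf_le i m)
      (qf_of_psd (hf.psd i) m) (hf.qf_le i m)
    change _ ≤ A ^ 2 * (Ep i + Fp i) + sg i * τ * A * (Ep i - Fp i) at e1
    change _ ≤ A ^ 2 * (Em i + Fm i) + -sg i * τ * A * (Em i - Fm i) at e2
    have ha : 0 < 1 / (2 * aw i) := by have := aw_pos i; positivity
    set w := 1 / (2 * aw i) with hw
    have e3 : w * A ^ 2 * ((Ep i + Em i) / 2) + BS i t * t ^ 5 * ((Ep i - Em i) / 2) +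
      (w * A ^ 2 * ((Fp i + Fm i) / 2) + (-BS i t) * t ^ 5 * ((Fp i - Fm i) / 2)) =
      w / 2 * ((A ^ 2 * (Ep i + Fp i) + sg i * τ * A * (Ep i - Fp i)) +
        (A ^ 2 * (Em i + Fm i) + -sg i * τ * A * (Em i - Fm i))) +
      t ^ 12 / 10080 * ((Ep i - Em i - Fp i + Fm i) / 2) := by
      have : (-BS i t) * t ^ 5 = -(w * (sg i * τ * A) + t ^ 12 / 10080) := by
        rw [← hb]; ring
      rw [this, hb]; ring
    rw [e3]
    have e4 : w / 2 * (-(|A * (τ - A)| * n2 p) + -(|A * (τ - A)| * n2 m)) ≤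
      w / 2 * ((A ^ 2 * (Ep i + Fp i) + sg i * τ * A * (Ep i - Fp i)) +
        (A ^ 2 * (Em i + Fm i) + -sg i * τ * A * (Em i - Fm i))) :=
      mul_le_mul_of_nonneg_left (add_le_add e1 e2) (by positivity)
    have e5 : w / 2 * (-(|A * (τ - A)| * n2 p) + -(|A * (τ - A)| * n2 m)) =
      -(w * |A * (τ - A)|) * ((n2 p + n2 m) / 2) := by ring
    rw [e5] at e4
    linarith
  have hsum := Finset.sum_le_sum (s := Finset.univ) fun i (_ : i ∈ Finset.univ) => hterm i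
  have hrhs : ∑ i, (-(1 / (2 * aw i) * |(el i).eval t * ((t / tt i) ^ 5 - (el i).eval t)|) *
      ((n2 p + n2 m) / 2) + t ^ 12 / 10080 * ((Ep i - Em i - Fp i + Fm i) / 2)) =
      -(∑ i, 1 / (2 * aw i) * |(el i).eval t * ((t / tt i) ^ 5 - (el i).eval t)|) *
      ((n2 p + n2 m) / 2) := by
    rw [Finset.sum_add_distrib, ← Finset.mul_sum, ← Finset.sum_div, Finset.sum_add_distrib,
      Finset.sum_sub_distrib, Finset.sum_sub_distrib, s1, s2, s3, s4, ← Finset.sum_mul,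
      Finset.sum_neg_distrib]
    ring
  rw [hrhs] at hsum
  have hl := hlam t ht0
  have hnn : 0 ≤ (n2 p + n2 m) / 2 := by
    have := n2_nonneg p; have := n2_nonneg m; positivity
  have h5 := mul_le_mul_of_nonneg_right hl hnn
  rw [hn]
  linarith

end

end H93.LP3
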