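import Pool.Agent.H93.LP3.Wit5

open Matrix Complex Polynomial
open scoped ComplexOrder Kronecker

namespace H93.LP3

section
variable {α β : Type*} [Fintype α] [Fintype β]

lemma star_conj_form (g : Matrix α α ℂ) (B : Matrix α β ℂ) (w : β → ℂ) :
    star w ⬝ᵥ ((Bᴴ * g * B) *ᵥ w) = star (B *ᵥ w) ⬝ᵥ (g *ᵥ (B *ᵥ w)) := by
  rw [star_mulVec, dotProduct_mulVec, dotProduct_mulVec, dotProduct_mulVec, vecMul_vecMul,
    vecMul_vecMul, Matrix.mul_assoc]

lemma qf_conj (g : Matrix α α ℂ) (B : Matrix α β ℂ) (w : β → ℂ) :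
    qf (Bᴴ * g * B) w = qf g (B *ᵥ w) := by
  unfold qf; rw [star_conj_form]

lemma qf_gram (B : Matrix α β ℂ) (w : β → ℂ) : qf (Bᴴ * B) w = n2 (B *ᵥ w) := by
  classical
  have := qf_conj (1 : Matrix α α ℂ) B w
  rw [Matrix.mul_one] at this
  rw [this]
  have h := qf_smul_one (α := α) 1 (B *ᵥ w)
  simpa using h

lemma qf_smulM (g : Matrix α α ℂ) (c : ℝ) (x : α → ℂ) : qf ((c : ℂ) • g) x = c * qf g x := by
  unfold qf
  rw [smul_mulVec, dotProduct_smul, smul_eq_mul, Complex.re_ofReal_mul]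

end

section
variable {κ : Type} [Fintype κ] [DecidableEq κ]

lemma n2_W0 (z : ℂ) (h : Fin 2 × κ → ℂ) : n2 (W0 z h) ≤ 17 * ((1 + normSq z) ^ 16 * n2 h) := by
  unfold n2
  rw [Fintype.sum_prod_type]
  have h1 : ∀ l : Fin 17, ∑ y : Fin 2 × κ, ‖W0 z h (l, y)‖ ^ 2 ≤ (1 + normSq z) ^ 16 *
      ∑ y, ‖h y‖ ^ 2 := by
    intro l
    rw [Finset.mul_sum]
    refine Finset.sum_le_sum fun y _ => ?_
    unfold W0
    simp only
    rw [norm_mul, mul_pow, norm_pow, RCLike.norm_conj, ← pow_mul, mul_comm (l : ℕ) 2, pow_mul,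
      ← Complex.normSq_eq_norm_sq]
    have h0 := Complex.normSq_nonneg z
    apply mul_le_mul_of_nonneg_right _ (sq_nonneg _)
    calc normSq z ^ (l : ℕ) ≤ (1 + normSq z) ^ (l : ℕ) := pow_le_pow_left₀ h0 (by linarith) _
      _ ≤ (1 + normSq z) ^ 16 := pow_le_pow_right₀ (by linarith) (by omega)
  calc _ ≤ ∑ l : Fin 17, (1 + normSq z) ^ 16 * ∑ y, ‖h y‖ ^ 2 :=
        Finset.sum_le_sum fun l _ => h1 l
    _ = _ := by simp

lemma kron_herm {ν κ : Type*} {S : Matrix ν ν ℂ} {Y : Matrix κ κ ℂ} (hS : S.IsHermitian)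
    (hY : Y.IsHermitian) : (S ⊗ₖ Y).IsHermitian := by
  unfold IsHermitian
  rw [conjTranspose_kronecker, hS.eq, hY.eq]

lemma gg_herm {e f : Fin 8 → Matrix κ κ ℂ} (he : IsPVM e) (hf : IsPVM f) (ε lam : ℝ) :
    (gg e f ε lam).IsHermitian := by
  unfold gg
  apply IsHermitian.submatrix
  apply IsHermitian.add
  · unfold IsHermitian
    rw [conjTranspose_sum]
    refine Finset.sum_congr rfl fun i _ => ?_
    exact ((kron_herm ((SX_herm i).add (SB_herm i)) (he.herm i)).add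
      (kron_herm ((SX_herm i).sub (SB_herm i)) (hf.herm i))).eq
  · exact kron_herm (SO_herm ε lam) isHermitian_one

lemma zVal_Wit_herm {g : Matrix (MX κ) (MX κ) ℂ} (hg : g.IsHermitian) (lam1 : ℝ) (z : ℂ) :
    (zVal (Wit g lam1) z).IsHermitian := by
  rw [zVal_Wit]
  apply IsHermitian.add
  · exact isHermitian_conjTranspose_mul_mul _ hg
  · apply IsHermitian.smul
    · exact isHermitian_conjTranspose_mul_self _
    · simp [IsSelfAdjoint]

/-- the witness is positive -/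
lemma Wit_zPos {ε lam C : ℝ} (hε : 0 < ε) (hC : 0 < C) (hlam : ∀ t : ℝ, 0 ≤ t →
    ∑ i, 1 / (2 * aw i) * |(el i).eval t * ((t / tt i) ^ 5 - (el i).eval t)| ≤
      lam * (qp.eval t) ^ 2 + ε / 2 * (1 + t) ^ 16)
    {e f : Fin 8 → Matrix κ κ ℂ} (he : IsPVM e) (hf : IsPVM f)
    (hb : ∀ x, |qf (gg e f ε lam) x| ≤ C * n2 x) :
    ZPos (Wit (gg e f ε lam) (255 * (3 * C / (ε / (102 * C)) + C))) := by
  intro z
  refine PosSemidef.of_dotProduct_mulVec_nonneg (zVal_Wit_herm (gg_herm he hf ε lam) _ z)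
    fun w => ?_
  have hreal := quad_real (zVal_Wit_herm (gg_herm he hf ε lam)
    (255 * (3 * C / (ε / (102 * C)) + C)) z) w
  rw [← hreal]
  have : 0 ≤ qf (zVal (Wit (gg e f ε lam) (255 * (3 * C / (ε / (102 * C)) + C))) z) w := by
    rw [zVal_Wit, qf_addM, qf_conj, qf_smulM, qf_gram]
    obtain ⟨h, W', hW, hW'⟩ := decomp z w
    rw [hW]
    set s := ε / (102 * C) with hs
    have hs0 : 0 < s := by positivity
    have h1 := qf_perturb (gg e f ε lam) hC.le hb hs0 (W0 z h) W'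
    have h2 := W0_lower hlam he hf z h
    have h3 := n2_W0 z h
    have h4 : 3 * C * s * n2 (W0 z h) ≤ ε / 2 * (1 + normSq z) ^ 16 * n2 h := by
      have e1 : 3 * C * s = ε / 34 := by
        rw [hs]; field_simp; norm_num
      rw [e1]
      calc ε / 34 * n2 (W0 z h) ≤ ε / 34 * (17 * ((1 + normSq z) ^ 16 * n2 h)) := by gcongr
        _ = _ := by ring
    have h5 : (3 * C / s + C) * n2 W' ≤
        (3 * C / s + C) * (255 * n2 ((dz z ⊗ₖ (1 : Matrix (Fin 2 × κ) (Fin 2 × κ) ℂ)) *ᵥ w)) := by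
      have : 0 ≤ 3 * C / s + C := by positivity
      exact mul_le_mul_of_nonneg_left hW' this
    have h6 : 3 * C * (s * n2 (W0 z h) + n2 W' / s) + C * n2 W' =
        3 * C * s * n2 (W0 z h) + (3 * C / s + C) * n2 W' := by
      field_simp
      ring
    linarith
  exact_mod_cast this

lemma BB_norm (u : Fin 2) (l : Fin 17) (b : Fin 16) : ‖BB u l b‖ ^ 2 ≤ 1 := by
  simp only [BB, Matrix.of_apply]
  split_ifs <;> simp

lemma DD_norm (u : Fin 2) (l : Fin 15) (b : Fin 16) : ‖DD u l b‖ ^ 2 ≤ 1 := by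
  simp only [DD, Matrix.of_apply]
  split_ifs <;> simp

lemma n2_kron_single {m : ℕ} (A : Matrix (Fin m) (Fin 16) ℂ) (hA : ∀ l b, ‖A l b‖ ^ 2 ≤ 1)
    (p : IX κ) : n2 ((A ⊗ₖ (1 : Matrix (Fin 2 × κ) (Fin 2 × κ) ℂ)) *ᵥ (Pi.single p 1)) ≤ m := by
  unfold n2
  rw [Fintype.sum_prod_type]
  have h1 : ∀ l : Fin m, ∑ y : Fin 2 × κ,
      ‖((A ⊗ₖ (1 : Matrix (Fin 2 × κ) (Fin 2 × κ) ℂ)) *ᵥ (Pi.single p 1)) (l, y)‖ ^ 2 ≤ 1 := by
    intro l
    have h2 : ∀ y : Fin 2 × κ,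
        ((A ⊗ₖ (1 : Matrix (Fin 2 × κ) (Fin 2 × κ) ℂ)) *ᵥ (Pi.single p 1)) (l, y) =
        if y = p.2 then A l p.1 else 0 := by
      intro y
      rw [kron_mulVec]
      simp only
      rw [Finset.sum_eq_single p.1]
      · by_cases hy : y = p.2
        · subst hy; simp
        · have : (p.1, y) ≠ p := by
            intro h'; apply hy; rw [← h']
          simp [hy, this]
      · intro b _ hb
        have : (b, y) ≠ p := by
          intro h'; apply hb; rw [← h']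
        simp [this]
      · simp
    simp_rw [h2]
    rw [Finset.sum_eq_single p.2]
    · simp only [if_true]; exact hA _ _
    · intro y _ hy; simp [hy]
    · simp
  calc _ ≤ ∑ l : Fin m, (1 : ℝ) := Finset.sum_le_sum fun l _ => h1 l
    _ = _ := by simp

lemma Wit_diag {g : Matrix (MX κ) (MX κ) ℂ} {C lam1 : ℝ} (hC : 0 ≤ C) (hl : 0 ≤ lam1)
    (hb : ∀ x, |qf g x| ≤ C * n2 x) (p : IX κ) :
    (Wit g lam1 p p 0).re ≤ 17 * C + 15 * lam1 := by
  have h1 : ∀ u : Fin 2, (Fh g lam1 u u p p).re ≤ 17 * C + 15 * lam1 := by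
    intro u
    have e1 : (Fh g lam1 u u p p).re = qf (Fh g lam1 u u) (Pi.single p 1) := by
      unfold qf
      rw [mulVec_single_one]
      simp [dotProduct, Pi.single_apply]
    have e2 : Fh g lam1 u u = (BB u ⊗ₖ (1 : Matrix (Fin 2 × κ) (Fin 2 × κ) ℂ))ᴴ * g *
        (BB u ⊗ₖ (1 : Matrix (Fin 2 × κ) (Fin 2 × κ) ℂ)) + (lam1 : ℂ) •
        ((DD u ⊗ₖ (1 : Matrix (Fin 2 × κ) (Fin 2 × κ) ℂ))ᴴ *
          (DD u ⊗ₖ (1 : Matrix (Fin 2 × κ) (Fin 2 × κ) ℂ))) := by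
      unfold Fh
      rw [conjTranspose_kronecker, conjTranspose_kronecker, BB_conj, DD_conj,
        conjTranspose_one, ← mul_kronecker_mul, Matrix.one_mul, ← kroneckerMap_transpose,
        transpose_one]
    rw [e1, e2, qf_addM, qf_conj, qf_smulM, qf_gram]
    have e3 := (abs_le.1 (hb ((BB u ⊗ₖ (1 : Matrix (Fin 2 × κ) (Fin 2 × κ) ℂ)) *ᵥ
      (Pi.single p 1)))).2
    have e4 := n2_kron_single (BB u) (BB_norm u) p
    have e5 := n2_kron_single (DD u) (DD_norm u) p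
    have e6 := mul_le_mul_of_nonneg_left e4 hC
    have e7 := mul_le_mul_of_nonneg_left e5 hl
    push_cast at e6 e7
    linarith
  have h2 : (Wit g lam1 p p 0).re = ((Fh g lam1 0 0 p p).re + (Fh g lam1 1 1 p p).re) / 2 := by
    simp [Wit, unhat]
  rw [h2]
  have := h1 0; have := h1 1
  linarith

end

end H93.LP3
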