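import Pool.Agent.H93.LP3.Wit6

open Matrix Complex Polynomial
open scoped ComplexOrder Kronecker

namespace H93.LP3

/-- bilinear pairing of matrices -/
noncomputable def pr {α β : Type*} [Fintype α] [Fintype β] (X Z : Matrix α β ℂ) : ℂ :=
  ∑ p, ∑ q, X p q * Z p q

section
variable {α β γ δ : Type*} [Fintype α] [Fintype β] [Fintype γ] [Fintype δ]

lemma pr_eq_trace (X Z : Matrix α β ℂ) : pr X Z = (Xᵀ * Z).trace := by
  simp only [pr, Matrix.trace, Matrix.diag, mul_apply, transpose_apply]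
  exact Finset.sum_comm

lemma pr_conj (A : Matrix γ α ℂ) (g : Matrix γ δ ℂ) (B : Matrix δ β ℂ) (Z : Matrix α β ℂ) :
    pr (Aᵀ * g * B) Z = pr g (A * Z * Bᵀ) := by
  rw [pr_eq_trace, pr_eq_trace, transpose_mul, transpose_mul, transpose_transpose,
    Matrix.mul_assoc, Matrix.trace_mul_comm, Matrix.mul_assoc, Matrix.mul_assoc, Matrix.mul_assoc]

lemma pr_add_left (X X' Z : Matrix α β ℂ) : pr (X + X') Z = pr X Z + pr X' Z := by
  simp only [pr, Matrix.add_apply, add_mul, Finset.sum_add_distrib]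

lemma pr_sub_left (X X' Z : Matrix α β ℂ) : pr (X - X') Z = pr X Z - pr X' Z := by
  simp only [pr, Matrix.sub_apply, sub_mul, Finset.sum_sub_distrib]

lemma pr_add_right (X Z Z' : Matrix α β ℂ) : pr X (Z + Z') = pr X Z + pr X Z' := by
  simp only [pr, Matrix.add_apply, mul_add, Finset.sum_add_distrib]

lemma pr_sub_right (X Z Z' : Matrix α β ℂ) : pr X (Z - Z') = pr X Z - pr X Z' := by
  simp only [pr, Matrix.sub_apply, mul_sub, Finset.sum_sub_distrib]

lemma pr_smul_left (c : ℂ) (X Z : Matrix α β ℂ) : pr (c • X) Z = c * pr X Z := by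
  simp only [pr, Matrix.smul_apply, smul_eq_mul, Finset.mul_sum, mul_assoc]

lemma pr_smul_right (c : ℂ) (X Z : Matrix α β ℂ) : pr X (c • Z) = c * pr X Z := by
  simp only [pr, Matrix.smul_apply, smul_eq_mul, Finset.mul_sum]
  refine Finset.sum_congr rfl fun _ _ => Finset.sum_congr rfl fun _ _ => ?_
  ring

lemma pr_sum_left {ι : Type*} (s : Finset ι) (X : ι → Matrix α β ℂ) (Z : Matrix α β ℂ) :
    pr (∑ i ∈ s, X i) Z = ∑ i ∈ s, pr (X i) Z := by
  classical
  induction s using Finset.induction_on with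
  | empty => simp [pr]
  | insert a s ha ih => rw [Finset.sum_insert ha, Finset.sum_insert ha, pr_add_left, ih]

lemma pr_sum_right {ι : Type*} (s : Finset ι) (X : Matrix α β ℂ) (Z : ι → Matrix α β ℂ) :
    pr X (∑ i ∈ s, Z i) = ∑ i ∈ s, pr X (Z i) := by
  classical
  induction s using Finset.induction_on with
  | empty => simp [pr]
  | insert a s ha ih => rw [Finset.sum_insert ha, Finset.sum_insert ha, pr_add_right, ih]

end

/-- kernel depending on total degrees only -/
noncomputable def KK' (i : Fin 8) (k l : ℕ) (α β : Fin 2) : ℂ :=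
  ((aw i * sg i ^ ((α : ℕ) + β) : ℝ) : ℂ) *
    (if k + 10 * α = l + 10 * β then ((rho i ^ (k + l) : ℝ) : ℂ) else 0)

lemma kf_eq (i : Fin 8) (s : Fin 4 → ℂ) (a : Fin 16) (α : Fin 2) (b : Fin 16) (β : Fin 2) :
    kf i s a α b β = ∑ u : Fin 2, ∑ v : Fin 2, hat u v s * KK' i (v + a) (u + b) α β := by
  unfold kf KK'
  rw [Finset.mul_sum]
  refine Finset.sum_congr rfl fun u _ => ?_
  rw [Finset.mul_sum]
  refine Finset.sum_congr rfl fun v _ => ?_
  have : (u : ℕ) + v + a + b = v + a + (u + b) := by ring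
  rw [this]
  ring

lemma sumB (k : Fin 17) (H : ℕ → ℂ) : ∑ v : Fin 2, ∑ a : Fin 16, BB v k a * H (v + a) = H k := by
  rw [Fin.sum_univ_two]
  refine Fin.lastCases ?_ (fun k => ?_) k
  · have h0 : ∑ a : Fin 16, BB 0 (Fin.last 16) a * H ((0 : Fin 2) + a) = 0 := by
      refine Finset.sum_eq_zero fun a _ => ?_
      have : ¬ (16 = (a : ℕ)) := by omega
      simp [BB, this]
    have h1 : ∑ a : Fin 16, BB 1 (Fin.last 16) a * H ((1 : Fin 2) + a) = H 16 := by
      rw [Finset.sum_eq_single 15]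
      · simp [BB]
      · intro a _ ha
        have : ¬ ((a : ℕ) = 15) := fun h => ha (Fin.ext h)
        simp [BB, this]
      · simp
    rw [h0, h1]; simp
  · have h0 : ∑ a : Fin 16, BB 0 k.castSucc a * H ((0 : Fin 2) + a) = H k := by
      rw [Finset.sum_eq_single k]
      · simp [BB]
      · intro a _ ha
        have : ¬ ((k : ℕ) = a) := fun h => ha (Fin.ext h.symm)
        simp [BB, this]
      · simp
    have h1 : ∑ a : Fin 16, BB 1 k.castSucc a * H ((1 : Fin 2) + a) = 0 := by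
      refine Finset.sum_eq_zero fun a _ => ?_
      have : ¬ ((k : ℕ) = 16) := by omega
      simp [BB, this]
    rw [h0, h1]; simp

lemma sumD (j : Fin 15) (H : ℕ → ℂ) : ∑ v : Fin 2, ∑ a : Fin 16, DD v j a * H (v + a) = 0 := by
  rw [Fin.sum_univ_two]
  have h0 : ∑ a : Fin 16, DD 0 j a * H ((0 : Fin 2) + a) = -H (j + 1) := by
    rw [Finset.sum_eq_single j.succ]
    · simp [DD]
    · intro a _ ha
      have : ¬ ((a : ℕ) = j + 1) := fun h => ha (Fin.ext h)
      simp [DD, this]
    · simp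
  have h1 : ∑ a : Fin 16, DD 1 j a * H ((1 : Fin 2) + a) = H (1 + j) := by
    rw [Finset.sum_eq_single j.castSucc]
    · simp [DD]
    · intro a _ ha
      have : ¬ ((a : ℕ) = j) := fun h => ha (Fin.ext h)
      simp [DD, this]
    · simp
  rw [h0, h1, add_comm 1 (j : ℕ)]; ring

end H93.LP3
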