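import Pool.Agent.H93.LP3.Wit7

open Matrix Complex Polynomial
open scoped ComplexOrder Kronecker

namespace H93.LP3

section
variable {κ : Type} [Fintype κ] [DecidableEq κ]

/-- `P ± Q` -/
noncomputable def PQ (P Q : Matrix κ κ ℂ) (α β : Fin 2) : Matrix κ κ ℂ :=
  P + ((-1) ^ (α : ℕ) * (-1) ^ (β : ℕ) : ℂ) • Q

/-- pairing matrix on the small space -/
noncomputable def Zm (i : Fin 8) (P Q : Matrix κ κ ℂ) (u v : Fin 2) : Matrix (IX κ) (IX κ) ℂ :=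
  Matrix.of fun p q => KK' i (v + p.1) (u + q.1) p.2.1 q.2.1 * PQ P Q p.2.1 q.2.1 p.2.2 q.2.2

/-- pairing matrix on the middle space -/
noncomputable def ZM (i : Fin 8) (P Q : Matrix κ κ ℂ) : Matrix (MX κ) (MX κ) ℂ :=
  Matrix.of fun p q => KK' i p.1 q.1 p.2.1 q.2.1 * PQ P Q p.2.1 q.2.1 p.2.2 q.2.2

lemma swap5 {P Q I U V : Type*} [Fintype P] [Fintype Q] [Fintype I] [Fintype U] [Fintype V]
    (f : P → Q → I → U → V → ℂ) :
    ∑ p, ∑ q, ∑ i, ∑ u, ∑ v, f p q i u v = ∑ i, ∑ u, ∑ v, ∑ p, ∑ q, f p q i u v := by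
  have := Finset.sum_comm (s := (Finset.univ : Finset (P × Q)))
    (t := (Finset.univ : Finset (I × U × V))) (f := fun x t => f x.1 x.2 t.1 t.2.1 t.2.2)
  simpa only [Fintype.sum_prod_type] using this

lemma phi_pairing (P Q : Fin 8 → Matrix κ κ ℂ) (g : Matrix (MX κ) (MX κ) ℂ) (lam1 : ℝ) :
    ∑ p, ∑ q, phi P Q (Wit g lam1 p q) p q =
      ∑ i, ∑ u : Fin 2, ∑ v : Fin 2, pr (Fh g lam1 u v) (Zm i (P i) (Q i) u v) := by
  unfold pr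
  rw [← swap5]
  refine Finset.sum_congr rfl fun p _ => Finset.sum_congr rfl fun q _ => ?_
  simp only [phi, LinearMap.coe_mk, AddHom.coe_mk, Matrix.of_apply, kf_eq, Wit, hat_unhat, Zm, PQ,
    Matrix.add_apply, Matrix.smul_apply, smul_eq_mul]
  refine Finset.sum_congr rfl fun i _ => ?_
  rw [Finset.sum_mul]
  refine Finset.sum_congr rfl fun u _ => ?_
  rw [Finset.sum_mul]
  refine Finset.sum_congr rfl fun v _ => ?_
  ring

lemma kron_mul_apply {m : ℕ} (A : Matrix (Fin m) (Fin 16) ℂ) (Z : Matrix (IX κ) (IX κ) ℂ)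
    (p : Fin m × Fin 2 × κ) (q : IX κ) :
    ((A ⊗ₖ (1 : Matrix (Fin 2 × κ) (Fin 2 × κ) ℂ)) * Z) p q = ∑ a, A p.1 a * Z (a, p.2) q := by
  rw [mul_apply, Fintype.sum_prod_type]
  refine Finset.sum_congr rfl fun a _ => ?_
  rw [Finset.sum_eq_single p.2]
  · simp
  · intro y _ hy
    rw [kroneckerMap_apply, Matrix.one_apply_ne (Ne.symm hy)]; simp
  · simp

lemma mul_kron_apply {m n : ℕ} (B : Matrix (Fin n) (Fin 16) ℂ)
    (Z : Matrix (Fin m × Fin 2 × κ) (IX κ) ℂ)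
    (p : Fin m × Fin 2 × κ) (q : Fin n × Fin 2 × κ) :
    (Z * (B ⊗ₖ (1 : Matrix (Fin 2 × κ) (Fin 2 × κ) ℂ))ᵀ) p q = ∑ b, Z p (b, q.2) * B q.1 b := by
  rw [mul_apply, Fintype.sum_prod_type]
  refine Finset.sum_congr rfl fun a _ => ?_
  rw [Finset.sum_eq_single q.2]
  · simp
  · intro y _ hy
    rw [transpose_apply, kroneckerMap_apply, Matrix.one_apply_ne (Ne.symm hy)]; simp
  · simp

lemma swap4 {U V A B : Type*} [Fintype U] [Fintype V] [Fintype A] [Fintype B]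
    (f : U → V → A → B → ℂ) :
    ∑ u, ∑ v, ∑ b, ∑ a, f u v a b = ∑ u, ∑ b, ∑ v, ∑ a, f u v a b :=
  Finset.sum_congr rfl fun _ _ => Finset.sum_comm

lemma sum_BZB (i : Fin 8) (P Q : Matrix κ κ ℂ) :
    ∑ u : Fin 2, ∑ v : Fin 2, (BB v ⊗ₖ (1 : Matrix (Fin 2 × κ) (Fin 2 × κ) ℂ)) * Zm i P Q u v *
      (BB u ⊗ₖ (1 : Matrix (Fin 2 × κ) (Fin 2 × κ) ℂ))ᵀ = ZM i P Q := by
  ext ⟨k, α, x⟩ ⟨l, β, y⟩
  simp only [Matrix.sum_apply, mul_kron_apply, kron_mul_apply, Zm, ZM, Matrix.of_apply,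
    Finset.sum_mul]
  rw [swap4 (fun (u v : Fin 2) (a b : Fin 16) => BB v k a * (KK' i (v + a) (u + b) α β * PQ P Q α β x y) * BB u l b)]
  have h1 : ∀ u : Fin 2, ∀ b : Fin 16, ∑ v : Fin 2, ∑ a : Fin 16,
      BB v k a * (KK' i (v + a) (u + b) α β * PQ P Q α β x y) * BB u l b =
      BB u l b * (KK' i k (u + b) α β * PQ P Q α β x y) := by
    intro u b
    have := sumB k (fun n => KK' i n (u + b) α β * PQ P Q α β x y * BB u l b)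
    rw [mul_comm (BB u l b), ← this]
    refine Finset.sum_congr rfl fun v _ => Finset.sum_congr rfl fun a _ => ?_
    ring
  simp_rw [h1]
  exact sumB l (fun n => KK' i k n α β * PQ P Q α β x y)

lemma sum_DZD (i : Fin 8) (P Q : Matrix κ κ ℂ) :
    ∑ u : Fin 2, ∑ v : Fin 2, (DD v ⊗ₖ (1 : Matrix (Fin 2 × κ) (Fin 2 × κ) ℂ)) * Zm i P Q u v *
      (DD u ⊗ₖ (1 : Matrix (Fin 2 × κ) (Fin 2 × κ) ℂ))ᵀ = 0 := by
  ext ⟨k, α, x⟩ ⟨l, β, y⟩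
  simp only [Matrix.sum_apply, mul_kron_apply, kron_mul_apply, Zm, Matrix.of_apply,
    Finset.sum_mul, Matrix.zero_apply]
  rw [swap4 (fun (u v : Fin 2) (a b : Fin 16) => DD v k a * (KK' i (v + a) (u + b) α β * PQ P Q α β x y) * DD u l b)]
  have h1 : ∀ u : Fin 2, ∀ b : Fin 16, ∑ v : Fin 2, ∑ a : Fin 16,
      DD v k a * (KK' i (v + a) (u + b) α β * PQ P Q α β x y) * DD u l b = 0 := by
    intro u b
    have := sumD k (fun n => KK' i n (u + b) α β * PQ P Q α β x y * DD u l b)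
    rw [← this]
    refine Finset.sum_congr rfl fun v _ => Finset.sum_congr rfl fun a _ => ?_
    ring
  simp_rw [h1]
  simp

lemma phi_pairing2 (P Q : Fin 8 → Matrix κ κ ℂ) (g : Matrix (MX κ) (MX κ) ℂ) (lam1 : ℝ) :
    ∑ p, ∑ q, phi P Q (Wit g lam1 p q) p q = ∑ i, pr g (ZM i (P i) (Q i)) := by
  rw [phi_pairing]
  refine Finset.sum_congr rfl fun i _ => ?_
  have h1 : ∀ u v : Fin 2, pr (Fh g lam1 u v) (Zm i (P i) (Q i) u v) =
      pr g ((BB v ⊗ₖ (1 : Matrix (Fin 2 × κ) (Fin 2 × κ) ℂ)) * Zm i (P i) (Q i) u v *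
        (BB u ⊗ₖ (1 : Matrix (Fin 2 × κ) (Fin 2 × κ) ℂ))ᵀ) +
      lam1 * pr (1 : Matrix (Fin 15 × Fin 2 × κ) (Fin 15 × Fin 2 × κ) ℂ) ((DD v ⊗ₖ (1 : Matrix (Fin 2 × κ) (Fin 2 × κ) ℂ)) * Zm i (P i) (Q i) u v *
        (DD u ⊗ₖ (1 : Matrix (Fin 2 × κ) (Fin 2 × κ) ℂ))ᵀ) := by
    intro u v
    have e1 : (((DD v)ᵀ * DD u) ⊗ₖ (1 : Matrix (Fin 2 × κ) (Fin 2 × κ) ℂ)) =
        (DD v ⊗ₖ (1 : Matrix (Fin 2 × κ) (Fin 2 × κ) ℂ))ᵀ *
          (1 : Matrix (Fin 15 × Fin 2 × κ) (Fin 15 × Fin 2 × κ) ℂ) *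
          (DD u ⊗ₖ (1 : Matrix (Fin 2 × κ) (Fin 2 × κ) ℂ)) := by
      rw [Matrix.mul_one, ← kroneckerMap_transpose, transpose_one, ← mul_kronecker_mul,
        Matrix.one_mul]
    unfold Fh
    rw [pr_add_left, pr_conj, pr_smul_left, e1, pr_conj]
  simp_rw [h1, Finset.sum_add_distrib, ← Finset.mul_sum, ← pr_sum_right]
  rw [sum_BZB, sum_DZD]
  simp [pr]

end

end H93.LP3
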