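import Pool.Agent.H93.LP3.Wit8

open Matrix Complex Polynomial
open scoped ComplexOrder Kronecker

namespace H93.LP3

def Supp (S : Matrix (Fin 17 × Fin 2) (Fin 17 × Fin 2) ℂ) : Prop :=
  ∀ (k l : Fin 17) (α β : Fin 2), ¬ ((k : ℕ) + 10 * α = l + 10 * β) → S (k, α) (l, β) = 0

lemma SX_supp (i : Fin 8) : Supp (SX i) := by
  intro k l α β h
  simp only [SX, Matrix.of_apply]
  rw [if_neg]
  intro h'
  apply h
  simp only [Prod.mk.injEq] at h'
  rw [h'.1, h'.2]

lemma SO_supp (ε lam : ℝ) : Supp (SO ε lam) := by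
  intro k l α β h
  simp only [SO, Matrix.of_apply]
  rw [if_neg]
  intro h'
  apply h
  simp only [Prod.mk.injEq] at h'
  rw [h'.1, h'.2]

lemma SB_supp (i : Fin 8) : Supp (SB i) := by
  intro k l α β h
  simp only [SB, Matrix.of_apply]
  rw [if_neg, if_neg, add_zero]
  · rintro ⟨h1, h2, h3⟩
    apply h; rw [h1, h2, h3]; simp
  · rintro ⟨h1, h2, h3⟩
    apply h; rw [h1, h2, h3]; simp

lemma Supp.add {S T : Matrix (Fin 17 × Fin 2) (Fin 17 × Fin 2) ℂ} (hS : Supp S) (hT : Supp T) :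
    Supp (S + T) := fun k l α β h => by
  rw [Matrix.add_apply, hS k l α β h, hT k l α β h, add_zero]

lemma Supp.sub {S T : Matrix (Fin 17 × Fin 2) (Fin 17 × Fin 2) ℂ} (hS : Supp S) (hT : Supp T) :
    Supp (S - T) := fun k l α β h => by
  rw [Matrix.sub_apply, hS k l α β h, hT k l α β h, sub_zero]

lemma symK {S : Matrix (Fin 17 × Fin 2) (Fin 17 × Fin 2) ℂ} (hS : Supp S) (i : Fin 8)
    (α β : Fin 2) : ∑ k : Fin 17, ∑ l : Fin 17, S (k, α) (l, β) * KK' i k l α β =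
      ((aw i * sg i ^ ((α : ℕ) + β) : ℝ) : ℂ) * sym S (rho i : ℂ) α β := by
  unfold sym KK'
  rw [Finset.mul_sum]
  refine Finset.sum_congr rfl fun k _ => ?_
  rw [Finset.mul_sum]
  refine Finset.sum_congr rfl fun l _ => ?_
  by_cases h : (k : ℕ) + 10 * α = l + 10 * β
  · rw [if_pos h, Complex.conj_ofReal]
    push_cast
    ring
  · rw [hS k l α β h, if_neg h]; simp

section
variable {κ : Type} [Fintype κ] [DecidableEq κ]

lemma pr_S {S : Matrix (Fin 17 × Fin 2) (Fin 17 × Fin 2) ℂ} (hS : Supp S) (Y : Matrix κ κ ℂ)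
    (i : Fin 8) (P Q : Matrix κ κ ℂ) :
    pr ((S ⊗ₖ Y).submatrix asc asc) (ZM i P Q) =
      ∑ α : Fin 2, ∑ β : Fin 2, ((aw i * sg i ^ ((α : ℕ) + β) : ℝ) : ℂ) *
        sym S (rho i : ℂ) α β * pr Y (PQ P Q α β) := by
  have h1 : pr ((S ⊗ₖ Y).submatrix asc asc) (ZM i P Q) =
      ∑ k : Fin 17, ∑ α : Fin 2, ∑ x, ∑ l : Fin 17, ∑ β : Fin 2, ∑ y,
        S (k, α) (l, β) * Y x y * (KK' i k l α β * PQ P Q α β x y) := by
    simp only [pr, Fintype.sum_prod_type, submatrix_apply, asc, kroneckerMap_apply, ZM,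
      Matrix.of_apply]
  rw [h1, sum6]
  refine Finset.sum_congr rfl fun α _ => Finset.sum_congr rfl fun β _ => ?_
  rw [← symK hS, pr, Finset.sum_mul]
  refine Finset.sum_congr rfl fun k _ => ?_
  rw [Finset.sum_mul]
  refine Finset.sum_congr rfl fun l _ => ?_
  rw [Finset.mul_sum]
  refine Finset.sum_congr rfl fun x _ => ?_
  rw [Finset.mul_sum]
  refine Finset.sum_congr rfl fun y _ => ?_
  ring

lemma normSq_rho (i : Fin 8) : normSq (rho i : ℂ) = tt i := by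
  rw [Complex.normSq_ofReal, ← pow_two, rho_sq]

lemma rho10 (i : Fin 8) : (rho i : ℂ) ^ 10 = ((tt i ^ 5 : ℝ) : ℂ) := by
  rw [← rho_sq]; push_cast; ring

lemma sym_SX_rho (i j : Fin 8) (α β : Fin 2) : sym (SX j) (rho i : ℂ) α β =
    if α = β then (if j = i then ((1 / (2 * aw i) : ℝ) : ℂ) else 0) else 0 := by
  rw [sym_SX, normSq_rho]
  by_cases h : j = i
  · subst h; rw [el_self]; simp
  · rw [el_ne h]; simp [h]

lemma sym_SO_rho (i : Fin 8) (ε lam : ℝ) (α β : Fin 2) : sym (SO ε lam) (rho i : ℂ) α β =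
    if α = β then ((ε * (1 + tt i) ^ 16 : ℝ) : ℂ) else 0 := by
  rw [sym_SO, normSq_rho, qp_node]; simp

lemma BS_rho (i j : Fin 8) : BS j (tt i) * tt i ^ 5 =
    (if j = i then sg i / (2 * aw i) else 0) + tt i ^ 12 / 10080 := by
  rw [BS_eq]
  by_cases h : j = i
  · subst h
    rw [el_self, div_self (tt_pos j).ne', if_pos rfl]
    ring
  · rw [el_ne h, if_neg h]; ring

lemma sym_SB10_rho (i j : Fin 8) : sym (SB j) (rho i : ℂ) 1 0 =
    (((if j = i then sg i / (2 * aw i) else 0) + tt i ^ 12 / 10080 : ℝ) : ℂ) := by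
  rw [sym_SB10, normSq_rho, Complex.conj_ofReal, rho10, ← BS_rho]
  push_cast; ring

lemma sym_SB01_rho (i j : Fin 8) : sym (SB j) (rho i : ℂ) 0 1 =
    (((if j = i then sg i / (2 * aw i) else 0) + tt i ^ 12 / 10080 : ℝ) : ℂ) := by
  rw [sym_SB01, normSq_rho, rho10, ← BS_rho]
  push_cast; ring

lemma pr_gg {e f : Fin 8 → Matrix κ κ ℂ} (he : IsPVM e) (hf : IsPVM f) (ε lam : ℝ) (i : Fin 8)
    (P Q : Matrix κ κ ℂ) : pr (gg e f ε lam) (ZM i P Q) =
      2 * pr (e i) P + 2 * pr (f i) Q +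
        ((2 * aw i * (ε * (1 + tt i) ^ 16) : ℝ) : ℂ) * pr 1 (P + Q) := by
  have e1 : gg e f ε lam = ∑ i, (((SX i + SB i) ⊗ₖ e i).submatrix asc asc +
      ((SX i - SB i) ⊗ₖ f i).submatrix asc asc) +
      (SO ε lam ⊗ₖ (1 : Matrix κ κ ℂ)).submatrix asc asc := by
    unfold gg
    ext a b
    simp only [submatrix_apply, Matrix.add_apply, Matrix.sum_apply]
  have hPQ0 : PQ P Q 0 0 = P + Q := by simp [PQ]
  have hPQ1 : PQ P Q 1 1 = P + Q := by simp [PQ]
  have hPQ2 : PQ P Q 0 1 = P - Q := by simp [PQ, sub_eq_add_neg]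
  have hPQ3 : PQ P Q 1 0 = P - Q := by simp [PQ, sub_eq_add_neg]
  have ha := (aw_pos i).ne'
  have hss := sg_sq i
  have haC : (aw i : ℂ) ≠ 0 := by exact_mod_cast ha
  have hssC : (sg i : ℂ) * sg i = 1 := by exact_mod_cast hss
  have hE : ∀ j, pr (((SX j + SB j) ⊗ₖ e j).submatrix asc asc) (ZM i P Q) =
      (if j = i then pr (e i) (P + Q) + pr (e i) (P - Q) else 0) +
      ((2 * aw i * sg i * (tt i ^ 12 / 10080) : ℝ) : ℂ) * pr (e j) (P - Q) := by
    intro j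
    rw [pr_S ((SX_supp j).add (SB_supp j))]
    simp only [Fin.sum_univ_two, sym_add, sym_SX_rho, sym_SB_diag, sym_SB10_rho, sym_SB01_rho,
      hPQ0, hPQ1, hPQ2, hPQ3]
    by_cases h : j = i
    · subst h
      simp
      field_simp
      linear_combination (20160 * pr (e j) (P - Q) + 10080 * pr (e j) (P + Q)) * hssC
    · simp [h]
      ring
  have hF : ∀ j, pr (((SX j - SB j) ⊗ₖ f j).submatrix asc asc) (ZM i P Q) =
      (if j = i then pr (f i) (P + Q) - pr (f i) (P - Q) else 0) -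
      ((2 * aw i * sg i * (tt i ^ 12 / 10080) : ℝ) : ℂ) * pr (f j) (P - Q) := by
    intro j
    rw [pr_S ((SX_supp j).sub (SB_supp j))]
    simp only [Fin.sum_univ_two, sym_sub, sym_SX_rho, sym_SB_diag, sym_SB10_rho, sym_SB01_rho,
      hPQ0, hPQ1, hPQ2, hPQ3]
    by_cases h : j = i
    · subst h
      simp
      field_simp
      linear_combination (-20160 * pr (f j) (P - Q) + 10080 * pr (f j) (P + Q)) * hssC
    · simp [h]
      ring
  have hO : pr ((SO ε lam ⊗ₖ (1 : Matrix κ κ ℂ)).submatrix asc asc) (ZM i P Q) =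
      ((2 * aw i * (ε * (1 + tt i) ^ 16) : ℝ) : ℂ) * pr 1 (P + Q) := by
    rw [pr_S (SO_supp ε lam)]
    simp only [Fin.sum_univ_two, sym_SO_rho, hPQ0, hPQ1]
    have h2 : (sg i : ℂ) ^ 2 = 1 := by rw [pow_two]; exact hssC
    simp [h2]
    ring
  rw [e1, pr_add_left, pr_sum_left, hO]
  simp_rw [pr_add_left, hE, hF]
  rw [Finset.sum_add_distrib, Finset.sum_add_distrib, Finset.sum_sub_distrib, ← Finset.mul_sum,
    ← Finset.mul_sum, ← pr_sum_left, ← pr_sum_left, he.sum_one, hf.sum_one]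
  simp only [Finset.sum_ite_eq', Finset.mem_univ, if_true]
  simp only [pr_add_right, pr_sub_right]
  ring

lemma pr_PP {e : Fin 8 → Matrix κ κ ℂ} (he : IsPVM e) (γ : ℝ) (i : Fin 8) :
    pr (e i) (PP γ e i) = -((γ / 4 : ℝ) : ℂ) * (e i).trace := by
  unfold PP
  rw [pr_sub_right, pr_smul_right]
  have h1 : pr (e i) (1 : Matrix κ κ ℂ) = (e i).trace := by
    rw [pr_eq_trace, Matrix.mul_one, trace_transpose]
  have h2 : pr (e i) (e i)ᵀ = (e i).trace := by
    rw [pr_eq_trace, ← transpose_mul, trace_transpose, he.idem]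
  rw [h1, h2]
  push_cast; ring

lemma pr_one_PP {e : Fin 8 → Matrix κ κ ℂ} (he : IsPVM e) {γ : ℝ} (hγ : 0 ≤ γ) (i : Fin 8) :
    (pr 1 (PP γ e i)).re ≤ Fintype.card κ := by
  unfold PP
  rw [pr_sub_right, pr_smul_right]
  have h1 : pr (1 : Matrix κ κ ℂ) (1 : Matrix κ κ ℂ) = Fintype.card κ := by
    rw [pr_eq_trace, Matrix.mul_one, trace_transpose, trace_one]
  have h2 : pr (1 : Matrix κ κ ℂ) (e i)ᵀ = (e i).trace := by
    rw [pr_eq_trace, transpose_one, Matrix.one_mul, trace_transpose]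
  rw [h1, h2, Complex.sub_re, Complex.re_ofReal_mul, Complex.natCast_re]
  have h3 : 0 ≤ ((e i).trace).re := by
    have := (he.psd i).trace_nonneg
    exact (Complex.nonneg_iff.1 this).1
  have h4 : (0 : ℝ) ≤ Fintype.card κ := Nat.cast_nonneg _
  nlinarith

lemma IsPVM.trace_sum {e : Fin 8 → Matrix κ κ ℂ} (he : IsPVM e) :
    ∑ i, (e i).trace = Fintype.card κ := by
  rw [← Matrix.trace_sum, he.sum_one, trace_one]

/-- the total pairing -/
lemma total_pairing {e f : Fin 8 → Matrix κ κ ℂ} (he : IsPVM e) (hf : IsPVM f) {γ ε : ℝ}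
    (hγ : 0 ≤ γ) (hε : 0 ≤ ε) (lam lam1 : ℝ) :
    (∑ p, ∑ q, phi (PP γ e) (PP γ f) (Wit (gg e f ε lam) lam1 p q) p q).re ≤
      -γ * Fintype.card κ + 4 * ε * (∑ i, aw i * (1 + tt i) ^ 16) * Fintype.card κ := by
  rw [phi_pairing2]
  simp_rw [pr_gg he hf, pr_PP he, pr_PP hf]
  rw [Finset.sum_add_distrib, Finset.sum_add_distrib]
  have h1 : ∀ e : Fin 8 → Matrix κ κ ℂ, IsPVM e →
      ∑ i, 2 * (-((γ / 4 : ℝ) : ℂ) * (e i).trace) = ((-(γ / 2) * Fintype.card κ : ℝ) : ℂ) := by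
    intro e he
    rw [← Finset.mul_sum, ← Finset.mul_sum, he.trace_sum]
    push_cast; ring
  rw [h1 e he, h1 f hf, Complex.add_re, Complex.add_re, Complex.ofReal_re, Complex.re_sum]
  have h2 : ∀ i, (((2 * aw i * (ε * (1 + tt i) ^ 16) : ℝ) : ℂ) *
      pr 1 (PP γ e i + PP γ f i)).re ≤ 4 * ε * (aw i * (1 + tt i) ^ 16) * Fintype.card κ := by
    intro i
    rw [Complex.re_ofReal_mul, pr_add_right, Complex.add_re]
    have e1 := pr_one_PP he hγ i
    have e2 := pr_one_PP hf hγ i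
    have e3 := aw_pos i
    have e4 := tt_pos i
    have e5 : 0 ≤ 2 * aw i * (ε * (1 + tt i) ^ 16) := by positivity
    calc _ ≤ 2 * aw i * (ε * (1 + tt i) ^ 16) * ((Fintype.card κ : ℝ) + Fintype.card κ) :=
          mul_le_mul_of_nonneg_left (add_le_add e1 e2) e5
      _ = _ := by ring
  have h3 := Finset.sum_le_sum (s := Finset.univ) fun i (_ : i ∈ Finset.univ) => h2 i
  rw [← Finset.sum_mul, ← Finset.mul_sum] at h3
  linarith

end

end H93.LP3
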